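import Pool.Agent.RSet.Ret

/-!
# Independent samples: dense orbits in the torus `T ^ d` under `×p` alone
-/

set_option autoImplicit false

open MeasureTheory Filter Topology Set
open scoped ENNReal

namespace Pool.Agent.RSet

open Pool.Agent.NSet

theorem pi_dense {p q : ℕ} (h : MI p q) (d : ℕ) : ∀ (ρ : Fin d → Measure T) [∀ i, IsFiniteMeasure (ρ i)],
    (∀ i, MeasurePreserving (fun x : T => p • x) (ρ i) (ρ i)) →
    (∀ i, MeasurePreserving (fun x : T => q • x) (ρ i) (ρ i)) → (∀ i x, ρ i {x} = 0) →
    ∀ᵐ x ∂(Measure.pi ρ), Dense (range fun n : ℕ => (fun i => p ^ n • x i : Fin d → T)) := by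
  induction d with
  | zero =>
    intro ρ _ _ _ _
    refine Eventually.of_forall fun x => ?_
    have h1 : (range fun n : ℕ => (fun i => p ^ n • x i : Fin 0 → T)) = univ := by
      ext y
      simp only [mem_range, mem_univ, iff_true]
      exact ⟨0, Subsingleton.elim _ _⟩
    rw [h1]
    exact dense_univ
  | succ d ih =>
    intro ρ _ hp hq hat
    have h1 := ih (fun j => ρ (Fin.succAbove 0 j)) (fun j => hp _) (fun j => hq _) (fun j => hat _)
    have hS : MeasurePreserving (fun (x : Fin d → T) => fun i => p • x i)
        (Measure.pi fun j => ρ (Fin.succAbove 0 j)) (Measure.pi fun j => ρ (Fin.succAbove 0 j)) :=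
      measurePreserving_pi _ _ fun j => hp _
    have hit : ∀ (n : ℕ) (x : Fin d → T), (fun (x : Fin d → T) => fun i => p • x i)^[n] x =
        fun i => p ^ n • x i := by
      intro n x
      have e1 : (fun (x : Fin d → T) => fun i => p • x i) = fun x : Fin d → T => p • x := rfl
      rw [e1, smul_iterate]
      rfl
    have h2 := prod_dense h (Measure.pi fun j => ρ (Fin.succAbove 0 j)) hS (by
      filter_upwards [h1] with x hx
      simpa only [hit] using hx) (ρ 0) (hq 0) (hat 0)
    have h3 := measurePreserving_piFinSuccAbove ρ 0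
    have h4 : MeasurePreserving (Prod.swap : T × (Fin d → T) → (Fin d → T) × T)
        ((ρ 0).prod (Measure.pi fun j => ρ (Fin.succAbove 0 j)))
        ((Measure.pi fun j => ρ (Fin.succAbove 0 j)).prod (ρ 0)) := Measure.measurePreserving_swap
    have h5 := (h4.comp h3).quasiMeasurePreserving.ae h2
    filter_upwards [h5] with x hx
    have hg : Continuous fun z : (Fin d → T) × T => (Fin.cons z.2 z.1 : Fin (d + 1) → T) := by
      refine continuous_pi fun i => ?_
      refine Fin.cases ?_ (fun j => ?_) i
      · simp only [Fin.cons_zero]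
        exact continuous_snd
      · simp only [Fin.cons_succ]
        exact (continuous_apply j).comp continuous_fst
    have hsur : Function.Surjective fun z : (Fin d → T) × T => (Fin.cons z.2 z.1 : Fin (d + 1) → T) := by
      intro y
      exact ⟨(Fin.tail y, y 0), Fin.cons_self_tail y⟩
    have h6 := hsur.denseRange.dense_image hg hx
    have h7 : ((fun z : (Fin d → T) × T => (Fin.cons z.2 z.1 : Fin (d + 1) → T)) ''
        (range fun n : ℕ => ((fun (x : Fin d → T) => fun i => p • x i)^[n]
          ((Prod.swap ∘ (MeasurableEquiv.piFinSuccAbove (fun _ => T) 0)) x).1,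
          p ^ n • ((Prod.swap ∘ (MeasurableEquiv.piFinSuccAbove (fun _ => T) 0)) x).2))) ⊆
        range fun n : ℕ => (fun i => p ^ n • x i : Fin (d + 1) → T) := by
      rintro _ ⟨_, ⟨n, rfl⟩, rfl⟩
      refine ⟨n, ?_⟩
      funext i
      refine Fin.cases ?_ (fun j => ?_) i
      · simp only [Fin.cons_zero]
        rfl
      · simp only [Fin.cons_succ, hit]
        rfl
    exact h6.mono h7

end Pool.Agent.RSet
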