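import Pool.Agent.RSet.Mix

/-!
# Generic points for Lebesgue measure
-/

set_option autoImplicit false

open MeasureTheory Filter Topology Set
open scoped ENNReal NNReal BoundedContinuousFunction

namespace Pool.Agent.RSet

open Pool.Agent.NSet

theorem int_fourier (n : ℤ) : ∫ x : T, (fourier n x : ℂ) = if n = 0 then 1 else 0 := by
  split_ifs with h
  · subst h
    have h1 : volume.real (univ : Set T) = 1 := by
      rw [Measure.real, AddCircle.measure_univ, ENNReal.ofReal_one, ENNReal.toReal_one]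
    simp only [fourier_zero, integral_const, h1]
    simp
  · rw [vol_haar]
    exact integral_eq_zero_of_add_right_eq_neg (fourier_add_half_inv_index h Fact.out)

theorem integrable_c (ν : Measure T) [IsFiniteMeasure ν] (f : C(T, ℂ)) : Integrable (fun x => f x) ν :=
  f.continuous.integrable_of_hasCompactSupport (HasCompactSupport.of_compactSpace _)

theorem norm_ch (m : ℤ) (y : T) : ‖(fourier m y : ℂ)‖ = 1 := by
  rw [fourier_apply]
  exact Circle.norm_coe _

/-- the average of the character `m` over the first `N` points of the `×p` orbit -/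
noncomputable def av (p : ℕ) (m : ℤ) (N : ℕ) (y : T) : ℂ :=
  (∑ n ∈ Finset.range N, (fourier (m * (p : ℤ) ^ n) y : ℂ)) / N

theorem cont_av (p : ℕ) (m : ℤ) (N : ℕ) : Continuous (av p m N) := by
  unfold av
  fun_prop

theorem av_sq (p : ℕ) (m : ℤ) (N : ℕ) (y : T) : ((‖∑ n ∈ Finset.range N, (fourier (m * (p : ℤ) ^ n) y : ℂ)‖ ^ 2 : ℝ) : ℂ) =
    ∑ a ∈ Finset.range N, ∑ b ∈ Finset.range N, (fourier (m * (p : ℤ) ^ a - m * (p : ℤ) ^ b) y : ℂ) := by
  have h2 : ∀ w : ℂ, ((‖w‖ ^ 2 : ℝ) : ℂ) = w * (starRingEnd ℂ) w := by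
    intro w
    rw [Complex.mul_conj, Complex.normSq_eq_norm_sq]
  rw [h2, map_sum, Finset.sum_mul_sum]
  refine Finset.sum_congr rfl fun a _ => Finset.sum_congr rfl fun b _ => ?_
  rw [← fourier_neg, ← fourier_add, sub_eq_add_neg]

theorem int_av_sq {p : ℕ} (hp : 2 ≤ p) {m : ℤ} (hm : m ≠ 0) (N : ℕ) :
    ∫ y : T, ‖∑ n ∈ Finset.range N, (fourier (m * (p : ℤ) ^ n) y : ℂ)‖ ^ 2 = N := by
  have h1 : ((∫ y : T, ‖∑ n ∈ Finset.range N, (fourier (m * (p : ℤ) ^ n) y : ℂ)‖ ^ 2 : ℝ) : ℂ) = (N : ℂ) := by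
    rw [← integral_complex_ofReal]
    simp_rw [av_sq]
    rw [integral_finsetSum _ (fun a _ => integrable_finsetSum _ fun b _ => integrable_c _ _)]
    have e1 : ∀ a ∈ Finset.range N, ∫ y : T, ∑ b ∈ Finset.range N,
        (fourier (m * (p : ℤ) ^ a - m * (p : ℤ) ^ b) y : ℂ) = 1 := by
      intro a ha
      rw [integral_finsetSum _ (fun b _ => integrable_c _ _)]
      simp_rw [int_fourier]
      rw [Finset.sum_eq_single a]
      · simp
      · intro b _ hba
        rw [if_neg]
        intro h3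
        have h4 : m * (p : ℤ) ^ a = m * (p : ℤ) ^ b := by linarith
        have h5 : (p : ℤ) ^ a = (p : ℤ) ^ b := mul_left_cancel₀ hm h4
        have h6 : p ^ a = p ^ b := by exact_mod_cast h5
        exact hba (Nat.pow_right_injective hp h6).symm
      · intro h
        exact absurd ha h
    rw [Finset.sum_congr rfl e1]
    simp
  exact_mod_cast h1

/-- For Lebesgue almost every `y` the averages over squares tend to `0`. -/
theorem ae_av {p : ℕ} (hp : 2 ≤ p) {m : ℤ} (hm : m ≠ 0) :
    ∀ᵐ y : T, Tendsto (fun k : ℕ => av p m ((k + 1) ^ 2) y) atTop (𝓝 0) := by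
  have hmom : ∀ k : ℕ, ∫⁻ y : T, ENNReal.ofReal (‖av p m ((k + 1) ^ 2) y‖ ^ 2) =
      ENNReal.ofReal (1 / ((k + 1 : ℕ) : ℝ) ^ 2) := by
    intro k
    have hcont : Continuous fun y : T => ‖av p m ((k + 1) ^ 2) y‖ ^ 2 := (cont_av p m _).norm.pow 2
    have hint : Integrable (fun y : T => ‖av p m ((k + 1) ^ 2) y‖ ^ 2) volume :=
      hcont.integrable_of_hasCompactSupport (HasCompactSupport.of_compactSpace _)
    rw [← ofReal_integral_eq_lintegral_ofReal hint (Eventually.of_forall fun y => by positivity)]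
    congr 1
    have h2 : ∀ y : T, ‖av p m ((k + 1) ^ 2) y‖ ^ 2 = (1 / (((k + 1) ^ 2 : ℕ) : ℝ) ^ 2) *
        ‖∑ n ∈ Finset.range ((k + 1) ^ 2), (fourier (m * (p : ℤ) ^ n) y : ℂ)‖ ^ 2 := by
      intro y
      unfold av
      rw [norm_div, Complex.norm_natCast, div_pow]
      ring
    simp_rw [h2]
    rw [integral_const_mul, int_av_sq hp hm]
    have hk : ((k + 1 : ℕ) : ℝ) ≠ 0 := by positivity
    push_cast
    field_simp
  have hsum : ∑' k : ℕ, ∫⁻ y : T, ENNReal.ofReal (‖av p m ((k + 1) ^ 2) y‖ ^ 2) ≠ ∞ := by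
    simp_rw [hmom]
    have hs : Summable (fun k : ℕ => 1 / ((k + 1 : ℕ) : ℝ) ^ 2) := by
      have h0 : Summable (fun k : ℕ => 1 / ((k : ℕ) : ℝ) ^ 2) :=
        Real.summable_one_div_nat_pow.mpr (by norm_num)
      exact (summable_nat_add_iff 1).mpr h0
    rw [← ENNReal.ofReal_tsum_of_nonneg (fun k => by positivity) hs]
    exact ENNReal.ofReal_ne_top
  rw [← lintegral_tsum (fun k => by
    exact ((cont_av p m _).norm.pow 2).measurable.ennreal_ofReal.aemeasurable)] at hsum
  have hae := ae_lt_top' (by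
    exact (Measurable.tsum fun k =>
      ((cont_av p m ((k + 1) ^ 2)).norm.pow 2).measurable.ennreal_ofReal).aemeasurable) hsum
  filter_upwards [hae] with y hy
  have h1 := ENNReal.tendsto_atTop_zero_of_tsum_ne_top hy.ne
  have h2 : Tendsto (fun k : ℕ => ‖av p m ((k + 1) ^ 2) y‖ ^ 2) atTop (𝓝 0) := by
    have h3 := (ENNReal.tendsto_toReal ENNReal.zero_ne_top).comp h1
    simp only [ENNReal.toReal_zero] at h3
    refine h3.congr fun k => ?_
    simp only [Function.comp_apply]
    exact ENNReal.toReal_ofReal (by positivity)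
  rw [tendsto_zero_iff_norm_tendsto_zero]
  have h4 := (Real.continuous_sqrt.tendsto 0).comp h2
  rw [Real.sqrt_zero] at h4
  refine h4.congr fun k => ?_
  simp only [Function.comp_apply]
  exact Real.sqrt_sq (norm_nonneg _)

/-- the generic points -/
def Gd (p : ℕ) : Set T := {y | ∀ m : ℤ, m ≠ 0 → Tendsto (fun k : ℕ => av p m ((k + 1) ^ 2) y) atTop (𝓝 0)}

theorem Gd_null {p : ℕ} (hp : 2 ≤ p) : (volume : Measure T) (Gd p)ᶜ = 0 := by
  have h1 : ∀ᵐ y : T, ∀ m : ℤ, m ≠ 0 → Tendsto (fun k : ℕ => av p m ((k + 1) ^ 2) y) atTop (𝓝 0) := by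
    rw [ae_all_iff]
    intro m
    by_cases hm : m = 0
    · exact Eventually.of_forall fun y h => absurd hm h
    · filter_upwards [ae_av hp hm] with y hy _
      exact hy
  exact h1

theorem Gd_meas (p : ℕ) : MeasurableSet (Gd p) := by
  have e1 : Gd p = ⋂ m : ℤ, {y | m ≠ 0 → Tendsto (fun k : ℕ => av p m ((k + 1) ^ 2) y) atTop (𝓝 0)} := by
    ext y
    simp only [Gd, mem_ofPred_eq, mem_iInter]
  rw [e1]
  refine MeasurableSet.iInter fun m => ?_
  by_cases hm : m = 0
  · have e2 : {y : T | m ≠ 0 → Tendsto (fun k : ℕ => av p m ((k + 1) ^ 2) y) atTop (𝓝 0)} = univ := by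
      ext y
      simp [hm]
    rw [e2]
    exact MeasurableSet.univ
  · have e2 : {y : T | m ≠ 0 → Tendsto (fun k : ℕ => av p m ((k + 1) ^ 2) y) atTop (𝓝 0)} =
        {y : T | Tendsto (fun k : ℕ => av p m ((k + 1) ^ 2) y) atTop (𝓝 0)} := by
      ext y
      simp [hm]
    rw [e2]
    exact measurableSet_tendsto (𝓝 0) fun k => (cont_av p m _).measurable

/-- the averages at `p y` and at `y` are close -/
theorem av_shift (p : ℕ) (m : ℤ) (N : ℕ) (y : T) : ‖av p m N (p • y) - av p m N y‖ ≤ 2 / N := by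
  have h1 : ∀ n : ℕ, (fourier (m * (p : ℤ) ^ n) (p • y) : ℂ) = fourier (m * (p : ℤ) ^ (n + 1)) y := by
    intro n
    rw [fourier_smul, mul_assoc, ← pow_succ]
  have h2 : (∑ n ∈ Finset.range N, (fourier (m * (p : ℤ) ^ n) (p • y) : ℂ)) -
      ∑ n ∈ Finset.range N, (fourier (m * (p : ℤ) ^ n) y : ℂ) =
      fourier (m * (p : ℤ) ^ N) y - fourier (m * (p : ℤ) ^ 0) y := by
    simp only [h1]
    rw [← Finset.sum_sub_distrib]
    exact Finset.sum_range_sub (fun n => (fourier (m * (p : ℤ) ^ n) y : ℂ)) N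
  unfold av
  rw [← sub_div, h2, norm_div, Complex.norm_natCast]
  gcongr
  refine (norm_sub_le _ _).trans ?_
  rw [norm_ch, norm_ch]
  norm_num

theorem Gd_inv (p : ℕ) (y : T) : p • y ∈ Gd p ↔ y ∈ Gd p := by
  have hz : ∀ m : ℤ, Tendsto (fun k : ℕ => av p m ((k + 1) ^ 2) (p • y) - av p m ((k + 1) ^ 2) y) atTop (𝓝 0) := by
    intro m
    have h1 : Tendsto (fun k : ℕ => (2 : ℝ) / (((k + 1) ^ 2 : ℕ) : ℝ)) atTop (𝓝 0) := by
      have h2 : Tendsto (fun k : ℕ => (2 : ℝ) / (k : ℝ)) atTop (𝓝 0) := tendsto_const_div_atTop_nhds_zero_nat 2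
      have h3 : Tendsto (fun k : ℕ => (k + 1) ^ 2) atTop atTop := by
        refine tendsto_atTop_mono (fun k => ?_) tendsto_id
        show k ≤ (k + 1) ^ 2
        nlinarith
      exact h2.comp h3
    exact squeeze_zero_norm (fun k => av_shift p m _ y) h1
  constructor
  · intro h m hm
    have h1 := (h m hm).sub (hz m)
    rw [sub_zero] at h1
    refine h1.congr fun k => ?_
    ring
  · intro h m hm
    have h1 := (hz m).add (h m hm)
    rw [add_zero] at h1
    refine h1.congr fun k => ?_
    ring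

/-- Two finite measures with the same Fourier coefficients are equal. -/
theorem ext_fourier {ν κ : Measure T} [IsFiniteMeasure ν] [IsFiniteMeasure κ]
    (h : ∀ n : ℤ, ∫ x, fourier n x ∂ν = ∫ x, fourier n x ∂κ) : ν = κ := by
  have hbd : ∀ (ν : Measure T) [IsFiniteMeasure ν] (f : C(T, ℂ)), ‖∫ x, f x ∂ν‖ ≤ ‖f‖ * ν.real univ := by
    intro ν _ f
    exact norm_integral_le_of_norm_le_const (C := ‖f‖) (Eventually.of_forall fun x => f.norm_coe_le_norm x)
  have hspan : ∀ g ∈ Submodule.span ℂ (range (@fourier 1)), ∫ x, g x ∂ν = ∫ x, g x ∂κ := by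
    intro g hg
    induction hg using Submodule.span_induction with
    | mem g hg =>
      obtain ⟨n, rfl⟩ := hg
      exact h n
    | zero => simp
    | add f g _ _ hf hg =>
      simp only [ContinuousMap.add_apply]
      rw [integral_add (integrable_c ν f) (integrable_c ν g), integral_add (integrable_c _ f) (integrable_c _ g),
        hf, hg]
    | smul c f _ hf =>
      simp only [ContinuousMap.smul_apply, smul_eq_mul]
      rw [integral_const_mul, integral_const_mul, hf]
  have hall : ∀ f : C(T, ℂ), ∫ x, f x ∂ν = ∫ x, f x ∂κ := by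
    intro f
    have hf : f ∈ (Submodule.span ℂ (range (@fourier 1))).topologicalClosure := by
      rw [span_fourier_closure_eq_top]; trivial
    rw [← SetLike.mem_coe, Submodule.topologicalClosure_coe, Metric.mem_closure_iff] at hf
    rw [← sub_eq_zero, ← norm_eq_zero]
    refine le_antisymm (le_of_forall_pos_le_add fun δ hδ => ?_) (norm_nonneg _)
    set M : ℝ := ν.real univ + κ.real univ with hM
    have hM0 : 0 ≤ M := by positivity
    obtain ⟨g, hg, hfg⟩ := hf (δ / (M + 1)) (by positivity)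
    rw [dist_eq_norm] at hfg
    have e1 : ∫ x, f x ∂ν - ∫ x, f x ∂κ = ∫ x, (f - g) x ∂ν - ∫ x, (f - g) x ∂κ := by
      simp only [ContinuousMap.sub_apply]
      rw [integral_sub (integrable_c ν f) (integrable_c ν g), integral_sub (integrable_c _ f) (integrable_c _ g),
        hspan g hg]
      ring
    rw [e1]
    calc ‖∫ x, (f - g) x ∂ν - ∫ x, (f - g) x ∂κ‖
        ≤ ‖∫ x, (f - g) x ∂ν‖ + ‖∫ x, (f - g) x ∂κ‖ := norm_sub_le _ _
      _ ≤ ‖f - g‖ * ν.real univ + ‖f - g‖ * κ.real univ := add_le_add (hbd ν _) (hbd κ _)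
      _ = ‖f - g‖ * M := by rw [hM]; ring
      _ ≤ δ / (M + 1) * (M + 1) := by
          refine mul_le_mul hfg.le (by linarith) hM0 (by positivity)
      _ = 0 + δ := by field_simp; ring
  apply ext_of_forall_integral_eq_of_IsFiniteMeasure
  intro f
  have h1 := hall ⟨fun x => ((f x : ℝ) : ℂ), Complex.continuous_ofReal.comp f.continuous⟩
  simp only [ContinuousMap.coe_mk] at h1
  rw [integral_complex_ofReal, integral_complex_ofReal] at h1
  exact_mod_cast h1

/-- The part of an invariant measure on the generic points is a multiple of Lebesgue measure. -/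
theorem restrict_Gd {p : ℕ} (ν : Measure T) [IsFiniteMeasure ν]
    (hν : MeasurePreserving (fun x : T => p • x) ν ν) : ν.restrict (Gd p) = ν (Gd p) • volume := by
  have : IsFiniteMeasure (ν (Gd p) • (volume : Measure T)) := Measure.smul_finite _ (measure_ne_top _ _)
  refine ext_fourier fun m => ?_
  rw [integral_smul_measure, int_fourier]
  by_cases hm : m = 0
  · subst hm
    simp only [fourier_zero, integral_const, MeasurableSet.univ, measureReal_restrict_apply, univ_inter, if_true]
    simp [Measure.real]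
  · rw [if_neg hm, smul_zero]
    -- all the Fourier coefficients along the orbit agree
    have hres : MeasurePreserving (fun x : T => p • x) (ν.restrict (Gd p)) (ν.restrict (Gd p)) := by
      have h1 := hν.restrict_preimage (Gd_meas p)
      have e1 : (fun x : T => p • x) ⁻¹' Gd p = Gd p := by
        ext y
        exact Gd_inv p y
      rwa [e1] at h1
    have hn : ∀ n : ℕ, ∫ x, (fourier (m * (p : ℤ) ^ n) x : ℂ) ∂(ν.restrict (Gd p)) =
        ∫ x, (fourier m x : ℂ) ∂(ν.restrict (Gd p)) := by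
      intro n
      induction n with
      | zero => simp
      | succ n ih =>
        rw [← ih]
        have h2 : ∫ x, (fourier (m * (p : ℤ) ^ n) x : ℂ) ∂((ν.restrict (Gd p)).map (fun x : T => p • x)) =
            ∫ x, (fourier (m * (p : ℤ) ^ n) (p • x) : ℂ) ∂(ν.restrict (Gd p)) :=
          integral_map hres.measurable.aemeasurable (by
            exact (fourier (T := (1 : ℝ)) _).continuous.aestronglyMeasurable)
        rw [hres.map_eq] at h2
        rw [h2]
        refine integral_congr_ae (Eventually.of_forall fun x => ?_)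
        show (fourier (m * (p : ℤ) ^ (n + 1)) x : ℂ) = fourier (m * (p : ℤ) ^ n) (p • x)
        rw [fourier_smul, mul_assoc, ← pow_succ]
    have hav : ∀ k : ℕ, ∫ x, av p m ((k + 1) ^ 2) x ∂(ν.restrict (Gd p)) =
        ∫ x, (fourier m x : ℂ) ∂(ν.restrict (Gd p)) := by
      intro k
      unfold av
      rw [integral_div, integral_finsetSum _ (fun n _ => integrable_c _ _), Finset.sum_congr rfl (fun n _ => hn n),
        Finset.sum_const, Finset.card_range, nsmul_eq_mul, mul_div_cancel_left₀]
      exact_mod_cast (by positivity : (k + 1) ^ 2 ≠ 0)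
    have hlim : Tendsto (fun k : ℕ => ∫ x, av p m ((k + 1) ^ 2) x ∂(ν.restrict (Gd p))) atTop
        (𝓝 (∫ _x : T, (0 : ℂ) ∂(ν.restrict (Gd p)))) := by
      refine tendsto_integral_of_dominated_convergence (fun _ => (1 : ℝ))
        (fun k => (cont_av p m _).aestronglyMeasurable) (integrable_const _)
        (fun k => Eventually.of_forall fun x => ?_) ?_
      · unfold av
        rw [norm_div, Complex.norm_natCast]
        have h3 : (0 : ℝ) < (((k + 1) ^ 2 : ℕ) : ℝ) := by positivity
        rw [div_le_one h3]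
        refine (norm_sum_le _ _).trans ?_
        simp only [norm_ch, Finset.sum_const, Finset.card_range, nsmul_eq_mul, mul_one, le_refl]
      · filter_upwards [ae_restrict_mem (Gd_meas p)] with x hx
        exact hx m hm
    simp only [hav, integral_zero] at hlim
    exact tendsto_nhds_unique tendsto_const_nhds hlim

end Pool.Agent.RSet
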