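import Pool.Agent.RSet.TraA
import Pool.Agent.RSet.TraB

/-!
# Translates of invariant measures
-/

set_option autoImplicit false

open MeasureTheory Filter Topology Set
open scoped ENNReal NNReal BoundedContinuousFunction

namespace Pool.Agent.RSet

open Pool.Agent.NSet

/-- Almost every translate of `μ` is carried by the generic points. -/
theorem ae_trans_Gd {p : ℕ} (hp : 2 ≤ p) (μ : Measure T) [IsFiniteMeasure μ] :
    ∀ᵐ t : T, (μ.map (fun x => t + x)) (Gd p)ᶜ = 0 := by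
  have hm : MeasurableSet {z : T × T | z.1 + z.2 ∈ (Gd p)ᶜ} :=
    (measurable_fst.add measurable_snd) (Gd_meas p).compl
  have h1 : ((volume : Measure T).prod μ) {z : T × T | z.1 + z.2 ∈ (Gd p)ᶜ} = 0 := by
    rw [Measure.prod_apply_symm hm]
    have e1 : ∀ x : T, (volume : Measure T) ((fun t : T => (t, x)) ⁻¹' {z : T × T | z.1 + z.2 ∈ (Gd p)ᶜ}) = 0 := by
      intro x
      have h2 : (volume : Measure T) ((fun t : T => t + x) ⁻¹' (Gd p)ᶜ) = 0 := by
        rw [measure_preimage_add_right]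
        exact Gd_null hp
      exact h2
    simp only [e1, lintegral_zero]
  rw [Measure.measure_prod_null hm] at h1
  filter_upwards [h1] with t ht
  rw [Measure.map_apply (by fun_prop) (Gd_meas p).compl]
  exact ht

theorem Ov_ne {p : ℕ} (hp : 2 ≤ p) (μ : Measure T) [IsFiniteMeasure μ] (hs : μ ⟂ₘ volume) {c : ℝ≥0} (hc : c ≠ 0) :
    Ov μ (Inv p) c ≠ univ := by
  intro hu
  obtain ⟨t, ht⟩ : ∃ t : T, (μ.map (fun x => t + x)) (Gd p)ᶜ = 0 := (ae_trans_Gd hp μ).exists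
  obtain ⟨ν, hν, κ, h1, h2⟩ : t ∈ Ov μ (Inv p) c := hu ▸ mem_univ t
  have hz : ∀ (β : Measure T) (s : Set T), c • (κ : Measure T) ≤ β → β s = 0 → (κ : Measure T) s = 0 := by
    intro β s hβ hs0
    have h3 := hβ s
    rw [hs0, Measure.smul_apply, ENNReal.smul_def, smul_eq_mul] at h3
    have h4 := le_antisymm h3 bot_le
    rcases mul_eq_zero.1 h4 with h5 | h5
    · exact absurd (ENNReal.coe_eq_zero.1 h5) hc
    · exact h5
  have hκG : (κ : Measure T) (Gd p)ᶜ = 0 := hz _ _ h1 ht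
  have hac : ∀ s : Set T, (volume : Measure T) s = 0 → (κ : Measure T) s = 0 := by
    intro s hs0
    have h3 : (ν : Measure T) (s ∩ Gd p) = 0 := by
      rw [← Measure.restrict_apply' (Gd_meas p), restrict_Gd (ν : Measure T) hν, Measure.smul_apply, hs0,
        smul_zero]
    have h4 : (κ : Measure T) (s ∩ Gd p) = 0 := hz _ _ h2 h3
    refine measure_mono_null (fun x hx => ?_) (measure_union_null h4 hκG)
    by_cases hxG : x ∈ Gd p
    · exact Or.inl ⟨hx, hxG⟩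
    · exact Or.inr hxG
  obtain ⟨Z, hZ, hZ1, hZ2⟩ := hs
  have hκW : (κ : Measure T) ((fun y : T => -t + y) ⁻¹' Z) = 0 := by
    refine hz _ _ h1 ?_
    rw [Measure.map_apply (by fun_prop) (hZ.preimage (by fun_prop))]
    have e1 : (fun x : T => t + x) ⁻¹' ((fun y : T => -t + y) ⁻¹' Z) = Z := by
      ext x
      simp
    rw [e1]
    exact hZ1
  have hκW' : (κ : Measure T) ((fun y : T => -t + y) ⁻¹' Zᶜ) = 0 := by
    refine hac _ ?_
    rw [measure_preimage_add]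
    exact hZ2
  have h5 : (κ : Measure T) univ = 0 := by
    refine measure_mono_null (fun x _ => ?_) (measure_union_null hκW hκW')
    by_cases hx : -t + x ∈ Z
    · exact Or.inl hx
    · exact Or.inr hx
  rw [measure_univ] at h5
  exact one_ne_zero h5

/-- from a finite measure to a probability measure -/
theorem ex_prob {ξ : Measure T} [IsFiniteMeasure ξ] {c : ℝ≥0} (hc : c ≠ 0) (h : (c : ℝ≥0∞) ≤ ξ univ) :
    ∃ κ : ProbabilityMeasure T, c • (κ : Measure T) ≤ ξ := by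
  have h0 : ξ univ ≠ 0 := by
    intro h1
    rw [h1] at h
    exact hc (ENNReal.coe_eq_zero.1 (le_antisymm h bot_le))
  have hne : NeZero ξ := ⟨fun h1 => h0 (by rw [h1]; rfl)⟩
  refine ⟨⟨(ξ univ)⁻¹ • ξ, isProbabilityMeasureSMul⟩, ?_⟩
  show c • ((ξ univ)⁻¹ • ξ) ≤ ξ
  refine Measure.le_iff'.2 fun s => ?_
  rw [Measure.smul_apply, Measure.smul_apply, ENNReal.smul_def, smul_eq_mul, smul_eq_mul, ← mul_assoc]
  have h2 : (c : ℝ≥0∞) * (ξ univ)⁻¹ ≤ 1 := by
    calc (c : ℝ≥0∞) * (ξ univ)⁻¹ ≤ ξ univ * (ξ univ)⁻¹ := mul_le_mul_left h _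
      _ = 1 := ENNReal.mul_inv_cancel h0 (measure_ne_top _ _)
  calc (c : ℝ≥0∞) * (ξ univ)⁻¹ * ξ s ≤ 1 * ξ s := mul_le_mul_left h2 _
    _ = ξ s := one_mul _

theorem ex_overlap {α β : Measure T} [IsFiniteMeasure α] [IsFiniteMeasure β] (h : ¬ α ⟂ₘ β) :
    ∃ k : ℕ, ∃ κ : ProbabilityMeasure T, ((k : ℝ≥0) + 1)⁻¹ • (κ : Measure T) ≤ α ∧
      ((k : ℝ≥0) + 1)⁻¹ • (κ : Measure T) ≤ β := by
  rw [Measure.mutuallySingular_iff_disjoint, Disjoint] at h
  push Not at h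
  obtain ⟨ξ, h1, h2, h3⟩ := h
  have hfin : IsFiniteMeasure ξ := ⟨(h1 univ).trans_lt (measure_lt_top _ _)⟩
  have h0 : ξ univ ≠ 0 := by
    intro h4
    refine h3 ?_
    rw [Measure.measure_univ_eq_zero.1 h4]
    exact bot_le
  obtain ⟨k, hk⟩ := ENNReal.exists_inv_nat_lt h0
  have h5 : ((((k : ℝ≥0) + 1)⁻¹ : ℝ≥0) : ℝ≥0∞) ≤ ξ univ := by
    rw [ENNReal.coe_inv (by positivity)]
    refine le_trans (ENNReal.inv_le_inv.2 ?_) hk.le
    push_cast
    exact le_self_add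
  obtain ⟨κ, hκ⟩ := ex_prob (by positivity) h5
  exact ⟨k, κ, hκ.trans h1, hκ.trans h2⟩

end Pool.Agent.RSet
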