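import Pool.Agent.RSet.Fib
import Pool.Agent.RSet.Pi
import Pool.Agent.RSet.TraC

/-!
# Points with a dense orbit

If the orbit of `t` under `×p` is dense, then no closed proper set invariant under `×p` contains `t`. Applied to sets of the
form `{t | c ≤ μ {x | (x, t) ∈ E}}` and `Ov μ I c` this gives statements for all probability preserving systems at once.
-/

set_option autoImplicit false

open MeasureTheory Filter Topology Set
open scoped ENNReal NNReal

namespace Pool.Agent.RSet

open Pool.Agent.NSet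

variable {X : Type} [MeasurableSpace X]

theorem not_mem_of_dense {p : ℕ} {D : Set T} (hD : IsClosed D) (hne : D ≠ univ) (hinv : ∀ t ∈ D, p • t ∈ D)
    {t : T} (ht : Dense (range fun n : ℕ => p ^ n • t)) : t ∉ D := by
  intro htD
  apply hne
  have h1 : range (fun n : ℕ => p ^ n • t) ⊆ D := by
    rintro _ ⟨n, rfl⟩
    induction n with
    | zero => simpa using htD
    | succ n ih =>
      have h2 := hinv _ ih
      rwa [← mul_smul, ← pow_succ'] at h2
  exact eq_univ_of_univ_subset (ht.closure_eq ▸ hD.closure_subset_iff.2 h1)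

theorem det_random {p : ℕ} {t : T} (ht : Dense (range fun n : ℕ => p ^ n • t)) (μ : Measure X)
    [IsFiniteMeasure μ] {S : X → X} (hS : MeasurePreserving S μ μ) {E : Set (X × T)} (hE : MeasurableSet E)
    (hcl : ∀ x, IsClosed {t | (x, t) ∈ E}) (hpE : ∀ z ∈ E, (S z.1, p • z.2) ∈ E)
    (h0 : (μ.prod volume) E = 0) : μ {x | (x, t) ∈ E} = 0 := by
  by_contra hne
  exact not_mem_of_dense (closed_level μ hE hcl (μ {x | (x, t) ∈ E})) (level_ne μ hE h0 hne)
    (inv_level μ hS hE hpE _) ht (by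
      show μ {x | (x, t) ∈ E} ≤ μ {x | (x, t) ∈ E}
      exact le_rfl)

/-- For `t` with a dense orbit and almost every `x`: `t` is in the section only if the section is everything. -/
theorem det_random' {p : ℕ} (hp : 2 ≤ p) {t : T} (ht : Dense (range fun n : ℕ => p ^ n • t)) (μ : Measure X)
    [IsFiniteMeasure μ] {S : X → X} (hS : MeasurePreserving S μ μ) {E : Set (X × T)} (hE : MeasurableSet E)
    (hcl : ∀ x, IsClosed {t | (x, t) ∈ E}) (hpE : ∀ z ∈ E, (S z.1, p • z.2) ∈ E) :
    ∀ᵐ x ∂μ, (x, t) ∈ E → {s | (x, s) ∈ E} = univ := by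
  set f : X → ℝ≥0∞ := fun x => (volume : Measure T) {s | (x, s) ∈ E} with hf
  have hfm : Measurable f := measurable_measure_prodMk_left hE
  set N₀ : Set X := {x | ∀ n : ℕ, f (S^[n] x) = 0} with hN₀
  have hNm : MeasurableSet N₀ := by
    have e1 : N₀ = ⋂ n : ℕ, {x | f (S^[n] x) = 0} := by
      ext x
      simp only [hN₀, mem_ofPred_eq, mem_iInter]
    rw [e1]
    exact MeasurableSet.iInter fun n => (hfm.comp (hS.measurable.iterate n)) (measurableSet_singleton 0)
  set E' : Set (X × T) := E ∩ Prod.fst ⁻¹' N₀ with hE'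
  have hE'm : MeasurableSet E' := hE.inter (measurable_fst hNm)
  have hE'cl : ∀ x, IsClosed {s | (x, s) ∈ E'} := by
    intro x
    by_cases hx : x ∈ N₀
    · have e1 : {s | (x, s) ∈ E'} = {s | (x, s) ∈ E} := by
        ext s
        exact ⟨fun h => h.1, fun h => ⟨h, hx⟩⟩
      rw [e1]
      exact hcl x
    · have e1 : {s : T | (x, s) ∈ E'} = ∅ := by
        ext s
        exact ⟨fun h => absurd h.2 hx, fun h => absurd h (notMem_empty s)⟩
      rw [e1]
      exact isClosed_empty
  have hE'p : ∀ z ∈ E', (S z.1, p • z.2) ∈ E' := by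
    rintro z ⟨hz1, hz2⟩
    refine ⟨hpE z hz1, fun n => ?_⟩
    have h1 : f (S^[n + 1] z.1) = 0 := hz2 (n + 1)
    rwa [Function.iterate_succ_apply] at h1
  have h0 : (μ.prod volume) E' = 0 := by
    rw [Measure.measure_prod_null hE'm]
    refine Eventually.of_forall fun x => ?_
    by_cases hx : x ∈ N₀
    · refine measure_mono_null (fun s hs => ?_) (hx 0)
      exact hs.1
    · refine measure_mono_null (t := ∅) (fun s hs => ?_) measure_empty
      exact absurd hs.2 hx
  have h1 := det_random ht μ hS hE'm hE'cl hE'p h0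
  have hae := ae_null_or_univ hp μ hS hE hcl hpE
  have hall : ∀ᵐ x ∂μ, ∀ n : ℕ, f (S^[n] x) = 0 ∨ {s | (S^[n] x, s) ∈ E} = univ :=
    ae_all_iff.2 fun n => (hS.iterate n).quasiMeasurePreserving.ae hae
  -- the function `f` is invariant almost everywhere
  have hle : ∀ x, f x ≤ f (S x) := by
    intro x
    have h1 : f (S x) = (volume : Measure T) ((fun t : T => p • t) ⁻¹' {t | (S x, t) ∈ E}) :=
      ((mp_nsmul hp).measure_preimage (hcl (S x)).measurableSet.nullMeasurableSet).symm
    rw [h1]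
    exact measure_mono fun t ht => hpE (x, t) ht
  have hbd : ∀ x, f x ≤ 1 := by
    intro x
    refine (measure_mono (subset_univ _)).trans ?_
    rw [AddCircle.measure_univ, ENNReal.ofReal_one]
  have haf : f =ᵐ[μ] fun x => f (S x) := by
    refine ae_eq_of_ae_le_of_lintegral_le (Eventually.of_forall hle) ?_ (hfm.comp hS.measurable).aemeasurable ?_
    · refine ne_top_of_le_ne_top (b := ∫⁻ _x, 1 ∂μ) ?_ (lintegral_mono hbd)
      rw [lintegral_const, one_mul]
      exact measure_ne_top _ _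
    · rw [hS.lintegral_comp hfm]
  have hfall : ∀ᵐ x ∂μ, ∀ n : ℕ, f (S^[n] x) = f (S^[n + 1] x) := by
    refine ae_all_iff.2 fun n => ?_
    have h1 := (hS.iterate n).quasiMeasurePreserving.ae haf
    filter_upwards [h1] with x hx
    rw [Function.iterate_succ_apply']
    exact hx
  filter_upwards [measure_eq_zero_iff_ae_notMem.1 h1, hae, hfall] with x hx1 hx2 hx3 hxE
  rcases hx2 with h2 | h2
  · exfalso
    apply hx1
    refine ⟨hxE, fun n => ?_⟩
    show f (S^[n] x) = 0
    induction n with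
    | zero => exact h2
    | succ n ih => rw [← hx3 n, ih]
  · exact h2

/-- Return times, for every `t` with a dense orbit. -/
theorem det_return {p : ℕ} (hp : 2 ≤ p) {t : T} (ht : Dense (range fun n : ℕ => p ^ n • t)) (μ : Measure X)
    [IsFiniteMeasure μ] {S : X → X} (hS : MeasurePreserving S μ μ) {B : Set X} (hB : MeasurableSet B) :
    ∀ᵐ x ∂μ, (∃ k : ℕ, S^[k] x ∈ B) → Dense {y : T | ∃ n : ℕ, S^[n] x ∈ B ∧ y = p ^ n • t} := by
  have key : ∀ J ∈ TopologicalSpace.countableBasis T, ∀ᵐ x ∂μ, x ∈ Io S B → J.Nonempty →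
      ∃ n : ℕ, S^[n] x ∈ B ∧ p ^ n • t ∈ J := by
    intro J hJ
    by_cases hJ0 : J.Nonempty
    · have hJo : IsOpen J := TopologicalSpace.isOpen_of_mem_countableBasis hJ
      have h1 := det_random ht μ hS (RE_meas p hS.measurable hB hJo) (RE_closed p S B hJo) (RE_inv p S B J)
        (RE_null hp μ hS.measurable hB hJo hJ0)
      filter_upwards [measure_eq_zero_iff_ae_notMem.1 h1] with x hx hxi _
      by_contra hcon
      push Not at hcon
      exact hx ⟨hxi, hcon⟩
    · exact Eventually.of_forall fun x _ hx => absurd hx hJ0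
  have h1 := (ae_ball_iff (TopologicalSpace.countable_countableBasis T)).2 key
  filter_upwards [h1, ae_Io hS hB] with x hx hxi hk
  rw [(TopologicalSpace.isBasis_countableBasis T).dense_iff]
  intro J hJ hJ0
  obtain ⟨n, hn, hnJ⟩ := hx J hJ (hxi hk) hJ0
  exact ⟨p ^ n • t, hnJ, n, hn, rfl⟩

/-- If almost every orbit of `S` is dense, then for every `t` with a dense orbit the orbit of `(x, t)` is dense for
almost every `x`. -/
theorem det_prod {p : ℕ} (hp : 2 ≤ p) [TopologicalSpace X] [SecondCountableTopology X] [OpensMeasurableSpace X]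
    {t : T} (ht : Dense (range fun n : ℕ => p ^ n • t)) (μ : Measure X) [IsFiniteMeasure μ] {S : X → X}
    (hS : MeasurePreserving S μ μ) (hd : ∀ᵐ x ∂μ, Dense (range fun n : ℕ => S^[n] x)) :
    ∀ᵐ x ∂μ, Dense (range fun n : ℕ => (S^[n] x, p ^ n • t)) := by
  have h1 : ∀ᵐ x ∂μ, ∀ U ∈ TopologicalSpace.countableBasis X, (∃ k : ℕ, S^[k] x ∈ U) →
      Dense {y : T | ∃ n : ℕ, S^[n] x ∈ U ∧ y = p ^ n • t} :=
    (ae_ball_iff (TopologicalSpace.countable_countableBasis X)).2 fun U hU =>
      det_return hp ht μ hS (TopologicalSpace.isOpen_of_mem_countableBasis hU).measurableSet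
  filter_upwards [h1, hd] with x hx1 hx2
  rw [dense_iff_inter_open]
  intro W hW hW0
  obtain ⟨⟨x₀, t₀⟩, hxt⟩ := hW0
  obtain ⟨U, V, hU, hV, hxU, htV, hUV⟩ := isOpen_prod_iff.1 hW x₀ t₀ hxt
  obtain ⟨U', hU', hxU', hUU'⟩ := (TopologicalSpace.isBasis_countableBasis X).exists_subset_of_mem_open hxU hU
  obtain ⟨y, hy, k, hk⟩ := hx2.inter_open_nonempty U' (TopologicalSpace.isOpen_of_mem_countableBasis hU') ⟨x₀, hxU'⟩
  have h3 := hx1 U' hU' ⟨k, by
    have : S^[k] x = y := hk
    rw [this]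
    exact hy⟩
  obtain ⟨w, hw, n, hn, hwn⟩ := h3.inter_open_nonempty V hV ⟨t₀, htV⟩
  exact ⟨(S^[n] x, p ^ n • t), hUV ⟨hUU' hn, by rw [← hwn]; exact hw⟩, n, rfl⟩

/-- Independent samples, with one more point `t`. -/
theorem det_pi {p q : ℕ} (h : MI p q) {t : T} (ht : Dense (range fun n : ℕ => p ^ n • t)) (d : ℕ)
    (ρ : Fin d → Measure T) [∀ i, IsFiniteMeasure (ρ i)]
    (hp : ∀ i, MeasurePreserving (fun x : T => p • x) (ρ i) (ρ i))
    (hq : ∀ i, MeasurePreserving (fun x : T => q • x) (ρ i) (ρ i)) (hat : ∀ i x, ρ i {x} = 0) :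
    ∀ᵐ x ∂(Measure.pi ρ), Dense (range fun n : ℕ => ((fun i => p ^ n • x i : Fin d → T), p ^ n • t)) := by
  have h1 := pi_dense h d ρ hp hq hat
  have hS : MeasurePreserving (fun (x : Fin d → T) => fun i => p • x i) (Measure.pi ρ) (Measure.pi ρ) :=
    measurePreserving_pi _ _ fun j => hp _
  have hit : ∀ (n : ℕ) (x : Fin d → T), (fun (x : Fin d → T) => fun i => p • x i)^[n] x =
      fun i => p ^ n • x i := by
    intro n x
    have e1 : (fun (x : Fin d → T) => fun i => p • x i) = fun x : Fin d → T => p • x := rfl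
    rw [e1, smul_iterate]
    rfl
  have h2 := det_prod h.1 ht (Measure.pi ρ) hS (by
    filter_upwards [h1] with x hx
    simpa only [hit] using hx)
  filter_upwards [h2] with x hx
  simpa only [hit] using hx

/-- Sums. -/
theorem det_add {p : ℕ} (hp : 2 ≤ p) {t : T} (ht : Dense (range fun n : ℕ => p ^ n • t)) (μ : Measure T)
    [IsFiniteMeasure μ] (hμ : MeasurePreserving (fun x : T => p • x) μ μ) :
    ∀ᵐ x ∂μ, Dense (range fun n : ℕ => p ^ n • (x + t)) := by
  have key : ∀ J ∈ TopologicalSpace.countableBasis T, ∀ᵐ x ∂μ, J.Nonempty → ∃ n : ℕ, p ^ n • (x + t) ∈ J := by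
    intro J hJ
    by_cases hJ0 : J.Nonempty
    · have hJo : IsOpen J := TopologicalSpace.isOpen_of_mem_countableBasis hJ
      set E : Set (T × T) := {z | ∀ n : ℕ, p ^ n • (z.1 + z.2) ∉ J} with hE
      have hEc : IsClosed E := by
        have e1 : E = ⋂ n : ℕ, (fun z : T × T => p ^ n • (z.1 + z.2)) ⁻¹' Jᶜ := by
          ext z
          simp [hE]
        rw [e1]
        exact isClosed_iInter fun n => hJo.isClosed_compl.preimage (by fun_prop)
      have hEcl : ∀ x, IsClosed {t | (x, t) ∈ E} := fun x =>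
        hEc.preimage (f := fun t : T => (x, t)) (by fun_prop)
      have hpE : ∀ z ∈ E, (p • z.1, p • z.2) ∈ E := by
        rintro z hz n
        have h1 := hz (n + 1)
        rw [pow_succ, mul_smul, smul_add] at h1
        exact h1
      have h0 : (μ.prod volume) E = 0 := by
        rw [Measure.prod_apply hEc.measurableSet]
        have e1 : ∀ x, (volume : Measure T) (Prod.mk x ⁻¹' E) = 0 := by
          intro x
          have h2 := mix_null hp (A := univ) infinite_univ hJo hJ0
          have h3 : (volume : Measure T) ((fun t : T => x + t) ⁻¹' {t : T | ∀ n ∈ (univ : Set ℕ), p ^ n • t ∉ J}) = 0 := by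
            rw [measure_preimage_add]
            exact h2
          refine measure_mono_null (fun t ht => ?_) h3
          exact fun n _ => ht n
        simp only [e1, lintegral_zero]
      have h1 := det_random ht μ hμ hEc.measurableSet hEcl hpE h0
      filter_upwards [measure_eq_zero_iff_ae_notMem.1 h1] with x hx _
      by_contra hcon
      push Not at hcon
      exact hx hcon
    · exact Eventually.of_forall fun x hx => absurd hx hJ0
  have h1 := (ae_ball_iff (TopologicalSpace.countable_countableBasis T)).2 key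
  filter_upwards [h1] with x hx
  rw [(TopologicalSpace.isBasis_countableBasis T).dense_iff]
  intro J hJ hJ0
  obtain ⟨n, hn⟩ := hx J hJ hJ0
  exact ⟨p ^ n • (x + t), hn, n, rfl⟩

/-- Translates. -/
theorem det_trans {p : ℕ} (hp : 2 ≤ p) {t : T} (ht : Dense (range fun n : ℕ => p ^ n • t)) (μ : Measure T)
    [IsFiniteMeasure μ] (hμ : MeasurePreserving (fun x : T => p • x) μ μ) (hs : μ ⟂ₘ volume) (ν : Measure T)
    [IsProbabilityMeasure ν] (hν : MeasurePreserving (fun x : T => p • x) ν ν) :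
    μ.map (fun x => t + x) ⟂ₘ ν := by
  by_contra hcon
  obtain ⟨k, κ, h2, h3⟩ := ex_overlap hcon
  exact not_mem_of_dense (closed_Ov μ (closed_inv p) _) (Ov_ne hp μ hs (c := ((k : ℝ≥0) + 1)⁻¹) (by positivity))
    (inv_Ov hμ (fun ν hν => map_Inv p hν) _) ht ⟨⟨ν, inferInstance⟩, hν, κ, h2, h3⟩

theorem mem_Ov_iff {p : ℕ} {μ : Measure T} {c : ℝ≥0} (hc : c ≠ 0) (t : T) : t ∈ Ov μ (Inv p) c ↔
    ∃ ν κ : Measure T, IsProbabilityMeasure ν ∧ MeasurePreserving (fun x : T => p • x) ν ν ∧
      κ ≤ μ.map (fun x => t + x) ∧ κ ≤ ν ∧ (c : ℝ≥0∞) ≤ κ univ := by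
  constructor
  · rintro ⟨ν, hν, κ, h1, h2⟩
    refine ⟨ν, c • (κ : Measure T), inferInstance, hν, h1, h2, ?_⟩
    rw [Measure.smul_apply, measure_univ, ENNReal.smul_def, smul_eq_mul, mul_one]
  · rintro ⟨ν, κ, hν, hνp, h1, h2, h3⟩
    have hfin : IsFiniteMeasure κ := ⟨(h2 univ).trans_lt (measure_lt_top _ _)⟩
    obtain ⟨κ', hκ'⟩ := ex_prob hc h3
    exact ⟨⟨ν, hν⟩, hνp, κ', hκ'.trans h1, hκ'.trans h2⟩

/-- A closed proper set which is invariant under both maps consists of points of bounded order. -/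
theorem bounded_order {p q : ℕ} (h : MI p q) {D : Set T} (hD : IsClosed D) (hne : D ≠ univ)
    (hinv : ∀ t ∈ D, p • t ∈ D) (hinq : ∀ t ∈ D, q • t ∈ D) : ∃ m : ℕ, 0 < m ∧ ∀ t ∈ D, m • t = 0 := by
  obtain ⟨N, Q, hN, hQ, hy⟩ := uniform h hD hne hinv (ε := 1 / 2) (by norm_num)
  have hq : 2 ≤ q := h.2.1
  refine ⟨Q * q ^ N, by positivity, fun t ht => ?_⟩
  by_contra hne
  have h1 := hy t hne
  have hall : ∀ n : ℕ, q ^ n • t ∈ D := by
    intro n
    induction n with
    | zero => simpa using ht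
    | succ n ih =>
      have h2 := hinq _ ih
      rwa [← mul_smul, ← pow_succ'] at h2
  have h2 : cnt {n | q ^ n • t ∈ D} N = N := by
    classical
    have h4 : {n | q ^ n • t ∈ D} = univ := eq_univ_of_forall hall
    rw [h4]
    unfold cnt
    simp
  rw [h2] at h1
  have h3 : (0 : ℝ) < N := by exact_mod_cast hN
  linarith

/-- Random closed sets which are mapped into themselves by both maps. -/
theorem random_both {p q : ℕ} (h : MI p q) (μ : Measure X) [IsFiniteMeasure μ] {S S' : X → X}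
    (hS : MeasurePreserving S μ μ) (hS' : MeasurePreserving S' μ μ) {E : Set (X × T)} (hE : MeasurableSet E)
    (hcl : ∀ x, IsClosed {t | (x, t) ∈ E}) (hpE : ∀ z ∈ E, (S z.1, p • z.2) ∈ E)
    (hqE : ∀ z ∈ E, (S' z.1, q • z.2) ∈ E) (h0 : (μ.prod volume) E = 0) {c : ℝ≥0∞} (hc : c ≠ 0) :
    ∃ m : ℕ, 0 < m ∧ ∀ t : T, c ≤ μ {x | (x, t) ∈ E} → m • t = 0 :=
  bounded_order h (closed_level μ hE hcl c) (level_ne μ hE h0 hc) (inv_level μ hS hE hpE c)
    (inv_level μ hS' hE hqE c)

/-- Invariant sets of the product system have full support in the direction of the circle. -/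
theorem comp_support {p q : ℕ} (h : MI p q) (μ : Measure X) [IsFiniteMeasure μ] {S : X → X}
    (hS : MeasurePreserving S μ μ) (ρ : Measure T) [IsFiniteMeasure ρ]
    (hρp : MeasurePreserving (fun x : T => p • x) ρ ρ)
    (hρ : MeasurePreserving (fun x : T => q • x) ρ ρ) (hat : ∀ x, ρ {x} = 0) {A : Set (X × T)}
    (hinv : (fun z : X × T => (S z.1, p • z.2)) ⁻¹' A = A) {B : Set X}
    (hB : MeasurableSet B) (hAB : (μ.prod ρ) (A ∩ B ×ˢ univ) ≠ 0) {J : Set T} (hJ : IsOpen J) (hJ0 : J.Nonempty) :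
    (μ.prod ρ) (A ∩ B ×ˢ J) ≠ 0 := by
  intro h0
  apply hAB
  have hR : MeasurePreserving (fun z : X × T => (S z.1, p • z.2)) (μ.prod ρ) (μ.prod ρ) := hS.prod hρp
  have hit : ∀ (n : ℕ) (z : X × T), (fun z : X × T => (S z.1, p • z.2))^[n] z = (S^[n] z.1, p ^ n • z.2) := by
    intro n z
    induction n with
    | zero => simp
    | succ n ih =>
      rw [Function.iterate_succ_apply', ih, Function.iterate_succ_apply', pow_succ', mul_smul]
  have hinvn : ∀ n : ℕ, ∀ z : X × T, z ∈ A → (S^[n] z.1, p ^ n • z.2) ∈ A := by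
    intro n z hz
    rw [← hit]
    induction n with
    | zero => simpa using hz
    | succ n ih =>
      rw [Function.iterate_succ_apply']
      rw [← hinv] at ih
      exact ih
  have h1 : ∀ᵐ z ∂(μ.prod ρ), ∀ n : ℕ, (S^[n] z.1, p ^ n • z.2) ∉ A ∩ B ×ˢ J := by
    refine ae_all_iff.2 fun n => ?_
    have h2 := (hR.iterate n).quasiMeasurePreserving.ae (measure_eq_zero_iff_ae_notMem.1 h0)
    filter_upwards [h2] with z hz
    rwa [hit] at hz
  have h3 := return_dense h μ hS ρ hρ hat hB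
  rw [measure_eq_zero_iff_ae_notMem]
  filter_upwards [h1, h3] with z hz1 hz3 hzA
  obtain ⟨y, hy, n, hn, hyn⟩ := (hz3 ⟨0, hzA.2.1⟩).inter_open_nonempty J hJ hJ0
  exact hz1 n ⟨hinvn n z hzA.1, hn, by
    show p ^ n • z.2 ∈ J
    rw [← hyn]
    exact hy⟩

/-- The sections of an invariant set are null or charge all open sets. -/
theorem comp_support' {p q : ℕ} (h : MI p q) (μ : Measure X) [IsFiniteMeasure μ] {S : X → X}
    (hS : MeasurePreserving S μ μ) (ρ : Measure T) [IsFiniteMeasure ρ]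
    (hρp : MeasurePreserving (fun x : T => p • x) ρ ρ)
    (hρ : MeasurePreserving (fun x : T => q • x) ρ ρ) (hat : ∀ x, ρ {x} = 0) {A : Set (X × T)}
    (hA : MeasurableSet A) (hinv : (fun z : X × T => (S z.1, p • z.2)) ⁻¹' A = A) :
    ∀ᵐ x ∂μ, ρ {t | (x, t) ∈ A} ≠ 0 → ∀ J : Set T, IsOpen J → J.Nonempty → ρ ({t | (x, t) ∈ A} ∩ J) ≠ 0 := by
  have key : ∀ J ∈ TopologicalSpace.countableBasis T, ∀ᵐ x ∂μ, ρ {t | (x, t) ∈ A} ≠ 0 → J.Nonempty →
      ρ ({t | (x, t) ∈ A} ∩ J) ≠ 0 := by
    intro J hJ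
    by_cases hJ0 : J.Nonempty
    · have hJo : IsOpen J := TopologicalSpace.isOpen_of_mem_countableBasis hJ
      have hAJ : MeasurableSet (A ∩ univ ×ˢ J) := hA.inter (MeasurableSet.univ.prod hJo.measurableSet)
      set B : Set X := {x | ρ {t | (x, t) ∈ A} ≠ 0 ∧ ρ ({t | (x, t) ∈ A} ∩ J) = 0} with hB
      have hsec : ∀ x, Prod.mk x ⁻¹' (A ∩ univ ×ˢ J) = {t | (x, t) ∈ A} ∩ J := by
        intro x
        ext t
        simp
      have hBm : MeasurableSet B := by
        have e1 : B = (fun x => ρ (Prod.mk x ⁻¹' A)) ⁻¹' {0}ᶜ ∩ (fun x => ρ (Prod.mk x ⁻¹' (A ∩ univ ×ˢ J))) ⁻¹' {0} := by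
          ext x
          simp only [mem_inter_iff, mem_preimage, mem_compl_iff, mem_singleton_iff, hsec]
          exact Iff.rfl
        rw [e1]
        exact ((measurable_measure_prodMk_left hA) (measurableSet_singleton 0).compl).inter
          ((measurable_measure_prodMk_left hAJ) (measurableSet_singleton 0))
      have h1 : (μ.prod ρ) (A ∩ B ×ˢ J) = 0 := by
        rw [Measure.measure_prod_null (hA.inter (hBm.prod hJo.measurableSet))]
        refine Eventually.of_forall fun x => ?_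
        by_cases hx : x ∈ B
        · refine measure_mono_null (fun t ht => ?_) hx.2
          exact ⟨ht.1, ht.2.2⟩
        · refine measure_mono_null (t := ∅) (fun t ht => ?_) measure_empty
          exact absurd ht.2.1 hx
      have h2 : (μ.prod ρ) (A ∩ B ×ˢ univ) = 0 := by
        by_contra hne
        exact comp_support h μ hS ρ hρp hρ hat hinv hBm hne hJo hJ0 h1
      rw [Measure.measure_prod_null (hA.inter (hBm.prod MeasurableSet.univ))] at h2
      filter_upwards [h2] with x hx hx0 _ hxJ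
      have hxB : x ∈ B := ⟨hx0, hxJ⟩
      apply hx0
      refine measure_mono_null (fun t ht => ?_) hx
      exact ⟨ht, hxB, mem_univ t⟩
    · exact Eventually.of_forall fun x _ hJ1 => absurd hJ1 hJ0
  have h1 := (ae_ball_iff (TopologicalSpace.countable_countableBasis T)).2 key
  filter_upwards [h1] with x hx hx0 J hJ hJ0
  obtain ⟨a, ha⟩ := hJ0
  obtain ⟨J', hJ', haJ', hJJ'⟩ := (TopologicalSpace.isBasis_countableBasis T).exists_subset_of_mem_open ha hJ
  intro h0
  exact hx J' hJ' hx0 ⟨a, haJ'⟩ (measure_mono_null (inter_subset_inter_right _ hJJ') h0)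

end Pool.Agent.RSet
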