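import Pool.Agent.NSet.Defs

/-!
# Visits along infinite sets of times

For an infinite set `A` of natural numbers and an open nonempty set `J` almost no point `t` has `p ^ n t ∉ J` for all `n ∈ A`.
-/

set_option autoImplicit false

open MeasureTheory Filter Topology Set
open scoped ENNReal

namespace Pool.Agent.RSet

open Pool.Agent.NSet

theorem vol_haar : (volume : Measure T) = AddCircle.haarAddCircle := by
  rw [AddCircle.volume_eq_smul_haarAddCircle, ENNReal.ofReal_one, one_smul]

/-- Riemann-Lebesgue for the indicator of `C`. -/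
theorem rl {p : ℕ} (hp : 2 ≤ p) {C : Set T} (hC : MeasurableSet C) {m : ℤ} (hm : m ≠ 0) :
    Tendsto (fun n : ℕ => ∫ t in C, (fourier (m * (p : ℤ) ^ n) t : ℂ)) atTop (𝓝 0) := by
  have h1 : MemLp (C.indicator (fun _ : T => (1 : ℂ))) 2 AddCircle.haarAddCircle :=
    memLp_indicator_const 2 hC 1 (Or.inr (measure_ne_top _ _))
  have h2 := (hasSum_sq_fourierCoeff h1.toLp).summable.tendsto_cofinite_zero
  have hinj : Function.Injective fun n : ℕ => -(m * (p : ℤ) ^ n) := by
    intro a b hab
    have h3 : m * (p : ℤ) ^ a = m * (p : ℤ) ^ b := neg_injective hab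
    have h4 : (p : ℤ) ^ a = (p : ℤ) ^ b := mul_left_cancel₀ hm h3
    have h5 : p ^ a = p ^ b := by exact_mod_cast h4
    exact Nat.pow_right_injective hp h5
  have h3 : Tendsto (fun n : ℕ => ‖fourierCoeff h1.toLp (-(m * (p : ℤ) ^ n))‖ ^ 2) atTop (𝓝 0) := by
    have h4 := h2.comp hinj.tendsto_cofinite
    rwa [Nat.cofinite_eq_atTop] at h4
  have h5 : ∀ n : ℕ, ∫ t in C, (fourier (m * (p : ℤ) ^ n) t : ℂ) =
      fourierCoeff h1.toLp (-(m * (p : ℤ) ^ n)) := by
    intro n
    rw [fourierCoeff_congr_ae h1.coeFn_toLp, fourierCoeff, neg_neg, vol_haar, ← integral_indicator hC]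
    refine integral_congr_ae (Eventually.of_forall fun t => ?_)
    by_cases ht : t ∈ C
    · simp [ht]
    · simp [ht]
  have h6 : Tendsto (fun n : ℕ => ‖∫ t in C, (fourier (m * (p : ℤ) ^ n) t : ℂ)‖ ^ 2) atTop (𝓝 0) := by
    simpa only [h5] using h3
  rw [tendsto_zero_iff_norm_tendsto_zero]
  have h7 := (Real.continuous_sqrt.tendsto 0).comp h6
  rw [Real.sqrt_zero] at h7
  refine h7.congr fun n => ?_
  simp only [Function.comp_apply]
  exact Real.sqrt_sq (norm_nonneg _)

theorem fourier_smul (m : ℤ) (k : ℕ) (t : T) : (fourier m (k • t) : ℂ) = fourier (m * (k : ℤ)) t := by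
  rw [fourier_apply, fourier_apply]
  congr 2
  rw [mul_smul, natCast_zsmul]

/-- the mixing property for trigonometric polynomials -/
theorem mix_span {p : ℕ} (hp : 2 ≤ p) {C : Set T} (hC : MeasurableSet C) (f : C(T, ℂ))
    (hf : f ∈ Submodule.span ℂ (range (fourier (T := 1)))) :
    Tendsto (fun n : ℕ => ∫ t in C, f (p ^ n • t)) atTop (𝓝 ((volume.real C : ℂ) * ∫ t : T, f t)) := by
  have hint : ∀ (g : C(T, ℂ)) (n : ℕ), Integrable (fun t : T => g (p ^ n • t)) (volume.restrict C) := by
    intro g n
    have hc : Continuous fun t : T => g (p ^ n • t) := g.continuous.comp (continuous_const_smul _)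
    exact (hc.integrable_of_hasCompactSupport (HasCompactSupport.of_compactSpace _)).integrableOn
  have hint' : ∀ g : C(T, ℂ), Integrable (fun t : T => g t) volume := by
    intro g
    exact g.continuous.integrable_of_hasCompactSupport (HasCompactSupport.of_compactSpace _)
  induction hf using Submodule.span_induction with
  | mem x hx =>
    obtain ⟨m, rfl⟩ := hx
    have e1 : ∀ n : ℕ, ∫ t in C, (fourier m (p ^ n • t) : ℂ) = ∫ t in C, (fourier (m * (p : ℤ) ^ n) t : ℂ) := by
      intro n
      refine integral_congr_ae (Eventually.of_forall fun t => ?_)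
      show (fourier m (p ^ n • t) : ℂ) = fourier (m * (p : ℤ) ^ n) t
      rw [fourier_smul]
      push_cast
      rfl
    simp only [e1]
    by_cases hm : m = 0
    · subst hm
      simp only [zero_mul, fourier_zero, integral_const, MeasurableSet.univ, measureReal_restrict_apply, univ_inter]
      have h1 : volume.real (univ : Set T) = 1 := by
        rw [Measure.real, AddCircle.measure_univ, ENNReal.ofReal_one, ENNReal.toReal_one]
      rw [h1]
      simp
    · have h1 : ∫ t : T, (fourier m t : ℂ) = 0 := by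
        rw [vol_haar]
        exact integral_eq_zero_of_add_right_eq_neg (fourier_add_half_inv_index hm Fact.out)
      rw [h1, mul_zero]
      exact rl hp hC hm
  | zero => simp
  | add x y _ _ hx hy =>
    have e1 : ∀ n : ℕ, ∫ t in C, (x + y) (p ^ n • t) =
        (∫ t in C, x (p ^ n • t)) + ∫ t in C, y (p ^ n • t) := by
      intro n
      rw [← integral_add (hint x n) (hint y n)]
      rfl
    have e2 : ∫ t : T, (x + y) t = (∫ t : T, x t) + ∫ t : T, y t := by
      rw [← integral_add (hint' x) (hint' y)]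
      rfl
    simp only [e1]
    rw [e2, mul_add]
    exact hx.add hy
  | smul a x _ hx =>
    have e1 : ∀ n : ℕ, ∫ t in C, (a • x) (p ^ n • t) = a * ∫ t in C, x (p ^ n • t) := by
      intro n
      rw [← integral_const_mul]
      rfl
    have e2 : ∫ t : T, (a • x) t = a * ∫ t : T, x t := by
      rw [← integral_const_mul]
      rfl
    simp only [e1]
    rw [e2, mul_left_comm]
    exact hx.const_mul a

/-- Almost every point visits `J` at a time in the infinite set `A`. -/
theorem mix_null {p : ℕ} (hp : 2 ≤ p) {A : Set ℕ} (hA : A.Infinite) {J : Set T} (hJ : IsOpen J)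
    (hJ0 : J.Nonempty) : volume {t : T | ∀ n ∈ A, p ^ n • t ∉ J} = 0 := by
  set C : Set T := {t : T | ∀ n ∈ A, p ^ n • t ∉ J} with hCdef
  have hCc : IsClosed C := by
    have e1 : C = ⋂ n ∈ A, (fun x : T => p ^ n • x) ⁻¹' Jᶜ := by
      ext x
      simp [hCdef]
    rw [e1]
    exact isClosed_biInter fun n _ => hJ.isClosed_compl.preimage (continuous_const_smul (p ^ n))
  by_contra hne
  obtain ⟨x₀, hx₀⟩ := hJ0
  obtain ⟨f, hf0, hf1, hf01⟩ := exists_continuous_zero_one_of_isClosed hJ.isClosed_compl
    (isClosed_singleton (x := x₀)) (by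
      rw [Set.disjoint_singleton_right]
      exact fun h => h hx₀)
  have hfi : 0 < ∫ t : T, f t := by
    have hnn : 0 ≤ᵐ[volume] fun t : T => f t := Eventually.of_forall fun t => (hf01 t).1
    have hi : Integrable (fun t : T => f t) volume :=
      f.continuous.integrable_of_hasCompactSupport (HasCompactSupport.of_compactSpace _)
    rw [integral_pos_iff_support_of_nonneg_ae hnn hi]
    refine IsOpen.measure_pos volume ?_ ⟨x₀, ?_⟩
    · exact f.continuous.isOpen_support
    · show f x₀ ≠ 0
      rw [hf1 (mem_singleton x₀)]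
      exact one_ne_zero
  set I : ℝ := ∫ t : T, f t with hI
  set g : C(T, ℂ) := ⟨fun t => (f t : ℂ), Complex.continuous_ofReal.comp f.continuous⟩ with hg
  have hden : g ∈ (Submodule.span ℂ (range (fourier (T := 1)))).topologicalClosure := by
    rw [span_fourier_closure_eq_top]
    trivial
  rw [← SetLike.mem_coe, Submodule.topologicalClosure_coe, Metric.mem_closure_iff] at hden
  obtain ⟨h, hh, hgh⟩ := hden (I / 4) (by positivity)
  have hbd : ∀ t : T, ‖h t - g t‖ ≤ I / 4 := by
    intro t
    rw [dist_comm, dist_eq_norm] at hgh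
    exact ((h - g).norm_coe_le_norm t).trans hgh.le
  have hlim := mix_span hp hCc.measurableSet h hh
  have hv : 0 < volume.real C := by
    rw [Measure.real]
    exact ENNReal.toReal_pos hne (measure_ne_top _ _)
  have hzero : ∀ n ∈ A, ‖∫ t in C, h (p ^ n • t)‖ ≤ I / 4 * volume.real C := by
    intro n hn
    refine norm_setIntegral_le_of_norm_le_const (measure_lt_top _ _) fun t ht => ?_
    have h1 : g (p ^ n • t) = 0 := by
      show ((f (p ^ n • t) : ℝ) : ℂ) = 0
      rw [hf0 (ht n hn)]
      simp
    have h2 := hbd (p ^ n • t)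
    rwa [h1, sub_zero] at h2
  have hfreq : ∃ᶠ n in atTop, ‖∫ t in C, h (p ^ n • t)‖ ≤ I / 4 * volume.real C :=
    (Nat.frequently_atTop_iff_infinite.2 hA).mono fun n hn => hzero n hn
  have h3 : ‖(volume.real C : ℂ) * ∫ t : T, h t‖ ≤ I / 4 * volume.real C :=
    isClosed_Iic.mem_of_frequently_of_tendsto hfreq hlim.norm
  rw [norm_mul, Complex.norm_real, Real.norm_eq_abs, abs_of_pos hv, mul_comm] at h3
  have h4 : ‖∫ t : T, h t‖ ≤ I / 4 := le_of_mul_le_mul_right h3 hv
  have hvu : volume.real (univ : Set T) = 1 := by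
    rw [Measure.real, AddCircle.measure_univ, ENNReal.ofReal_one, ENNReal.toReal_one]
  have h5 : ‖(∫ t : T, h t) - ∫ t : T, g t‖ ≤ I / 4 := by
    rw [← integral_sub (h.continuous.integrable_of_hasCompactSupport (HasCompactSupport.of_compactSpace _))
      (g.continuous.integrable_of_hasCompactSupport (HasCompactSupport.of_compactSpace _))]
    have h6 := norm_integral_le_of_norm_le_const (μ := (volume : Measure T)) (f := fun t => h t - g t)
      (C := I / 4) (Eventually.of_forall hbd)
    rwa [hvu, mul_one] at h6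
  have h7 : ∫ t : T, g t = (I : ℂ) := by
    rw [hI, ← integral_complex_ofReal]
    rfl
  rw [h7] at h5
  have h8 : ‖(I : ℂ)‖ ≤ ‖∫ t : T, h t‖ + ‖(∫ t : T, h t) - I‖ := by
    have := norm_sub_le (∫ t : T, h t) ((∫ t : T, h t) - I)
    rwa [sub_sub_cancel] at this
  rw [Complex.norm_real, Real.norm_eq_abs, abs_of_pos hfi] at h8
  linarith

end Pool.Agent.RSet
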