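import Pool.Agent.RSet.Level
import Pool.Agent.RSet.Mix

/-!
# A random closed set which is mapped into itself is null or the whole circle
-/

set_option autoImplicit false

open MeasureTheory Filter Topology Set
open scoped ENNReal Pointwise

namespace Pool.Agent.RSet

open Pool.Agent.NSet

variable {X : Type} [MeasurableSpace X]

theorem mp_nsmul {p : ℕ} (hp : 2 ≤ p) : MeasurePreserving (fun t : T => p • t) (volume : Measure T) volume :=
  (AddCircle.ergodic_nsmul (by omega)).toMeasurePreserving

/-- A closed set `A` such that `A ⊆ (p ^ n)⁻¹ (B n)` with `B n` of the same measure as `A` is null or everything. -/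
theorem null_or_univ {p : ℕ} (hp : 2 ≤ p) {A : Set T} (hA : IsClosed A) (B : ℕ → Set T)
    (hB : ∀ n, MeasurableSet (B n)) (hAB : ∀ n, ∀ t ∈ A, p ^ n • t ∈ B n)
    (hv : ∀ n, (volume : Measure T) (B n) = volume A) : (volume : Measure T) A = 0 ∨ A = univ := by
  have hpre : ∀ n, A =ᵐ[volume] ((fun t : T => p ^ n • t) ⁻¹' B n : Set T) := by
    intro n
    have hmp : MeasurePreserving (fun t : T => p ^ n • t) (volume : Measure T) volume := by
      rcases Nat.eq_zero_or_pos n with h0 | h0
      · subst h0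
        simp only [pow_zero, one_smul]
        exact MeasurePreserving.id _
      · exact mp_nsmul (le_trans hp (Nat.le_self_pow h0.ne' p))
    refine ae_eq_of_subset_of_measure_ge (fun t ht => hAB n t ht) ?_ hA.measurableSet.nullMeasurableSet
      (measure_ne_top _ _)
    rw [hmp.measure_preimage (hB n).nullMeasurableSet, hv n]
  set u : ℕ → T := fun n => (((1 : ℝ) / ((p ^ n : ℕ) : ℝ) * 1 : ℝ) : T) with hu
  have hord : ∀ n, addOrderOf (u n) = p ^ n := by
    intro n
    have h1 := AddCircle.addOrderOf_div_of_gcd_eq_one (p := (1 : ℝ)) (m := 1) (n := p ^ n) (by positivity)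
      (Nat.gcd_one_left _)
    rw [hu]
    simpa using h1
  have hz : ∀ n, p ^ n • u n = 0 := fun n => by
    rw [← hord n]
    exact addOrderOf_nsmul_eq_zero (u n)
  have h1 : ∀ n, (u n +ᵥ A : Set T) =ᵐ[volume] A := by
    intro n
    have e1 : (u n +ᵥ ((fun t : T => p ^ n • t) ⁻¹' B n) : Set T) = (fun t : T => p ^ n • t) ⁻¹' B n := by
      ext t
      rw [Set.mem_vadd_set_iff_neg_vadd_mem, mem_preimage, mem_preimage, vadd_eq_add, smul_add, smul_neg, hz n, neg_zero,
        zero_add]
    have h2 : (u n +ᵥ A : Set T) =ᵐ[volume] (u n +ᵥ ((fun t : T => p ^ n • t) ⁻¹' B n) : Set T) := by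
      have e2 : ∀ C : Set T, (u n +ᵥ C : Set T) = (fun t : T => -(u n) +ᵥ t) ⁻¹' C := fun C => by
        rw [Set.preimage_vadd, neg_neg]
      rw [e2 A, e2 _]
      exact (measurePreserving_vadd (-(u n)) (volume : Measure T)).quasiMeasurePreserving.preimage_ae_eq (hpre n)
    rw [e1] at h2
    exact h2.trans (hpre n).symm
  have h2 : Tendsto (addOrderOf ∘ u) atTop atTop := by
    have e1 : addOrderOf ∘ u = fun n => p ^ n := funext hord
    rw [e1]
    exact tendsto_pow_atTop_atTop_of_one_lt (by omega)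
  rcases AddCircle.ae_empty_or_univ_of_forall_vadd_ae_eq_self hA.measurableSet.nullMeasurableSet h1 h2 with h3 | h3
  · left
    exact ae_eq_empty.1 h3
  · right
    have h4 : (volume : Measure T) Aᶜ = 0 := ae_eq_univ.1 h3
    have h5 : Aᶜ = ∅ := hA.isOpen_compl.eq_empty_of_measure_zero h4
    exact compl_empty_iff.1 h5

/-- The sections are null or everything. -/
theorem ae_null_or_univ {p : ℕ} (hp : 2 ≤ p) (μ : Measure X) [IsFiniteMeasure μ] {S : X → X}
    (hS : MeasurePreserving S μ μ) {E : Set (X × T)} (hE : MeasurableSet E)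
    (hcl : ∀ x, IsClosed {t | (x, t) ∈ E}) (hpE : ∀ z ∈ E, (S z.1, p • z.2) ∈ E) :
    ∀ᵐ x ∂μ, (volume : Measure T) {t | (x, t) ∈ E} = 0 ∨ {t | (x, t) ∈ E} = univ := by
  set f : X → ℝ≥0∞ := fun x => (volume : Measure T) {t | (x, t) ∈ E} with hf
  have hfm : Measurable f := measurable_measure_prodMk_left hE
  have hle : ∀ x, f x ≤ f (S x) := by
    intro x
    have h1 : f (S x) = (volume : Measure T) ((fun t : T => p • t) ⁻¹' {t | (S x, t) ∈ E}) :=
      ((mp_nsmul hp).measure_preimage (hcl (S x)).measurableSet.nullMeasurableSet).symm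
    rw [h1]
    exact measure_mono fun t ht => hpE (x, t) ht
  have hbd : ∀ x, f x ≤ 1 := by
    intro x
    refine (measure_mono (subset_univ _)).trans ?_
    rw [AddCircle.measure_univ, ENNReal.ofReal_one]
  have hae : f =ᵐ[μ] fun x => f (S x) := by
    refine ae_eq_of_ae_le_of_lintegral_le (Eventually.of_forall hle) ?_ (hfm.comp hS.measurable).aemeasurable ?_
    · refine ne_top_of_le_ne_top (b := ∫⁻ _x, 1 ∂μ) ?_ (lintegral_mono hbd)
      rw [lintegral_const, one_mul]
      exact measure_ne_top _ _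
    · rw [hS.lintegral_comp hfm]
  have hall : ∀ᵐ x ∂μ, ∀ n : ℕ, f (S^[n] x) = f (S^[n + 1] x) := by
    refine ae_all_iff.2 fun n => ?_
    have h1 := (hS.iterate n).quasiMeasurePreserving.ae hae
    filter_upwards [h1] with x hx
    rw [Function.iterate_succ_apply']
    exact hx
  filter_upwards [hall] with x hx
  have hc : ∀ n : ℕ, f (S^[n] x) = f x := by
    intro n
    induction n with
    | zero => rfl
    | succ n ih => rw [← hx n, ih]
  refine null_or_univ hp (hcl x) (fun n => {t | (S^[n] x, t) ∈ E}) (fun n => (hcl _).measurableSet) ?_ hc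
  intro n
  induction n with
  | zero =>
    intro t ht
    simpa using ht
  | succ n ih =>
    intro t ht
    have h1 : (S (S^[n] x), p • p ^ n • t) ∈ E := hpE (S^[n] x, p ^ n • t) (ih t ht)
    show (S^[n + 1] x, p ^ (n + 1) • t) ∈ E
    rw [Function.iterate_succ_apply', pow_succ', mul_smul]
    exact h1

/-- If almost no section is everything, then the set is null for `μ × λ`. -/
theorem prod_null {p : ℕ} (hp : 2 ≤ p) (μ : Measure X) [IsFiniteMeasure μ] {S : X → X}
    (hS : MeasurePreserving S μ μ) {E : Set (X × T)} (hE : MeasurableSet E)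
    (hcl : ∀ x, IsClosed {t | (x, t) ∈ E}) (hpE : ∀ z ∈ E, (S z.1, p • z.2) ∈ E)
    (hne : ∀ᵐ x ∂μ, {t | (x, t) ∈ E} ≠ univ) : (μ.prod volume) E = 0 := by
  rw [Measure.measure_prod_null hE]
  filter_upwards [ae_null_or_univ hp μ hS hE hcl hpE, hne] with x h1 h2
  rcases h1 with h3 | h3
  · exact h3
  · exact absurd h3 h2

end Pool.Agent.RSet
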