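import Pool.Agent.NSet.Unif
import Pool.Agent.NSet.Cor

/-!
# Random closed sets (text: team-store MP_e27144_an_RandomSets_helper11.md)

`(X, μ, S)` is a probability preserving system, `E ⊆ X × T` is measurable, its sections `{t | (x, t) ∈ E}` are closed and
`(x, t) ∈ E` implies `(S x, p t) ∈ E`. Then the sets `{t | c ≤ μ {x | (x, t) ∈ E}}` are closed and invariant under `×p`.
-/

set_option autoImplicit false

open MeasureTheory Filter Topology Set
open scoped ENNReal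

namespace Pool.Agent.RSet

open Pool.Agent.NSet

variable {X : Type} [MeasurableSpace X]

theorem fibre_meas {E : Set (X × T)} (hE : MeasurableSet E) (t : T) : MeasurableSet {x | (x, t) ∈ E} :=
  measurable_prodMk_right hE

/-- The level sets are closed. -/
theorem closed_level (μ : Measure X) [IsFiniteMeasure μ] {E : Set (X × T)} (hE : MeasurableSet E)
    (hcl : ∀ x, IsClosed {t | (x, t) ∈ E}) (c : ℝ≥0∞) : IsClosed {t : T | c ≤ μ {x | (x, t) ∈ E}} := by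
  apply IsSeqClosed.isClosed
  intro u t hu hut
  set A : ℕ → Set X := fun k => ⋃ j : ℕ, {x | (x, u (k + j)) ∈ E} with hA
  have hAm : ∀ k, MeasurableSet (A k) := fun k => MeasurableSet.iUnion fun j => fibre_meas hE _
  have hanti : Antitone A := by
    intro k l hkl x hx
    obtain ⟨j, hj⟩ := mem_iUnion.1 hx
    refine mem_iUnion.2 ⟨l - k + j, ?_⟩
    have h1 : k + (l - k + j) = l + j := by omega
    show (x, u (k + (l - k + j))) ∈ E
    rw [h1]
    exact hj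
  have hlim := tendsto_measure_iInter_atTop (μ := μ) (fun k => (hAm k).nullMeasurableSet) hanti
    ⟨0, measure_ne_top μ _⟩
  have hge : ∀ k, c ≤ μ (A k) := fun k => (hu k).trans (measure_mono fun x hx => mem_iUnion.2 ⟨0, hx⟩)
  have h2 : c ≤ μ (⋂ k, A k) := ge_of_tendsto' hlim hge
  refine h2.trans (measure_mono fun x hx => ?_)
  have h3 : ∃ᶠ n in atTop, u n ∈ {t | (x, t) ∈ E} := by
    rw [frequently_atTop]
    intro k
    obtain ⟨j, hj⟩ := mem_iUnion.1 (mem_iInter.1 hx k)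
    exact ⟨k + j, by omega, hj⟩
  exact (hcl x).mem_of_frequently_of_tendsto h3 hut

/-- The level sets are invariant under `×p`. -/
theorem inv_level (μ : Measure X) {S : X → X} (hS : MeasurePreserving S μ μ) {E : Set (X × T)}
    (hE : MeasurableSet E) {p : ℕ} (hpE : ∀ z ∈ E, (S z.1, p • z.2) ∈ E) (c : ℝ≥0∞) :
    ∀ t ∈ {t : T | c ≤ μ {x | (x, t) ∈ E}}, p • t ∈ {t : T | c ≤ μ {x | (x, t) ∈ E}} := by
  intro t ht
  have ht' : c ≤ μ {x | (x, t) ∈ E} := ht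
  refine ht'.trans ?_
  rw [← hS.measure_preimage (fibre_meas hE (p • t)).nullMeasurableSet]
  exact measure_mono fun x hx => hpE (x, t) hx

theorem level_ne (μ : Measure X) [IsFiniteMeasure μ] {E : Set (X × T)} (hE : MeasurableSet E)
    (h0 : (μ.prod volume) E = 0) {c : ℝ≥0∞} (hc : c ≠ 0) : {t : T | c ≤ μ {x | (x, t) ∈ E}} ≠ univ := by
  intro hu
  rw [Measure.prod_apply_symm hE] at h0
  have h1 : ∫⁻ _t : T, c ∂volume ≤ ∫⁻ t : T, μ {x | (x, t) ∈ E} ∂volume :=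
    lintegral_mono fun t => by
      have : t ∈ {t : T | c ≤ μ {x | (x, t) ∈ E}} := hu ▸ mem_univ t
      exact this
  have h2 : ∫⁻ t : T, μ {x | (x, t) ∈ E} ∂volume = 0 := h0
  rw [h2, lintegral_const, AddCircle.measure_univ, ENNReal.ofReal_one, mul_one] at h1
  exact hc (le_antisymm h1 bot_le)

/-- Random closed sets are null. -/
theorem null_random {p q : ℕ} (h : MI p q) (μ : Measure X) [IsFiniteMeasure μ] {S : X → X}
    (hS : MeasurePreserving S μ μ) {E : Set (X × T)} (hE : MeasurableSet E)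
    (hcl : ∀ x, IsClosed {t | (x, t) ∈ E}) (hpE : ∀ z ∈ E, (S z.1, p • z.2) ∈ E)
    (h0 : (μ.prod volume) E = 0) (ρ : Measure T) [IsFiniteMeasure ρ]
    (hρ : MeasurePreserving (fun x : T => q • x) ρ ρ) (hat : ∀ x, ρ {x} = 0) : (μ.prod ρ) E = 0 := by
  rw [Measure.prod_apply_symm hE]
  have hlev : ∀ k : ℕ, ρ {t : T | ((k : ℝ≥0∞) + 1)⁻¹ ≤ μ {x | (x, t) ∈ E}} = 0 := by
    intro k
    have hk : ((k : ℝ≥0∞) + 1)⁻¹ ≠ 0 := by
      rw [Ne, ENNReal.inv_eq_zero]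
      exact ENNReal.add_ne_top.2 ⟨ENNReal.natCast_ne_top k, ENNReal.one_ne_top⟩
    exact null_atomless h (closed_level μ hE hcl _) (level_ne μ hE h0 hk) (inv_level μ hS hE hpE _) ρ hρ hat
  have hae : ∀ᵐ t ∂ρ, μ {x | (x, t) ∈ E} = 0 := by
    have h1 : ∀ᵐ t ∂ρ, ∀ k : ℕ, t ∉ {t : T | ((k : ℝ≥0∞) + 1)⁻¹ ≤ μ {x | (x, t) ∈ E}} :=
      ae_all_iff.2 fun k => measure_eq_zero_iff_ae_notMem.1 (hlev k)
    filter_upwards [h1] with t ht
    by_contra hne
    obtain ⟨k, hk⟩ := ENNReal.exists_inv_nat_lt hne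
    refine ht k ?_
    show ((k : ℝ≥0∞) + 1)⁻¹ ≤ μ {x | (x, t) ∈ E}
    refine le_trans ?_ hk.le
    exact ENNReal.inv_le_inv.2 le_self_add
  calc ∫⁻ t, μ ((fun x => (x, t)) ⁻¹' E) ∂ρ = ∫⁻ _t, 0 ∂ρ := lintegral_congr_ae hae
    _ = 0 := lintegral_zero

/-- The uniform form. -/
theorem uniform_random {p q : ℕ} (h : MI p q) (μ : Measure X) [IsFiniteMeasure μ] {S : X → X}
    (hS : MeasurePreserving S μ μ) {E : Set (X × T)} (hE : MeasurableSet E)
    (hcl : ∀ x, IsClosed {t | (x, t) ∈ E}) (hpE : ∀ z ∈ E, (S z.1, p • z.2) ∈ E)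
    (h0 : (μ.prod volume) E = 0) {c : ℝ≥0∞} (hc : c ≠ 0) {ε : ℝ} (hε : 0 < ε) :
    ∃ N Q : ℕ, 0 < N ∧ 0 < Q ∧ ∀ y : T, (Q * q ^ N) • y ≠ 0 →
      (cnt {n | c ≤ μ {x | (x, q ^ n • y) ∈ E}} N : ℝ) ≤ ε * N :=
  uniform h (closed_level μ hE hcl c) (level_ne μ hE h0 hc) (inv_level μ hS hE hpE c) hε

end Pool.Agent.RSet
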