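import Pool.Agent.NSet.Defs

/-!
# Moving targets: patterns

For a finite set `g` of exponents with many elements there is a point `x` such that the points `q ^ i x`, `i ∈ g`, meet every
ball of radius `r`.
-/

set_option autoImplicit false

open MeasureTheory Filter Topology Set

namespace Pool.Agent.RSet

open Pool.Agent.NSet

theorem norm_coe_le (x : ℝ) : ‖(x : T)‖ ≤ |x| := by
  have h1 := AddCircle.norm_eq (1 : ℝ) (x := x)
  rw [h1, inv_one, one_mul, mul_one]
  have h2 := round_le x 0
  simpa using h2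

/-- a preimage of `y` under multiplication by `M` close to `z` -/
theorem ex_near {M : ℕ} (hM : 0 < M) (y z : T) : ∃ x : T, M • x = y ∧ dist x z ≤ 1 / M := by
  induction y using QuotientAddGroup.induction_on with
  | H b =>
    induction z using QuotientAddGroup.induction_on with
    | H a =>
      have hM' : (0 : ℝ) < M := by exact_mod_cast hM
      refine ⟨(((b + (⌊M * a - b⌋ : ℤ)) / M : ℝ) : T), ?_, ?_⟩
      · have h1 : M • ((((b + (⌊M * a - b⌋ : ℤ)) / M : ℝ)) : T) =
            ((M • ((b + (⌊M * a - b⌋ : ℤ)) / M : ℝ) : ℝ) : T) := (AddCircle.coe_nsmul (p := (1 : ℝ))).symm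
        rw [h1, nsmul_eq_mul, mul_div_cancel₀ _ hM'.ne']
        show (((b + (⌊M * a - b⌋ : ℤ) : ℝ)) : T) = ((b : ℝ) : T)
        rw [AddCircle.coe_add]
        have h2 : (((⌊M * a - b⌋ : ℤ) : ℝ) : T) = 0 := by
          rw [AddCircle.coe_eq_zero_iff]
          exact ⟨⌊M * a - b⌋, by simp⟩
        rw [h2, add_zero]
      · rw [dist_eq_norm]
        show ‖((((b + (⌊M * a - b⌋ : ℤ)) / M : ℝ)) : T) - ((a : ℝ) : T)‖ ≤ 1 / M
        rw [← AddCircle.coe_sub]
        refine (norm_coe_le _).trans ?_
        have h3 := Int.floor_le ((M : ℝ) * a - b)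
        have h4 := Int.lt_floor_add_one ((M : ℝ) * a - b)
        have h5 : (b + (⌊M * a - b⌋ : ℤ)) / M - a = (b + (⌊M * a - b⌋ : ℤ) - M * a) / M := by
          field_simp
        rw [h5, abs_div, abs_of_pos hM']
        gcongr
        rw [abs_le]
        constructor <;> linarith

/-- A point whose images under `q ^ (i 0)`, `q ^ (i 1)`, ... are close to given points. -/
theorem ex_shadow {q L : ℕ} (hq : 2 ≤ q) {r : ℝ} (hr : 1 / (q : ℝ) ^ L < r) (h : ℕ) : ∀ (z : ℕ → T) (e : ℕ → ℕ),
    (∀ a < h, e a + L ≤ e (a + 1)) → ∃ x : T, ∀ a < h + 1, dist (q ^ e a • x) (z a) < r := by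
  have hq0 : (0 : ℝ) < q := by
    have : 0 < q := by omega
    exact_mod_cast this
  have hr0 : 0 < r := lt_trans (by positivity) hr
  induction h with
  | zero =>
    intro z e _
    obtain ⟨x, hx, -⟩ := ex_near (M := q ^ e 0) (by positivity) (z 0) 0
    refine ⟨x, fun a ha => ?_⟩
    have ha0 : a = 0 := by omega
    subst ha0
    rw [hx, dist_self]
    exact hr0
  | succ h ih =>
    intro z e he
    -- shadow `z 1, z 2, ...` first with the exponents `e (a + 1) - e 1`
    obtain ⟨x₁, hx₁⟩ := ih (fun a => z (a + 1)) (fun a => e (a + 1) - e 1) (by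
      intro a ha
      have hmono : ∀ b : ℕ, b < h + 1 → e 1 ≤ e (b + 1) := by
        intro b
        induction b with
        | zero => intro _; simp
        | succ b ihb =>
          intro hb
          have h1 := he (b + 1) (by omega)
          have h2 := ihb (by omega)
          omega
      have h1 := he (a + 1) (by omega)
      have h2 := hmono a (by omega)
      show e (a + 1) - e 1 + L ≤ e (a + 1 + 1) - e 1
      omega)
    have h01 : e 0 + L ≤ e 1 := he 0 (by omega)
    obtain ⟨x₀, hx₀, hd₀⟩ := ex_near (M := q ^ (e 1 - e 0)) (by positivity) x₁ (z 0)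
    obtain ⟨x, hx, -⟩ := ex_near (M := q ^ e 0) (by positivity) x₀ 0
    refine ⟨x, fun a ha => ?_⟩
    rcases Nat.eq_zero_or_pos a with h0 | h0
    · subst h0
      rw [hx]
      refine lt_of_le_of_lt hd₀ (lt_of_le_of_lt ?_ hr)
      push_cast
      apply one_div_le_one_div_of_le (by positivity)
      exact pow_le_pow_right₀ (by exact_mod_cast (by omega : 1 ≤ q)) (by omega)
    · obtain ⟨b, rfl⟩ : ∃ b, a = b + 1 := ⟨a - 1, by omega⟩
      have hmono : ∀ b : ℕ, b < h + 1 → e 1 ≤ e (b + 1) := by
        intro b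
        induction b with
        | zero => intro _; simp
        | succ b ihb =>
          intro hb
          have h1 := he (b + 1) (by omega)
          have h2 := ihb (by omega)
          omega
      have h2 := hmono b (by omega)
      have h3 := hx₁ b (by omega)
      have h4 : q ^ e (b + 1) • x = q ^ (e (b + 1) - e 1) • x₁ := by
        have e1 : e (b + 1) = (e (b + 1) - e 1) + ((e 1 - e 0) + e 0) := by omega
        rw [e1, pow_add, pow_add, mul_smul, mul_smul, hx, hx₀]
        congr 2
        omega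
      rw [h4]
      exact h3

/-- A set with many elements contains a sequence with large gaps. -/
theorem ex_gaps (L : ℕ) (h : ℕ) : ∀ g : Finset ℕ, (h + 1) * (L + 1) ≤ g.card → ∃ e : ℕ → ℕ, (∀ a < h + 1, e a ∈ g) ∧
    ∀ a < h, e a + L ≤ e (a + 1) := by
  induction h with
  | zero =>
    intro g hg
    obtain ⟨i, hi⟩ : g.Nonempty := Finset.card_pos.1 (by omega)
    exact ⟨fun _ => i, fun a _ => hi, fun a ha => absurd ha (by omega)⟩
  | succ h ih =>
    intro g hg
    have hne : g.Nonempty := Finset.card_pos.1 (by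
      have : 0 < (h + 1 + 1) * (L + 1) := by positivity
      omega)
    set i := g.min' hne with hi
    set g' := g.filter fun j => i + L < j with hg'
    have hsub : g ⊆ g' ∪ Finset.Icc i (i + L) := by
      intro j hj
      rw [Finset.mem_union]
      by_cases hj' : i + L < j
      · exact Or.inl (Finset.mem_filter.2 ⟨hj, hj'⟩)
      · exact Or.inr (Finset.mem_Icc.2 ⟨Finset.min'_le _ _ hj, by omega⟩)
    have hcard : (h + 1) * (L + 1) ≤ g'.card := by
      have h1 := (Finset.card_le_card hsub).trans (Finset.card_union_le _ _)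
      rw [Nat.card_Icc] at h1
      have h2 : i + L + 1 - i = L + 1 := by omega
      rw [h2] at h1
      have h3 : (h + 1 + 1) * (L + 1) = (h + 1) * (L + 1) + (L + 1) := by ring
      omega
    obtain ⟨e, he1, he2⟩ := ih g' hcard
    refine ⟨fun a => if a = 0 then i else e (a - 1), ?_, ?_⟩
    · intro a ha
      by_cases h0 : a = 0
      · simp only [h0, if_true]
        exact Finset.min'_mem _ _
      · simp only [h0, if_false]
        exact (Finset.mem_filter.1 (he1 (a - 1) (by omega))).1
    · intro a ha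
      by_cases h0 : a = 0
      · subst h0
        simp only [if_true, one_ne_zero, if_false, Nat.zero_add, Nat.sub_self]
        have h1 := (Finset.mem_filter.1 (he1 0 (by omega))).2
        omega
      · have h1 : a + 1 ≠ 0 := by omega
        simp only [h0, h1, if_false]
        have h2 := he2 (a - 1) (by omega)
        have h3 : a - 1 + 1 = a + 1 - 1 := by omega
        rw [h3] at h2
        exact h2

/-- the points `x` for which the points `q ^ i x`, `i ∈ g`, miss a ball of radius `r` -/
def Vg (q : ℕ) (r : ℝ) (g : Finset ℕ) : Set T := {x | ∃ c : T, ∀ i ∈ g, r ≤ dist (q ^ i • x) c}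

theorem closed_Vg (q : ℕ) (r : ℝ) (g : Finset ℕ) : IsClosed (Vg q r g) := by
  set Z : Set (T × T) := {z | ∀ i ∈ g, r ≤ dist (q ^ i • z.1) z.2} with hZ
  have hZc : IsClosed Z := by
    have e1 : Z = ⋂ i ∈ g, {z : T × T | r ≤ dist (q ^ i • z.1) z.2} := by
      ext z
      simp only [hZ, mem_ofPred_eq, mem_iInter]
    rw [e1]
    exact isClosed_biInter fun i _ => isClosed_le continuous_const (by fun_prop)
  have e2 : Vg q r g = Prod.fst '' Z := by
    ext x
    constructor
    · rintro ⟨c, hc⟩
      exact ⟨(x, c), hc, rfl⟩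
    · rintro ⟨⟨x', c⟩, hc, rfl⟩
      exact ⟨c, hc⟩
  rw [e2]
  exact (hZc.isCompact.image continuous_fst).isClosed

/-- For large patterns `g` the set `Vg` is not everything. -/
theorem Vg_ne {q : ℕ} (hq : 2 ≤ q) {r : ℝ} (hr : 0 < r) : ∃ m₀ : ℕ, ∀ g : Finset ℕ, m₀ ≤ g.card → Vg q r g ≠ univ := by
  -- a finite `r / 2`-net
  obtain ⟨s, hs⟩ : ∃ s : Finset T, ∀ c : T, ∃ z ∈ s, dist z c < r / 2 := by
    obtain ⟨s, hs⟩ := (isCompact_univ : IsCompact (univ : Set T)).elim_finite_subcover
      (fun z : T => Metric.ball z (r / 2)) (fun z => Metric.isOpen_ball)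
      (fun c _ => mem_iUnion.2 ⟨c, Metric.mem_ball_self (by positivity)⟩)
    refine ⟨s, fun c => ?_⟩
    obtain ⟨z, hz⟩ := mem_iUnion.1 (hs (mem_univ c))
    obtain ⟨hzs, hzc⟩ := mem_iUnion.1 hz
    exact ⟨z, hzs, by rw [dist_comm]; exact hzc⟩
  obtain ⟨L, hL⟩ : ∃ L : ℕ, 1 / (q : ℝ) ^ L < r / 2 := by
    obtain ⟨L, hL⟩ := exists_pow_lt_of_lt_one (by positivity : (0 : ℝ) < r / 2)
      (by
        have : (1 : ℝ) < q := by exact_mod_cast (by omega : 1 < q)
        exact (div_lt_one (by linarith)).2 this : 1 / (q : ℝ) < 1)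
    refine ⟨L, ?_⟩
    rwa [one_div_pow] at hL
  set k := s.card with hk
  refine ⟨(k + 1) * (L + 1), fun g hg hu => ?_⟩
  obtain ⟨e, he1, he2⟩ := ex_gaps L k g hg
  set z : ℕ → T := fun a => if h : a < k then (s.equivFin.symm ⟨a, h⟩ : T) else 0 with hz
  obtain ⟨x, hx⟩ := ex_shadow hq hL k z e he2
  have hxu : x ∈ Vg q r g := hu ▸ mem_univ x
  obtain ⟨c, hc⟩ := hxu
  obtain ⟨w, hws, hwc⟩ := hs c
  set a := s.equivFin ⟨w, hws⟩ with ha
  have hza : z a = w := by
    have h1 : z a = (s.equivFin.symm ⟨a, a.2⟩ : T) := dif_pos a.2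
    rw [h1, ha]
    simp
  have h1 := hx a (by omega)
  have h2 := hc (e a) (he1 a (by omega))
  rw [hza] at h1
  have h3 := dist_triangle (q ^ e a • x) w c
  linarith

end Pool.Agent.RSet
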