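import Pool.Agent.RSet.Level
import Pool.Agent.RSet.Mix

/-!
# Return times
-/

set_option autoImplicit false

open MeasureTheory Filter Topology Set
open scoped ENNReal

namespace Pool.Agent.RSet

open Pool.Agent.NSet

variable {X : Type} [MeasurableSpace X]

/-- the points which visit `B` infinitely often -/
def Io (S : X → X) (B : Set X) : Set X := {x | ∃ᶠ n in atTop, S^[n] x ∈ B}

theorem meas_Io {S : X → X} (hS : Measurable S) {B : Set X} (hB : MeasurableSet B) :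
    MeasurableSet (Io S B) := by
  have e1 : Io S B = ⋂ k : ℕ, ⋃ n : ℕ, (S^[k + n]) ⁻¹' B := by
    ext x
    simp only [Io, frequently_atTop, mem_iInter, mem_iUnion]
    constructor
    · intro h k
      obtain ⟨n, hn, hx⟩ := h k
      refine ⟨n - k, ?_⟩
      show S^[k + (n - k)] x ∈ B
      have : k + (n - k) = n := by omega
      rw [this]
      exact hx
    · intro h k
      obtain ⟨n, hn⟩ := h k
      exact ⟨k + n, by omega, hn⟩
  rw [e1]
  exact MeasurableSet.iInter fun k => MeasurableSet.iUnion fun n => (hS.iterate (k + n)) hB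

theorem Io_succ {S : X → X} {B : Set X} {x : X} (h : x ∈ Io S B) : S x ∈ Io S B := by
  have h1 : ∃ᶠ n in atTop, S^[n] x ∈ B := h
  show ∃ᶠ n in atTop, S^[n] (S x) ∈ B
  rw [frequently_atTop] at h1 ⊢
  intro k
  obtain ⟨n, hn, hx⟩ := h1 (k + 1)
  refine ⟨n - 1, by omega, ?_⟩
  rw [← Function.iterate_succ_apply]
  have : (n - 1).succ = n := by omega
  rw [this]
  exact hx

/-- Poincare recurrence: almost every point which visits `B` at all does so infinitely often. -/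
theorem ae_Io {μ : Measure X} [IsFiniteMeasure μ] {S : X → X} (hS : MeasurePreserving S μ μ) {B : Set X}
    (hB : MeasurableSet B) : ∀ᵐ x ∂μ, (∃ k : ℕ, S^[k] x ∈ B) → x ∈ Io S B := by
  have h1 := hS.conservative.ae_mem_imp_frequently_image_mem hB.nullMeasurableSet
  have h2 : ∀ᵐ x ∂μ, ∀ k : ℕ, S^[k] x ∈ B → ∃ᶠ n in atTop, S^[n] (S^[k] x) ∈ B :=
    ae_all_iff.2 fun k => (hS.iterate k).quasiMeasurePreserving.ae h1
  filter_upwards [h2] with x hx
  rintro ⟨k, hk⟩
  have h3 := hx k hk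
  show ∃ᶠ n in atTop, S^[n] x ∈ B
  rw [frequently_atTop] at h3 ⊢
  intro a
  obtain ⟨n, hn, hx'⟩ := h3 a
  refine ⟨n + k, by omega, ?_⟩
  rw [Function.iterate_add_apply]
  exact hx'

/-- the pairs `(x, t)` such that `x` visits `B` infinitely often, but `p ^ n t ∉ J` at all these times -/
def RE (p : ℕ) (S : X → X) (B : Set X) (J : Set T) : Set (X × T) :=
  {z | z.1 ∈ Io S B ∧ ∀ n : ℕ, S^[n] z.1 ∈ B → p ^ n • z.2 ∉ J}

theorem RE_meas (p : ℕ) {S : X → X} (hS : Measurable S) {B : Set X} (hB : MeasurableSet B) {J : Set T}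
    (hJo : IsOpen J) : MeasurableSet (RE p S B J) := by
  have e1 : RE p S B J = (Prod.fst ⁻¹' Io S B) ∩ ⋂ n : ℕ,
      ((Prod.fst ⁻¹' ((S^[n]) ⁻¹' B))ᶜ ∪ (Prod.snd ⁻¹' ((fun x : T => p ^ n • x) ⁻¹' J))ᶜ) := by
    ext z
    simp only [RE, mem_ofPred_eq, mem_inter_iff, mem_preimage, mem_iInter, mem_union, mem_compl_iff,
      imp_iff_not_or]
  rw [e1]
  refine (measurable_fst (meas_Io hS hB)).inter (MeasurableSet.iInter fun n => ?_)
  exact (measurable_fst ((hS.iterate n) hB)).compl.union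
    (measurable_snd ((continuous_const_smul (p ^ n)).measurable hJo.measurableSet)).compl

theorem RE_closed (p : ℕ) (S : X → X) (B : Set X) {J : Set T} (hJo : IsOpen J) (x : X) :
    IsClosed {t | (x, t) ∈ RE p S B J} := by
  by_cases hx : x ∈ Io S B
  · have e1 : {t | (x, t) ∈ RE p S B J} = ⋂ n ∈ {n : ℕ | S^[n] x ∈ B}, (fun y : T => p ^ n • y) ⁻¹' Jᶜ := by
      ext t
      simp [RE, hx]
    rw [e1]
    exact isClosed_biInter fun n _ => hJo.isClosed_compl.preimage (continuous_const_smul (p ^ n))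
  · have e1 : {t : T | (x, t) ∈ RE p S B J} = ∅ := by
      ext t
      simp [RE, hx]
    rw [e1]
    exact isClosed_empty

theorem RE_inv (p : ℕ) (S : X → X) (B : Set X) (J : Set T) : ∀ z ∈ RE p S B J, (S z.1, p • z.2) ∈ RE p S B J := by
  rintro ⟨x, t⟩ ⟨hx, hz⟩
  refine ⟨Io_succ hx, fun n hn => ?_⟩
  have h1 := hz (n + 1) (by rw [Function.iterate_succ_apply]; exact hn)
  show p ^ n • p • t ∉ J
  rw [← mul_smul, ← pow_succ]
  exact h1

theorem RE_null {p : ℕ} (hp : 2 ≤ p) (μ : Measure X) [IsFiniteMeasure μ] {S : X → X} (hS : Measurable S) {B : Set X}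
    (hB : MeasurableSet B) {J : Set T} (hJo : IsOpen J) (hJ0 : J.Nonempty) :
    (μ.prod volume) (RE p S B J) = 0 := by
  rw [Measure.prod_apply (RE_meas p hS hB hJo)]
  have e1 : ∀ x, (volume : Measure T) (Prod.mk x ⁻¹' (RE p S B J)) = 0 := by
    intro x
    by_cases hx : x ∈ Io S B
    · have hinf : {n : ℕ | S^[n] x ∈ B}.Infinite := Nat.frequently_atTop_iff_infinite.1 hx
      refine measure_mono_null (fun t ht => ?_) (mix_null hp hinf hJo hJ0)
      exact fun n hn => ht.2 n hn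
    · refine measure_mono_null (t := ∅) (fun t ht => ?_) measure_empty
      exact hx ht.1
  simp only [e1, lintegral_zero]

/-- The orbit of `t` under `×p` along the visits of `x` to `B` is dense. -/
theorem return_Io {p q : ℕ} (h : MI p q) (μ : Measure X) [IsFiniteMeasure μ] {S : X → X}
    (hS : MeasurePreserving S μ μ) (ρ : Measure T) [IsFiniteMeasure ρ]
    (hρ : MeasurePreserving (fun x : T => q • x) ρ ρ) (hat : ∀ x, ρ {x} = 0) {B : Set X}
    (hB : MeasurableSet B) :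
    ∀ᵐ z ∂(μ.prod ρ), z.1 ∈ Io S B → Dense {y : T | ∃ n : ℕ, S^[n] z.1 ∈ B ∧ y = p ^ n • z.2} := by
  have key : ∀ J ∈ TopologicalSpace.countableBasis T, ∀ᵐ z ∂(μ.prod ρ), z.1 ∈ Io S B → J.Nonempty →
      ∃ n : ℕ, S^[n] z.1 ∈ B ∧ p ^ n • z.2 ∈ J := by
    intro J hJ
    by_cases hJ0 : J.Nonempty
    · have hJo : IsOpen J := TopologicalSpace.isOpen_of_mem_countableBasis hJ
      have h1 := null_random h μ hS (RE_meas p hS.measurable hB hJo) (RE_closed p S B hJo) (RE_inv p S B J)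
        (RE_null h.1 μ hS.measurable hB hJo hJ0) ρ hρ hat
      filter_upwards [measure_eq_zero_iff_ae_notMem.1 h1] with z hz hzi _
      by_contra hcon
      push Not at hcon
      exact hz ⟨hzi, hcon⟩
    · exact Eventually.of_forall fun z _ hx => absurd hx hJ0
  have h1 := (ae_ball_iff (TopologicalSpace.countable_countableBasis T)).2 key
  filter_upwards [h1] with z hz hzi
  rw [(TopologicalSpace.isBasis_countableBasis T).dense_iff]
  intro J hJ hJ0
  obtain ⟨n, hn, hnJ⟩ := hz J hJ hzi hJ0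
  exact ⟨p ^ n • z.2, hnJ, n, hn, rfl⟩

/-- **Return times.** -/
theorem return_dense {p q : ℕ} (h : MI p q) (μ : Measure X) [IsFiniteMeasure μ] {S : X → X}
    (hS : MeasurePreserving S μ μ) (ρ : Measure T) [IsFiniteMeasure ρ]
    (hρ : MeasurePreserving (fun x : T => q • x) ρ ρ) (hat : ∀ x, ρ {x} = 0) {B : Set X}
    (hB : MeasurableSet B) :
    ∀ᵐ z ∂(μ.prod ρ), (∃ k : ℕ, S^[k] z.1 ∈ B) →
      Dense {y : T | ∃ n : ℕ, S^[n] z.1 ∈ B ∧ y = p ^ n • z.2} := by
  have h1 : ∀ᵐ z ∂(μ.prod ρ), (∃ k : ℕ, S^[k] z.1 ∈ B) → z.1 ∈ Io S B :=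
    Measure.quasiMeasurePreserving_fst.ae (ae_Io hS hB)
  filter_upwards [h1, return_Io h μ hS ρ hρ hat hB] with z hz1 hz2 hz3
  exact hz2 (hz1 hz3)

/-- **Products.** If almost every orbit of `S` is dense in `X`, then almost every orbit of `S × (×p)` is dense. -/
theorem prod_dense {p q : ℕ} (h : MI p q) [TopologicalSpace X] [SecondCountableTopology X] [OpensMeasurableSpace X]
    (μ : Measure X) [IsFiniteMeasure μ] {S : X → X} (hS : MeasurePreserving S μ μ)
    (hd : ∀ᵐ x ∂μ, Dense (range fun n : ℕ => S^[n] x)) (ρ : Measure T) [IsFiniteMeasure ρ]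
    (hρ : MeasurePreserving (fun x : T => q • x) ρ ρ) (hat : ∀ x, ρ {x} = 0) :
    ∀ᵐ z ∂(μ.prod ρ), Dense (range fun n : ℕ => (S^[n] z.1, p ^ n • z.2)) := by
  have h1 : ∀ᵐ z ∂(μ.prod ρ), ∀ U ∈ TopologicalSpace.countableBasis X, (∃ k : ℕ, S^[k] z.1 ∈ U) →
      Dense {y : T | ∃ n : ℕ, S^[n] z.1 ∈ U ∧ y = p ^ n • z.2} :=
    (ae_ball_iff (TopologicalSpace.countable_countableBasis X)).2 fun U hU =>
      return_dense h μ hS ρ hρ hat (TopologicalSpace.isOpen_of_mem_countableBasis hU).measurableSet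
  have h2 : ∀ᵐ z ∂(μ.prod ρ), Dense (range fun n : ℕ => S^[n] z.1) :=
    Measure.quasiMeasurePreserving_fst.ae hd
  filter_upwards [h1, h2] with z hz1 hz2
  rw [dense_iff_inter_open]
  intro W hW hW0
  obtain ⟨⟨x₀, t₀⟩, hxt⟩ := hW0
  obtain ⟨U, V, hU, hV, hxU, htV, hUV⟩ := isOpen_prod_iff.1 hW x₀ t₀ hxt
  obtain ⟨U', hU', hxU', hUU'⟩ := (TopologicalSpace.isBasis_countableBasis X).exists_subset_of_mem_open hxU hU
  obtain ⟨y, hy, k, hk⟩ := hz2.inter_open_nonempty U' (TopologicalSpace.isOpen_of_mem_countableBasis hU') ⟨x₀, hxU'⟩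
  have h3 := hz1 U' hU' ⟨k, by
    have : S^[k] z.1 = y := hk
    rw [this]
    exact hy⟩
  obtain ⟨w, hw, n, hn, hwn⟩ := h3.inter_open_nonempty V hV ⟨t₀, htV⟩
  exact ⟨(S^[n] z.1, p ^ n • z.2), hUV ⟨hUU' hn, by rw [← hwn]; exact hw⟩, n, rfl⟩

end Pool.Agent.RSet
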