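import Pool.Agent.RSet.MovA
import Pool.Agent.RSet.Ret

/-!
# Moving targets: double counting
-/

set_option autoImplicit false

open MeasureTheory Filter Topology Set
open scoped ENNReal

namespace Pool.Agent.RSet

open Pool.Agent.NSet

variable {X : Type} [MeasurableSpace X]

theorem cnt_shift (D : Set ℕ) (i N : ℕ) : cnt D N ≤ cnt {n | n + i ∈ D} N + i := by
  classical
  unfold cnt
  have hsub : ((Finset.range N).filter fun d => d ∈ D) ⊆
      (((Finset.range N).filter fun n => n ∈ {n | n + i ∈ D}).image fun n => n + i) ∪ Finset.range i := by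
    intro d hd
    rw [Finset.mem_filter, Finset.mem_range] at hd
    rw [Finset.mem_union]
    by_cases hi : d < i
    · exact Or.inr (Finset.mem_range.2 hi)
    · refine Or.inl (Finset.mem_image.2 ⟨d - i, ?_, by omega⟩)
      rw [Finset.mem_filter, Finset.mem_range]
      refine ⟨by omega, ?_⟩
      show d - i + i ∈ D
      rw [Nat.sub_add_cancel (by omega)]
      exact hd.2
  refine (Finset.card_le_card hsub).trans ((Finset.card_union_le _ _).trans ?_)
  rw [Finset.card_range]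
  exact Nat.add_le_add_right Finset.card_image_le _

theorem cnt_eq_sum (D : Set ℕ) (N : ℕ) [DecidablePred (· ∈ D)] :
    cnt D N = ∑ n ∈ Finset.range N, if n ∈ D then 1 else 0 := by
  unfold cnt
  rw [Finset.card_filter]
  refine Finset.sum_congr rfl fun n _ => ?_
  congr

/-- double counting over windows of length `W` -/
theorem comb (D U : Set ℕ) (W m N : ℕ) (h : ∀ n, n ∉ U → cnt {i | n + i ∈ D} W ≤ m) :
    W * cnt D N ≤ W * W + m * N + W * cnt U N := by
  classical
  have h1 : W * cnt D N ≤ ∑ i ∈ Finset.range W, cnt {n | n + i ∈ D} N + W * W := by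
    calc W * cnt D N = ∑ _i ∈ Finset.range W, cnt D N := by rw [Finset.sum_const, Finset.card_range, smul_eq_mul]
      _ ≤ ∑ i ∈ Finset.range W, (cnt {n | n + i ∈ D} N + W) := by
        refine Finset.sum_le_sum fun i hi => (cnt_shift D i N).trans ?_
        rw [Finset.mem_range] at hi
        omega
      _ = ∑ i ∈ Finset.range W, cnt {n | n + i ∈ D} N + W * W := by
        rw [Finset.sum_add_distrib, Finset.sum_const, Finset.card_range, smul_eq_mul]
  have h2 : ∑ i ∈ Finset.range W, cnt {n | n + i ∈ D} N = ∑ n ∈ Finset.range N, cnt {i | n + i ∈ D} W := by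
    simp only [cnt_eq_sum]
    rw [Finset.sum_comm]
    rfl
  have h3 : ∑ n ∈ Finset.range N, cnt {i | n + i ∈ D} W ≤ m * N + W * cnt U N := by
    have h4 : ∀ n ∈ Finset.range N, cnt {i | n + i ∈ D} W ≤ m + W * (if n ∈ U then 1 else 0) := by
      intro n _
      by_cases hn : n ∈ U
      · rw [if_pos hn, mul_one]
        have h5 : cnt {i | n + i ∈ D} W ≤ W := by
          unfold cnt
          exact (Finset.card_filter_le _ _).trans (by rw [Finset.card_range])
        omega
      · rw [if_neg hn, mul_zero, add_zero]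
        exact h n hn
    refine (Finset.sum_le_sum h4).trans ?_
    rw [Finset.sum_add_distrib, Finset.sum_const, Finset.card_range, smul_eq_mul, ← Finset.mul_sum, cnt_eq_sum U N,
      mul_comm N m]
  omega

/-- the same with measures -/
theorem comb_meas (μ : Measure X) [IsProbabilityMeasure μ] (A V : ℕ → Set X) (hA : ∀ n, MeasurableSet (A n))
    (hV : ∀ n, MeasurableSet (V n)) (W m N : ℕ) (h : ∀ x n, x ∉ V n → cnt {i | x ∈ A (n + i)} W ≤ m) :
    W * ∑ n ∈ Finset.range N, μ.real (A n) ≤ W * W + m * N + W * ∑ n ∈ Finset.range N, μ.real (V n) := by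
  classical
  have hi : ∀ (C : ℕ → Set X), (∀ n, MeasurableSet (C n)) →
      Integrable (fun x => (cnt {n | x ∈ C n} N : ℝ)) μ ∧
        ∫ x, (cnt {n | x ∈ C n} N : ℝ) ∂μ = ∑ n ∈ Finset.range N, μ.real (C n) := by
    intro C hC
    have e1 : ∀ x, (cnt {n | x ∈ C n} N : ℝ) = ∑ n ∈ Finset.range N, (C n).indicator (fun _ => (1 : ℝ)) x := by
      intro x
      rw [cnt_eq_sum]
      push_cast
      refine Finset.sum_congr rfl fun n _ => ?_
      by_cases hx : x ∈ C n
      · simp [hx]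
      · simp [hx]
    have hint : ∀ n ∈ Finset.range N, Integrable ((C n).indicator (fun _ => (1 : ℝ))) μ := fun n _ =>
      (integrable_const (1 : ℝ)).indicator (hC n)
    simp only [e1]
    refine ⟨integrable_finsetSum _ hint, ?_⟩
    rw [integral_finsetSum _ hint]
    refine Finset.sum_congr rfl fun n _ => ?_
    rw [integral_indicator_const _ (hC n), smul_eq_mul, mul_one]
  obtain ⟨iA, eA⟩ := hi A hA
  obtain ⟨iV, eV⟩ := hi V hV
  rw [← eA, ← eV, ← integral_const_mul, ← integral_const_mul]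
  have h1 : ∫ x, (W : ℝ) * (cnt {n | x ∈ A n} N : ℝ) ∂μ ≤
      ∫ x, ((W * W + m * N : ℝ) + W * (cnt {n | x ∈ V n} N : ℝ)) ∂μ := by
    refine integral_mono (iA.const_mul _) ((integrable_const _).add (iV.const_mul _)) fun x => ?_
    have h2 := comb {n | x ∈ A n} {n | x ∈ V n} W m N fun n hn => h x n hn
    show (W : ℝ) * (cnt {n | x ∈ A n} N : ℝ) ≤ (W * W + m * N : ℝ) + W * (cnt {n | x ∈ V n} N : ℝ)
    exact_mod_cast h2
  rw [integral_add (integrable_const _) (iV.const_mul _), integral_const, probReal_univ, one_smul] at h1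
  exact h1

/-- **Moving targets, uniform form.** -/
theorem mov_uniform {p q : ℕ} (h : MI p q) (μ : Measure X) [IsProbabilityMeasure μ] {S : X → X}
    (hS : MeasurePreserving S μ μ) {B : Set X} (hB : MeasurableSet B) {r ε : ℝ} (hr : 0 < r) (hε : 0 < ε) :
    ∃ N Q : ℕ, 0 < N ∧ 0 < Q ∧ ∀ y : T, (Q * q ^ N) • y ≠ 0 → ∀ c : ℕ → X → T, (∀ k, Measurable (c k)) →
      ∑ n ∈ Finset.range N, μ.real {x | x ∈ Io S B ∧ ∀ k : ℕ, S^[k] x ∈ B → r ≤ dist (p ^ k • q ^ n • y) (c k x)} ≤
        ε * N := by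
  classical
  have hq : 2 ≤ q := h.2.1
  obtain ⟨m, hm⟩ := Vg_ne hq hr
  obtain ⟨W, hW⟩ := exists_nat_ge (4 * m / ε + 1)
  have hW0 : (0 : ℝ) < W := by
    have : 0 ≤ 4 * (m : ℝ) / ε := by positivity
    linarith
  set G : Finset (Finset ℕ) := (Finset.range W).powerset.filter fun g => m ≤ g.card with hG
  have hGm : ∀ g ∈ G, Vg q r g ≠ univ := fun g hg => hm g (Finset.mem_filter.1 hg).2
  set E : Set (X × T) := ⋃ g ∈ G, RE p S B (Vg q r g)ᶜ with hE
  have hopen : ∀ g, IsOpen (Vg q r g)ᶜ := fun g => (closed_Vg q r g).isOpen_compl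
  have hEm : MeasurableSet E := Finset.measurableSet_biUnion _ fun g _ => RE_meas p hS.measurable hB (hopen g)
  have hEcl : ∀ x, IsClosed {t | (x, t) ∈ E} := by
    intro x
    have e1 : {t | (x, t) ∈ E} = ⋃ g ∈ G, {t | (x, t) ∈ RE p S B (Vg q r g)ᶜ} := by
      ext t
      simp only [hE, mem_ofPred_eq, mem_iUnion]
    rw [e1]
    exact isClosed_biUnion_finset fun g _ => RE_closed p S B (hopen g) x
  have hEinv : ∀ z ∈ E, (S z.1, p • z.2) ∈ E := by
    intro z hz
    obtain ⟨g, hg, hzg⟩ := mem_iUnion₂.1 hz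
    exact mem_iUnion₂.2 ⟨g, hg, RE_inv p S B _ z hzg⟩
  have hE0 : (μ.prod volume) E = 0 := by
    have h1 := measure_biUnion_finset_le (μ := μ.prod (volume : Measure T)) G fun g => RE p S B (Vg q r g)ᶜ
    refine le_antisymm (h1.trans ?_) bot_le
    rw [Finset.sum_eq_zero fun g hg => RE_null h.1 μ hS.measurable hB (hopen g) (nonempty_compl.2 (hGm g hg))]
  obtain ⟨N₀, Q, hN₀, hQ, hun⟩ := uniform_random h μ hS hEm hEcl hEinv hE0 (c := ENNReal.ofReal (ε / 8))
    (ENNReal.ofReal_pos.2 (by positivity)).ne' (ε := ε / 8) (by positivity)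
  have hVm : ∀ y : T, MeasurableSet {x | (x, y) ∈ E} := fun y => fibre_meas hEm y
  have hle1 : ∀ C : Set X, μ.real C ≤ 1 := fun C => measureReal_le_one
  -- one block
  have hblock : ∀ y : T, (Q * q ^ N₀) • y ≠ 0 →
      ∑ n ∈ Finset.range N₀, μ.real {x | (x, q ^ n • y) ∈ E} ≤ ε / 4 * N₀ := by
    intro y hy
    have h1 := hun y hy
    rw [cnt_eq_sum] at h1
    push_cast at h1
    have h2 : ∀ n ∈ Finset.range N₀, μ.real {x | (x, q ^ n • y) ∈ E} ≤
        ε / 8 + (if n ∈ {n | ENNReal.ofReal (ε / 8) ≤ μ {x | (x, q ^ n • y) ∈ E}} then 1 else 0 : ℝ) := by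
      intro n _
      split_ifs with h3
      · have := hle1 {x | (x, q ^ n • y) ∈ E}
        linarith
      · have h4 : μ {x | (x, q ^ n • y) ∈ E} < ENNReal.ofReal (ε / 8) := not_le.1 h3
        rw [add_zero]
        exact ENNReal.toReal_le_of_le_ofReal (by positivity) h4.le
    refine (Finset.sum_le_sum h2).trans ?_
    rw [Finset.sum_add_distrib, Finset.sum_const, Finset.card_range, nsmul_eq_mul]
    have h5 : (N₀ : ℝ) * (ε / 8) + ε / 8 * N₀ = ε / 4 * N₀ := by ring
    linarith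
  -- all the blocks
  have hblocks : ∀ (R : ℕ) (y : T), (Q * q ^ (N₀ * R)) • y ≠ 0 →
      ∑ n ∈ Finset.range (N₀ * R), μ.real {x | (x, q ^ n • y) ∈ E} ≤ ε / 4 * (N₀ * R : ℕ) := by
    intro R
    induction R with
    | zero => intro y _; simp
    | succ R ih =>
      intro y hy
      have hy1 : (Q * q ^ (N₀ * R)) • y ≠ 0 := by
        intro h0
        apply hy
        have e1 : Q * q ^ (N₀ * (R + 1)) = q ^ N₀ * (Q * q ^ (N₀ * R)) := by
          rw [Nat.mul_succ, pow_add]
          ring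
        rw [e1, mul_smul, h0, smul_zero]
      have hy2 : (Q * q ^ N₀) • (q ^ (N₀ * R) • y) ≠ 0 := by
        intro h0
        apply hy
        rw [← mul_smul] at h0
        rw [Nat.mul_succ, pow_add]
        rw [← h0]
        congr 1
        ring
      have h1 := ih y hy1
      have h2 := hblock _ hy2
      rw [Nat.mul_succ, Finset.sum_range_add]
      have e2 : ∀ n : ℕ, q ^ n • q ^ (N₀ * R) • y = q ^ (N₀ * R + n) • y := by
        intro n
        rw [← mul_smul, ← pow_add, add_comm]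
      simp only [e2] at h2
      push_cast at h1 ⊢
      linarith
  obtain ⟨R, hR⟩ := exists_nat_ge (2 * W / ε + 1)
  have hR0 : (1 : ℝ) ≤ R := by
    have : 0 ≤ 2 * (W : ℝ) / ε := by positivity
    linarith
  have hRpos : 0 < R := by exact_mod_cast (lt_of_lt_of_le one_pos hR0)
  refine ⟨N₀ * R, Q, by positivity, hQ, fun y hy c hc => ?_⟩
  set A : ℕ → Set X := fun n =>
    {x | x ∈ Io S B ∧ ∀ k : ℕ, S^[k] x ∈ B → r ≤ dist (p ^ k • q ^ n • y) (c k x)} with hA
  set V : ℕ → Set X := fun n => {x | (x, q ^ n • y) ∈ E} with hV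
  have hAm : ∀ n, MeasurableSet (A n) := by
    intro n
    have e1 : A n = Io S B ∩ ⋂ k : ℕ, ((S^[k] ⁻¹' B)ᶜ ∪ {x | r ≤ dist (p ^ k • q ^ n • y) (c k x)}) := by
      ext x
      simp only [hA, mem_ofPred_eq, mem_inter_iff, mem_iInter, mem_union, mem_compl_iff, mem_preimage,
        imp_iff_not_or]
    rw [e1]
    refine (meas_Io hS.measurable hB).inter (MeasurableSet.iInter fun k => ?_)
    refine ((hS.measurable.iterate k) hB).compl.union ?_
    exact measurableSet_le measurable_const (measurable_const.dist (hc k))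
  have hpat : ∀ x n, x ∉ V n → cnt {i | x ∈ A (n + i)} W ≤ m := by
    intro x n hx
    by_contra hcon
    push Not at hcon
    apply hx
    set g : Finset ℕ := (Finset.range W).filter fun i => i ∈ {i | x ∈ A (n + i)} with hg
    have h0 : cnt {i | x ∈ A (n + i)} W = g.card := by
      unfold cnt
      rw [hg]
      congr
    have hgc : m ≤ g.card := by omega
    have hgG : g ∈ G := Finset.mem_filter.2 ⟨Finset.mem_powerset.2 (Finset.filter_subset _ _), hgc⟩
    have hgA : ∀ i ∈ g, x ∈ A (n + i) := fun i hi => (Finset.mem_filter.1 hi).2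
    have hne : g.Nonempty := Finset.card_pos.1 (by omega)
    obtain ⟨i₀, hi₀⟩ := hne
    refine mem_iUnion₂.2 ⟨g, hgG, (hgA i₀ hi₀).1, fun k hk hcompl => hcompl ⟨c k x, fun i hi => ?_⟩⟩
    have h2 := (hgA i hi).2 k hk
    have e2 : q ^ i • (p ^ k • q ^ n • y) = p ^ k • q ^ (n + i) • y := by
      rw [smul_smul, smul_smul, smul_smul]
      congr 1
      rw [pow_add]
      ring
    show r ≤ dist (q ^ i • (p ^ k • q ^ n • y)) (c k x)
    rw [e2]
    exact h2
  have hmain := comb_meas μ A V hAm (fun n => hVm _) W m (N₀ * R) hpat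
  have hVs := hblocks R y hy
  have hmW : (m : ℝ) ≤ ε / 4 * W := by
    have h1 : 4 * (m : ℝ) / ε ≤ W := by linarith
    rw [div_le_iff₀ hε] at h1
    linarith
  have hN : (W : ℝ) ≤ ε / 2 * (N₀ * R : ℕ) := by
    have h1 : 2 * (W : ℝ) / ε ≤ R := by linarith
    rw [div_le_iff₀ hε] at h1
    have h2 : (R : ℝ) ≤ (N₀ * R : ℕ) := by
      have : R ≤ N₀ * R := Nat.le_mul_of_pos_left R hN₀
      exact_mod_cast this
    have h3 : ε / 2 * (R : ℝ) ≤ ε / 2 * ((N₀ * R : ℕ) : ℝ) := mul_le_mul_of_nonneg_left h2 (by positivity)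
    linarith
  have hNN : (0 : ℝ) ≤ ((N₀ * R : ℕ) : ℝ) := by positivity
  have h1 : (m : ℝ) * ((N₀ * R : ℕ) : ℝ) ≤ ε / 4 * W * ((N₀ * R : ℕ) : ℝ) := mul_le_mul_of_nonneg_right hmW hNN
  have h2 : (W : ℝ) * W ≤ W * (ε / 2 * ((N₀ * R : ℕ) : ℝ)) := mul_le_mul_of_nonneg_left hN hW0.le
  have h3 : (W : ℝ) * ∑ n ∈ Finset.range (N₀ * R), μ.real (V n) ≤ W * (ε / 4 * ((N₀ * R : ℕ) : ℝ)) :=
    mul_le_mul_of_nonneg_left hVs hW0.le
  have h4 : (W : ℝ) * ∑ n ∈ Finset.range (N₀ * R), μ.real (A n) ≤ W * (ε * ((N₀ * R : ℕ) : ℝ)) := by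
    have h5 : W * (ε / 2 * ((N₀ * R : ℕ) : ℝ)) + ε / 4 * W * ((N₀ * R : ℕ) : ℝ) + W * (ε / 4 * ((N₀ * R : ℕ) : ℝ)) =
        W * (ε * ((N₀ * R : ℕ) : ℝ)) := by ring
    linarith
  exact le_of_mul_le_mul_left h4 hW0

end Pool.Agent.RSet
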