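import Pool.Agent.RSet.MovB

/-!
# Moving targets: dense sequences
-/

set_option autoImplicit false

open MeasureTheory Filter Topology Set
open scoped ENNReal

namespace Pool.Agent.RSet

open Pool.Agent.NSet

variable {X : Type} [MeasurableSpace X]

/-- a finite net -/
theorem ex_net {r : ℝ} (hr : 0 < r) : ∃ s : Finset T, ∀ c : T, ∃ z ∈ s, dist z c < r := by
  obtain ⟨s, hs⟩ := (isCompact_univ : IsCompact (univ : Set T)).elim_finite_subcover
    (fun z : T => Metric.ball z r) (fun z => Metric.isOpen_ball)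
    (fun c _ => mem_iUnion.2 ⟨c, Metric.mem_ball_self hr⟩)
  refine ⟨s, fun c => ?_⟩
  obtain ⟨z, hz⟩ := mem_iUnion.1 (hs (mem_univ c))
  obtain ⟨hzs, hzc⟩ := mem_iUnion.1 hz
  exact ⟨z, hzs, by rw [dist_comm]; exact hzc⟩

theorem mul_pow_ne {q Q Q' N N' : ℕ} {y : T} (hQ : Q ∣ Q') (hN : N ≤ N') (h : (Q' * q ^ N') • y ≠ 0) :
    (Q * q ^ N) • y ≠ 0 := by
  obtain ⟨a, rfl⟩ := hQ
  obtain ⟨b, rfl⟩ := Nat.exists_eq_add_of_le hN
  intro h0
  apply h
  have e1 : Q * a * q ^ (N + b) = a * q ^ b * (Q * q ^ N) := by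
    rw [pow_add]
    ring
  rw [e1, mul_smul, h0, smul_zero]

/-- **Moving targets at return times, uniform form.** For most `n` and most `x` the points `p ^ k q ^ n y + c k x`, where
`k` runs through the visits of `x` to `B`, meet every ball of radius `r`. -/
theorem mov_rel {p q : ℕ} (h : MI p q) (μ : Measure X) [IsProbabilityMeasure μ] {S : X → X}
    (hS : MeasurePreserving S μ μ) {B : Set X} (hB : MeasurableSet B) {r ε : ℝ} (hr : 0 < r) (hε : 0 < ε) :
    ∃ N Q : ℕ, 0 < N ∧ 0 < Q ∧ ∀ y : T, (Q * q ^ N) • y ≠ 0 → ∀ c : ℕ → X → T, (∀ k, Measurable (c k)) →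
      ∑ n ∈ Finset.range N, μ.real {x | (∃ k : ℕ, S^[k] x ∈ B) ∧ ∃ z : T, ∀ k : ℕ, S^[k] x ∈ B →
        r ≤ dist (p ^ k • q ^ n • y + c k x) z} ≤ ε * N := by
  classical
  obtain ⟨s, hs⟩ := ex_net (r := r / 2) (by positivity)
  set K : ℝ := (s.card : ℝ) + 1 with hK
  have hK0 : 0 < K := by positivity
  obtain ⟨N, Q, hN, hQ, hy⟩ := mov_uniform h μ hS hB (r := r / 2) (ε := ε / K) (by positivity) (by positivity)
  refine ⟨N, Q, hN, hQ, fun y hy0 c hc => ?_⟩
  -- one target for every point of the net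
  set A : T → ℕ → Set X := fun z n =>
    {x | x ∈ Io S B ∧ ∀ k : ℕ, S^[k] x ∈ B → r / 2 ≤ dist (p ^ k • q ^ n • y) (z - c k x)} with hA
  have h1 : ∀ z : T, ∑ n ∈ Finset.range N, μ.real (A z n) ≤ ε / K * N := fun z =>
    hy y hy0 (fun k x => z - c k x) fun k => measurable_const.sub (hc k)
  have hdist : ∀ (a b z : T), dist a (z - b) = dist (a + b) z := by
    intro a b z
    rw [dist_eq_norm, dist_eq_norm]
    congr 1
    abel
  have h2 : ∀ n, μ.real {x | (∃ k : ℕ, S^[k] x ∈ B) ∧ ∃ z : T, ∀ k : ℕ, S^[k] x ∈ B →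
      r ≤ dist (p ^ k • q ^ n • y + c k x) z} ≤ ∑ z ∈ s, μ.real (A z n) := by
    intro n
    have h3 : μ.real {x | (∃ k : ℕ, S^[k] x ∈ B) ∧ ∃ z : T, ∀ k : ℕ, S^[k] x ∈ B →
        r ≤ dist (p ^ k • q ^ n • y + c k x) z} ≤ μ.real (⋃ z ∈ s, A z n) := by
      refine ENNReal.toReal_mono (measure_ne_top _ _) (measure_mono_ae ?_)
      filter_upwards [ae_Io hS hB] with x hx hxA
      obtain ⟨hk, w, hw⟩ := hxA
      obtain ⟨z, hzs, hzw⟩ := hs w
      refine mem_iUnion₂.2 ⟨z, hzs, hx hk, fun k hkB => ?_⟩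
      rw [hdist]
      have h4 := hw k hkB
      have h5 := dist_triangle (p ^ k • q ^ n • y + c k x) z w
      linarith
    exact h3.trans (measureReal_biUnion_finset_le s fun z => A z n)
  refine (Finset.sum_le_sum fun n _ => h2 n).trans ?_
  rw [Finset.sum_comm]
  refine (Finset.sum_le_sum fun z _ => h1 z).trans ?_
  rw [Finset.sum_const, nsmul_eq_mul]
  have hN0 : (0 : ℝ) ≤ N := by positivity
  have h6 : (s.card : ℝ) * (ε / K * N) ≤ K * (ε / K * N) := by
    apply mul_le_mul_of_nonneg_right _ (by positivity)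
    rw [hK]
    linarith
  refine h6.trans (le_of_eq ?_)
  field_simp

/-- the set `A` of natural numbers has gaps at most `L` -/
def Syn (A : Set ℕ) (L : ℕ) : Prop := ∀ n : ℕ, ∃ k ∈ A, n ≤ k ∧ k ≤ n + L

/-- **Moving targets along syndetic sets.** -/
theorem mov_syn {p q : ℕ} (h : MI p q) (L : ℕ) {r ε : ℝ} (hr : 0 < r) (hε : 0 < ε) :
    ∃ N Q : ℕ, 0 < N ∧ 0 < Q ∧ ∀ y : T, (Q * q ^ N) • y ≠ 0 → ∀ A : Set ℕ, Syn A L → ∀ c : ℕ → T,
      (cnt {n | ∃ z : T, ∀ k ∈ A, r ≤ dist (p ^ k • q ^ n • y + c k) z} N : ℝ) ≤ ε * N := by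
  classical
  have hp : 2 ≤ p := h.1
  have hp0 : (0 : ℝ) < p := by exact_mod_cast (by omega : 0 < p)
  obtain ⟨s, hs⟩ := ex_net (r := r / 2) (by positivity)
  set K : ℝ := (s.card : ℝ) + 1 with hK
  have hK0 : 0 < K := by positivity
  have hr' : 0 < r / 2 / (p : ℝ) ^ L := by positivity
  obtain ⟨N, Q, hN, hQ, hy⟩ := mov_uniform (X := Unit) h (Measure.dirac ()) (S := id) (MeasurePreserving.id _)
    (B := univ) MeasurableSet.univ (ε := ε / K) hr' (by positivity)
  refine ⟨N, Q, hN, hQ, fun y hy0 A hA c => ?_⟩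
  choose f hfA hf1 hf2 using hA
  have hex : ∀ (z : T) (k : ℕ), ∃ x : T, p ^ (f k - k) • x = z - c (f k) := fun z k => by
    obtain ⟨x, hx, -⟩ := ex_near (M := p ^ (f k - k)) (by positivity) (z - c (f k)) 0
    exact ⟨x, hx⟩
  choose c' hc' using hex
  have hIo : (() : Unit) ∈ Io (id : Unit → Unit) univ := by
    show ∃ᶠ n in atTop, (id : Unit → Unit)^[n] () ∈ (univ : Set Unit)
    exact Frequently.of_forall fun n => mem_univ _
  have h1 : ∀ z : T, (cnt {n | ∀ k ∈ A, r / 2 ≤ dist (p ^ k • q ^ n • y + c k) z} N : ℝ) ≤ ε / K * N := by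
    intro z
    have h2 := hy y hy0 (fun k _ => c' z k) fun k => measurable_const
    refine le_trans ?_ h2
    rw [cnt_eq_sum]
    push_cast
    refine Finset.sum_le_sum fun n _ => ?_
    split_ifs with h3
    · have e1 : {x : Unit | x ∈ Io (id : Unit → Unit) univ ∧ ∀ k : ℕ, (id : Unit → Unit)^[k] x ∈ (univ : Set Unit) →
          r / 2 / (p : ℝ) ^ L ≤ dist (p ^ k • q ^ n • y) (c' z k)} = univ := by
        refine eq_univ_of_forall fun x => ⟨hIo, fun k _ => ?_⟩
        have h4 := h3 (f k) (hfA k)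
        have h5 : p ^ f k • q ^ n • y + c (f k) - z = p ^ (f k - k) • (p ^ k • q ^ n • y - c' z k) := by
          rw [smul_sub, hc', smul_smul (p ^ (f k - k)), ← pow_add, Nat.sub_add_cancel (hf1 k)]
          abel
        rw [dist_eq_norm, h5] at h4
        have h6 : ‖p ^ (f k - k) • (p ^ k • q ^ n • y - c' z k)‖ ≤
            ((p ^ (f k - k) : ℕ) : ℝ) * ‖p ^ k • q ^ n • y - c' z k‖ := norm_nsmul_le
        have h7 : ((p ^ (f k - k) : ℕ) : ℝ) ≤ (p : ℝ) ^ L := by
          push_cast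
          exact pow_le_pow_right₀ (by exact_mod_cast (by omega : 1 ≤ p)) (by have := hf2 k; omega)
        rw [div_le_iff₀ (by positivity), dist_eq_norm]
        have h8 : ((p ^ (f k - k) : ℕ) : ℝ) * ‖p ^ k • q ^ n • y - c' z k‖ ≤
            (p : ℝ) ^ L * ‖p ^ k • q ^ n • y - c' z k‖ := mul_le_mul_of_nonneg_right h7 (norm_nonneg _)
        linarith [mul_comm ‖p ^ k • q ^ n • y - c' z k‖ ((p : ℝ) ^ L)]
      rw [e1, probReal_univ]
    · exact measureReal_nonneg
  have h2 : (cnt {n | ∃ z : T, ∀ k ∈ A, r ≤ dist (p ^ k • q ^ n • y + c k) z} N : ℝ) ≤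
      ∑ z ∈ s, (cnt {n | ∀ k ∈ A, r / 2 ≤ dist (p ^ k • q ^ n • y + c k) z} N : ℝ) := by
    simp only [cnt_eq_sum]
    push_cast
    rw [Finset.sum_comm]
    refine Finset.sum_le_sum fun n _ => ?_
    split_ifs with h3
    · obtain ⟨w, hw⟩ := h3
      obtain ⟨z, hzs, hzw⟩ := hs w
      refine le_trans ?_ (Finset.single_le_sum (f := fun z => (if n ∈ {n | ∀ k ∈ A,
        r / 2 ≤ dist (p ^ k • q ^ n • y + c k) z} then 1 else 0 : ℝ)) (fun z _ => by split_ifs <;> norm_num) hzs)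
      have h4 : n ∈ {n | ∀ k ∈ A, r / 2 ≤ dist (p ^ k • q ^ n • y + c k) z} := by
        intro k hk
        have h5 := hw k hk
        have h6 := dist_triangle (p ^ k • q ^ n • y + c k) z w
        linarith
      rw [if_pos h4]
    · exact Finset.sum_nonneg fun z _ => by split_ifs <;> norm_num
  refine h2.trans ((Finset.sum_le_sum fun z _ => h1 z).trans ?_)
  rw [Finset.sum_const, nsmul_eq_mul]
  have hN0 : (0 : ℝ) ≤ N := by positivity
  have h6 : (s.card : ℝ) * (ε / K * N) ≤ K * (ε / K * N) := by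
    apply mul_le_mul_of_nonneg_right _ (by positivity)
    rw [hK]
    linarith
  refine h6.trans (le_of_eq ?_)
  field_simp

/-- from the uniform form to invariant measures -/
theorem null_of_uniform {q : ℕ} (hq : 2 ≤ q) (ρ : Measure T) [IsProbabilityMeasure ρ]
    (hρ : MeasurePreserving (fun x : T => q • x) ρ ρ) (hat : ∀ x, ρ {x} = 0) {F : T → ℝ≥0∞} (hF : Measurable F)
    (hu : ∀ ε : ℝ, 0 < ε → ∃ N Q : ℕ, 0 < N ∧ 0 < Q ∧ ∀ y : T, (Q * q ^ N) • y ≠ 0 →
      ∑ n ∈ Finset.range N, F (q ^ n • y) ≤ ENNReal.ofReal (ε * N)) : ∫⁻ t, F t ∂ρ = 0 := by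
  have hle : ∀ ε : ℝ, 0 < ε → ∫⁻ t, F t ∂ρ ≤ ENNReal.ofReal ε := by
    intro ε hε
    obtain ⟨N, Q, hN, hQ, hy⟩ := hu ε hε
    have hinv : ∀ n : ℕ, ∫⁻ t, F (q ^ n • t) ∂ρ = ∫⁻ t, F t ∂ρ := by
      intro n
      have h1 : MeasurePreserving (fun x : T => q ^ n • x) ρ ρ := by
        have e1 : (fun x : T => q ^ n • x) = (fun x : T => q • x)^[n] := by
          rw [smul_iterate]
        rw [e1]
        exact hρ.iterate n
      exact h1.lintegral_comp hF
    have hfin : ρ {y : T | (Q * q ^ N) • y = 0} = 0 := by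
      have h1 : {y : T | (Q * q ^ N) • y = 0}.Finite := AddCircle.finite_torsion _ (by positivity)
      have h2 : NullSingletonClass ρ := ⟨hat⟩
      exact h1.measure_zero ρ
    have hae : ∀ᵐ y ∂ρ, ∑ n ∈ Finset.range N, F (q ^ n • y) ≤ ENNReal.ofReal (ε * N) := by
      filter_upwards [measure_eq_zero_iff_ae_notMem.1 hfin] with y hy0
      exact hy y hy0
    have h2 : ∫⁻ y, ∑ n ∈ Finset.range N, F (q ^ n • y) ∂ρ ≤ ENNReal.ofReal (ε * N) := by
      refine (lintegral_mono_ae hae).trans ?_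
      rw [lintegral_const, measure_univ, mul_one]
    have hm : ∀ n ∈ Finset.range N, Measurable fun y : T => F (q ^ n • y) := fun n _ =>
      hF.comp (continuous_const_smul (q ^ n)).measurable
    rw [lintegral_finsetSum _ hm] at h2
    simp only [hinv, Finset.sum_const, Finset.card_range, nsmul_eq_mul] at h2
    rw [mul_comm ε, ENNReal.ofReal_mul (by positivity), ENNReal.ofReal_natCast] at h2
    exact (ENNReal.mul_le_mul_iff_right (by exact_mod_cast hN.ne') (ENNReal.natCast_ne_top N)).1 h2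
  refine le_antisymm (ENNReal.le_of_forall_pos_le_add fun ε hε _ => ?_) bot_le
  rw [zero_add]
  have h1 := hle ε (by exact_mod_cast hε)
  rwa [ENNReal.ofReal_coe_nnreal] at h1

end Pool.Agent.RSet
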