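import Pool.Agent.RSet.MovC

/-!
# Moving targets for invariant measures
-/

set_option autoImplicit false

open MeasureTheory Filter Topology Set
open scoped ENNReal

namespace Pool.Agent.RSet

open Pool.Agent.NSet

variable {X : Type} [MeasurableSpace X]

theorem dense_of_balls {s : Set T} (h : ∀ i j : ℕ, ∃ y ∈ s, dist y (TopologicalSpace.denseSeq T i) < 1 / ((j : ℝ) + 1)) :
    Dense s := by
  rw [Metric.dense_iff]
  intro w r hr
  obtain ⟨_, hz, i, rfl⟩ := (TopologicalSpace.denseRange_denseSeq T).inter_open_nonempty (Metric.ball w (r / 2))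
    Metric.isOpen_ball ⟨w, Metric.mem_ball_self (by positivity)⟩
  obtain ⟨j, hj⟩ := exists_nat_one_div_lt (show (0 : ℝ) < r / 2 by positivity)
  obtain ⟨y, hys, hy⟩ := h i j
  refine ⟨y, ?_, hys⟩
  rw [Metric.mem_ball] at hz ⊢
  have h1 := dist_triangle y (TopologicalSpace.denseSeq T i) w
  linarith

theorem mov_meas {p : ℕ} {S : X → X} (hS : Measurable S) {B : Set X} (hB : MeasurableSet B) (r : ℝ)
    {c : ℕ → X → T} (hc : ∀ k, Measurable (c k)) :
    MeasurableSet {z : X × T | z.1 ∈ Io S B ∧ ∀ k : ℕ, S^[k] z.1 ∈ B → r ≤ dist (p ^ k • z.2) (c k z.1)} := by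
  have e1 : {z : X × T | z.1 ∈ Io S B ∧ ∀ k : ℕ, S^[k] z.1 ∈ B → r ≤ dist (p ^ k • z.2) (c k z.1)} =
      (Prod.fst ⁻¹' Io S B) ∩ ⋂ k : ℕ, ((Prod.fst ⁻¹' ((S^[k]) ⁻¹' B))ᶜ ∪
        {z : X × T | r ≤ dist (p ^ k • z.2) (c k z.1)}) := by
    ext z
    simp only [mem_ofPred_eq, mem_inter_iff, mem_preimage, mem_iInter, mem_union, mem_compl_iff, imp_iff_not_or]
  rw [e1]
  refine (measurable_fst (meas_Io hS hB)).inter (MeasurableSet.iInter fun k => ?_)
  refine (measurable_fst ((hS.iterate k) hB)).compl.union ?_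
  refine measurableSet_le measurable_const (Measurable.dist ?_ ((hc k).comp measurable_fst))
  exact (continuous_const_smul (p ^ k)).measurable.comp measurable_snd

/-- **Moving targets at return times.** -/
theorem rel_dense {p q : ℕ} (h : MI p q) (μ : Measure X) [IsProbabilityMeasure μ] {S : X → X}
    (hS : MeasurePreserving S μ μ) {B : Set X} (hB : MeasurableSet B) (c : ℕ → X → T) (hc : ∀ k, Measurable (c k))
    (ρ : Measure T) [IsProbabilityMeasure ρ] (hρ : MeasurePreserving (fun x : T => q • x) ρ ρ)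
    (hat : ∀ x, ρ {x} = 0) :
    ∀ᵐ z ∂(μ.prod ρ), (∃ k : ℕ, S^[k] z.1 ∈ B) →
      Dense {y : T | ∃ k : ℕ, S^[k] z.1 ∈ B ∧ y = p ^ k • z.2 + c k z.1} := by
  have key : ∀ i j : ℕ, ∀ᵐ z ∂(μ.prod ρ), z.1 ∈ Io S B → ∃ k : ℕ, S^[k] z.1 ∈ B ∧
      dist (p ^ k • z.2 + c k z.1) (TopologicalSpace.denseSeq T i) < 1 / ((j : ℝ) + 1) := by
    intro i j
    set r : ℝ := 1 / ((j : ℝ) + 1) with hr
    have hr0 : 0 < r := by positivity
    have hc' : ∀ k, Measurable fun x => TopologicalSpace.denseSeq T i - c k x := fun k =>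
      measurable_const.sub (hc k)
    have hm := mov_meas (p := p) hS.measurable hB r hc'
    set E : Set (X × T) := {z : X × T | z.1 ∈ Io S B ∧ ∀ k : ℕ, S^[k] z.1 ∈ B →
      r ≤ dist (p ^ k • z.2) (TopologicalSpace.denseSeq T i - c k z.1)} with hE
    have h0 : (μ.prod ρ) E = 0 := by
      rw [Measure.prod_apply_symm hm]
      refine null_of_uniform h.2.1 ρ hρ hat (measurable_measure_prodMk_right hm) fun ε hε => ?_
      obtain ⟨N, Q, hN, hQ, hy⟩ := mov_uniform h μ hS hB hr0 hε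
      refine ⟨N, Q, hN, hQ, fun y hy0 => ?_⟩
      have h1 := hy y hy0 _ hc'
      have h2 : ∀ n ∈ Finset.range N, μ ((fun x => (x, q ^ n • y)) ⁻¹' E) = ENNReal.ofReal (μ.real {x | x ∈ Io S B ∧
          ∀ k : ℕ, S^[k] x ∈ B → r ≤ dist (p ^ k • q ^ n • y) (TopologicalSpace.denseSeq T i - c k x)}) := by
        intro n _
        rw [ofReal_measureReal]
        rfl
      rw [Finset.sum_congr rfl h2, ← ENNReal.ofReal_sum_of_nonneg fun n _ => measureReal_nonneg]
      exact ENNReal.ofReal_le_ofReal h1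
    filter_upwards [measure_eq_zero_iff_ae_notMem.1 h0] with z hz hzi
    by_contra hcon
    push Not at hcon
    refine hz ⟨hzi, fun k hk => ?_⟩
    have h1 := hcon k hk
    rw [dist_eq_norm] at h1 ⊢
    have e1 : p ^ k • z.2 - (TopologicalSpace.denseSeq T i - c k z.1) =
        p ^ k • z.2 + c k z.1 - TopologicalSpace.denseSeq T i := by abel
    rw [e1]
    exact h1
  have h1 : ∀ᵐ z ∂(μ.prod ρ), ∀ i j : ℕ, z.1 ∈ Io S B → ∃ k : ℕ, S^[k] z.1 ∈ B ∧
      dist (p ^ k • z.2 + c k z.1) (TopologicalSpace.denseSeq T i) < 1 / ((j : ℝ) + 1) :=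
    ae_all_iff.2 fun i => ae_all_iff.2 fun j => key i j
  have h2 : ∀ᵐ z ∂(μ.prod ρ), (∃ k : ℕ, S^[k] z.1 ∈ B) → z.1 ∈ Io S B :=
    Measure.quasiMeasurePreserving_fst.ae (ae_Io hS hB)
  filter_upwards [h1, h2] with z hz1 hz2 hz3
  refine dense_of_balls fun i j => ?_
  obtain ⟨k, hk, hd⟩ := hz1 i j (hz2 hz3)
  exact ⟨_, ⟨k, hk, rfl⟩, hd⟩

/-- **Moving targets along syndetic sets.** -/
theorem syn_dense {p q : ℕ} (h : MI p q) (A : Set ℕ) (L : ℕ) (hA : Syn A L) (c : ℕ → T)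
    (ρ : Measure T) [IsProbabilityMeasure ρ] (hρ : MeasurePreserving (fun x : T => q • x) ρ ρ)
    (hat : ∀ x, ρ {x} = 0) : ∀ᵐ t ∂ρ, Dense {y : T | ∃ k ∈ A, y = p ^ k • t + c k} := by
  classical
  have key : ∀ i j : ℕ, ∀ᵐ t ∂ρ, ∃ k ∈ A,
      dist (p ^ k • t + c k) (TopologicalSpace.denseSeq T i) < 1 / ((j : ℝ) + 1) := by
    intro i j
    set r : ℝ := 1 / ((j : ℝ) + 1) with hr
    have hr0 : 0 < r := by positivity
    set C : Set T := {t | ∀ k ∈ A, r ≤ dist (p ^ k • t + c k) (TopologicalSpace.denseSeq T i)} with hC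
    have hCc : IsClosed C := by
      have e1 : C = ⋂ k ∈ A, {t : T | r ≤ dist (p ^ k • t + c k) (TopologicalSpace.denseSeq T i)} := by
        ext t
        simp only [hC, mem_ofPred_eq, mem_iInter]
      rw [e1]
      exact isClosed_biInter fun k _ => isClosed_le continuous_const (by fun_prop)
    have h0 : ∫⁻ t, C.indicator 1 t ∂ρ = 0 := by
      refine null_of_uniform h.2.1 ρ hρ hat (measurable_one.indicator hCc.measurableSet) fun ε hε => ?_
      obtain ⟨N, Q, hN, hQ, hy⟩ := mov_syn h L hr0 hε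
      refine ⟨N, Q, hN, hQ, fun y hy0 => ?_⟩
      have h1 := hy y hy0 A hA c
      have h2 : ∑ n ∈ Finset.range N, C.indicator (1 : T → ℝ≥0∞) (q ^ n • y) ≤
          ((cnt {n | ∃ z : T, ∀ k ∈ A, r ≤ dist (p ^ k • q ^ n • y + c k) z} N : ℕ) : ℝ≥0∞) := by
        rw [cnt_eq_sum]
        push_cast
        refine Finset.sum_le_sum fun n _ => ?_
        by_cases hn : q ^ n • y ∈ C
        · rw [indicator_of_mem hn, if_pos (show n ∈ {n | ∃ z : T, ∀ k ∈ A, r ≤ dist (p ^ k • q ^ n • y + c k) z} from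
            ⟨_, hn⟩)]
          exact le_rfl
        · rw [indicator_of_notMem hn]
          exact bot_le
      refine h2.trans ?_
      rw [← ENNReal.ofReal_natCast]
      exact ENNReal.ofReal_le_ofReal h1
    rw [lintegral_indicator_one hCc.measurableSet] at h0
    filter_upwards [measure_eq_zero_iff_ae_notMem.1 h0] with t ht
    by_contra hcon
    push Not at hcon
    exact ht fun k hk => hcon k hk
  have h1 : ∀ᵐ t ∂ρ, ∀ i j : ℕ, ∃ k ∈ A,
      dist (p ^ k • t + c k) (TopologicalSpace.denseSeq T i) < 1 / ((j : ℝ) + 1) :=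
    ae_all_iff.2 fun i => ae_all_iff.2 fun j => key i j
  filter_upwards [h1] with t ht
  refine dense_of_balls fun i j => ?_
  obtain ⟨k, hk, hd⟩ := ht i j
  exact ⟨_, ⟨k, hk, rfl⟩, hd⟩

end Pool.Agent.RSet
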