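import Pool.Agent.RSet.PiUpp

/-!
# Moving targets: finite windows and positive density of the hits
-/

set_option autoImplicit false

open MeasureTheory Filter Topology Set
open scoped ENNReal

namespace Pool.Agent.RSet

open Pool.Agent.NSet

theorem cnt_add_le (H : Set ℕ) (k S : ℕ) : cnt {s | s + k ∈ H} S ≤ cnt H S + k := by
  classical
  unfold cnt
  have h1 : (((Finset.range S).filter fun s => s ∈ {s | s + k ∈ H}).image fun s => s + k) ⊆
      ((Finset.range S).filter fun d => d ∈ H) ∪ Finset.Ico S (S + k) := by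
    intro d hd
    obtain ⟨s, hs, rfl⟩ := Finset.mem_image.1 hd
    rw [Finset.mem_filter, Finset.mem_range] at hs
    rw [Finset.mem_union, Finset.mem_filter, Finset.mem_range, Finset.mem_Ico]
    have h2 : s + k ∈ H := hs.2
    by_cases h : s + k < S
    · exact Or.inl ⟨h, h2⟩
    · exact Or.inr (by omega)
  have h2 : (((Finset.range S).filter fun s => s ∈ {s | s + k ∈ H}).image fun s => s + k).card =
      ((Finset.range S).filter fun s => s ∈ {s | s + k ∈ H}).card :=
    Finset.card_image_of_injective _ fun a b hab => by simpa using hab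
  have h3 := (Finset.card_le_card h1).trans (Finset.card_union_le _ _)
  rw [h2, Nat.card_Ico] at h3
  omega

theorem union_le (W : Set ℕ) (D : ℕ → Set ℕ) (K S : ℕ) (h : ∀ s ∈ W, ∃ k < K, s ∈ D k) :
    cnt W S ≤ ∑ k ∈ Finset.range K, cnt (D k) S := by
  classical
  unfold cnt
  refine (Finset.card_le_card (t := (Finset.range K).biUnion fun k =>
    (Finset.range S).filter fun s => s ∈ D k) ?_).trans Finset.card_biUnion_le
  intro s hs
  obtain ⟨hs1, hs2⟩ := Finset.mem_filter.1 hs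
  obtain ⟨k, hk, hsk⟩ := h s hs2
  exact Finset.mem_biUnion.2 ⟨k, Finset.mem_range.2 hk, Finset.mem_filter.2 ⟨hs1, hsk⟩⟩

/-- the number of windows with a hit -/
theorem win_le (H : Set ℕ) (K S : ℕ) : cnt {s | ∃ k < K, s + k ∈ H} S ≤ K * cnt H S + K * K := by
  classical
  have h1 : cnt {s | ∃ k < K, s + k ∈ H} S ≤ ∑ k ∈ Finset.range K, cnt {s | s + k ∈ H} S :=
    union_le _ (fun k => {s | s + k ∈ H}) K S fun s hs => hs
  refine h1.trans ?_
  calc ∑ k ∈ Finset.range K, cnt {s | s + k ∈ H} S ≤ ∑ _k ∈ Finset.range K, (cnt H S + K) :=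
        Finset.sum_le_sum fun k hk => (cnt_add_le H k S).trans (by rw [Finset.mem_range] at hk; omega)
    _ = K * cnt H S + K * K := by rw [Finset.sum_const, Finset.card_range, smul_eq_mul, mul_add]

theorem cnt_compl (D : Set ℕ) (S : ℕ) : cnt D S + cnt Dᶜ S = S := by
  classical
  have h1 : cnt D S + cnt Dᶜ S = ∑ n ∈ Finset.range S, 1 := by
    rw [cnt_eq_sum, cnt_eq_sum, ← Finset.sum_add_distrib]
    refine Finset.sum_congr rfl fun n _ => ?_
    by_cases hn : n ∈ D
    · rw [if_pos hn, if_neg (by simpa using hn)]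
    · rw [if_neg hn, if_pos (by simpa using hn)]
  rw [h1, Finset.sum_const, Finset.card_range, smul_eq_mul, mul_one]

/-- **Moving targets, finite windows.** -/
theorem mov_win {p q : ℕ} (h : MI p q) (L : ℕ) {r ε : ℝ} (hr : 0 < r) (hε : 0 < ε) :
    ∃ N m : ℕ, 0 < N ∧ 0 < m ∧ ∀ κ : ℝ, 0 < κ → ∃ K : ℕ, 0 < K ∧ ∀ y : T, κ ≤ ‖m • y‖ → ∀ A : Set ℕ, Syn A L →
      ∀ c : ℕ → T, (cnt {n | ∃ z : T, ∀ k < K, k ∈ A → r ≤ dist (p ^ k • q ^ n • y + c k) z} N : ℝ) ≤ ε * N := by
  classical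
  obtain ⟨N, Q, hN, hQ, hmain⟩ := mov_syn h L hr hε
  have hq : 0 < q := lt_of_lt_of_le (by norm_num) h.2.1
  refine ⟨N, Q * q ^ N, hN, Nat.mul_pos hQ (pow_pos hq N), fun κ hκ => ?_⟩
  have key : ∀ g : Finset ℕ, g ⊆ Finset.range N → ε * N < g.card → ∃ K : ℕ, ∀ y : T, κ ≤ ‖(Q * q ^ N) • y‖ →
      ∀ A : Set ℕ, Syn A L → ∀ c : ℕ → T,
        ∃ n ∈ g, ∀ z : T, ∃ k < K, k ∈ A ∧ dist (p ^ k • q ^ n • y + c k) z < r := by
    intro g hg hcard
    by_contra hcon
    push Not at hcon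
    set Z : ℕ → Set ((ℕ → Bool × T) × T × (ℕ → T)) := fun K =>
      {w | (∀ m, ∃ k ∈ Finset.range (L + 1), (w.1 (m + k)).1 = true) ∧ κ ≤ ‖(Q * q ^ N) • w.2.1‖ ∧
        ∀ n ∈ g, ∀ k < K, ((w.1 k).1 = false ∨ r ≤ dist (p ^ k • q ^ n • w.2.1 + (w.1 k).2) (w.2.2 n))} with hZ
    have hc1 : ∀ j : ℕ, Continuous fun w : (ℕ → Bool × T) × T × (ℕ → T) => (w.1 j).1 := fun j =>
      continuous_fst.comp ((continuous_apply j).comp continuous_fst)
    have hc2 : ∀ j : ℕ, Continuous fun w : (ℕ → Bool × T) × T × (ℕ → T) => (w.1 j).2 := fun j =>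
      continuous_snd.comp ((continuous_apply j).comp continuous_fst)
    have hc3 : Continuous fun w : (ℕ → Bool × T) × T × (ℕ → T) => w.2.1 := continuous_fst.comp continuous_snd
    have hc4 : ∀ j : ℕ, Continuous fun w : (ℕ → Bool × T) × T × (ℕ → T) => w.2.2 j := fun j =>
      (continuous_apply j).comp (continuous_snd.comp continuous_snd)
    have hcl : ∀ K, IsClosed (Z K) := by
      intro K
      have e1 : Z K = (⋂ m, ⋃ k ∈ (Finset.range (L + 1) : Set ℕ), {w | (w.1 (m + k)).1 = true}) ∩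
          ({w | κ ≤ ‖(Q * q ^ N) • w.2.1‖} ∩ ⋂ n ∈ g, ⋂ k, ⋂ (_ : k < K), ({w | (w.1 k).1 = false} ∪
            {w | r ≤ dist (p ^ k • q ^ n • w.2.1 + (w.1 k).2) (w.2.2 n)})) := by
        ext w
        simp only [hZ, mem_ofPred_eq, mem_inter_iff, mem_iInter, mem_iUnion, mem_union, Finset.mem_coe, exists_prop]
      rw [e1]
      refine IsClosed.inter (isClosed_iInter fun m => ?_) (IsClosed.inter ?_ ?_)
      · exact Set.Finite.isClosed_biUnion (Finset.finite_toSet _) fun k _ =>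
          isClosed_eq (hc1 (m + k)) continuous_const
      · exact isClosed_le continuous_const ((hc3.nsmul _).norm)
      · refine isClosed_iInter fun n => isClosed_iInter fun _ => isClosed_iInter fun k => isClosed_iInter fun _ => ?_
        refine IsClosed.union (isClosed_eq (hc1 k) continuous_const) ?_
        exact isClosed_le continuous_const
          ((((hc3.nsmul _).nsmul _).add (hc2 k)).dist (hc4 n))
    have hanti : ∀ K, Z (K + 1) ⊆ Z K := fun K w hw =>
      ⟨hw.1, hw.2.1, fun n hn k hk => hw.2.2 n hn k (by omega)⟩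
    have hne : ∀ K, (Z K).Nonempty := by
      intro K
      obtain ⟨y, hy, A, hA, c, hn⟩ := hcon K
      choose! z hz using hn
      refine ⟨(fun k => (decide (k ∈ A), c k), y, z), ?_, hy, ?_⟩
      · intro m
        obtain ⟨k, hk, h1, h2⟩ := hA m
        refine ⟨k - m, Finset.mem_range.2 (by omega), ?_⟩
        have h3 : m + (k - m) = k := by omega
        simp only [h3, hk, decide_true]
      · intro n hn k hk
        by_cases hkA : k ∈ A
        · exact Or.inr (hz n hn k hk hkA)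
        · exact Or.inl (by simp only [hkA, decide_false])
    obtain ⟨w, hw⟩ := IsCompact.nonempty_iInter_of_sequence_nonempty_isCompact_isClosed Z hanti hne
      (hcl 0).isCompact hcl
    rw [mem_iInter] at hw
    have hSyn : Syn {k | (w.1 k).1 = true} L := by
      intro m
      obtain ⟨k, hk, hk1⟩ := (hw 0).1 m
      rw [Finset.mem_range] at hk
      exact ⟨m + k, hk1, by omega, by omega⟩
    have hy0 : (Q * q ^ N) • w.2.1 ≠ 0 := by
      intro h0
      have h1 := (hw 0).2.1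
      rw [h0, norm_zero] at h1
      linarith
    have h1 := hmain w.2.1 hy0 _ hSyn fun k => (w.1 k).2
    have h2 : g.card ≤ cnt {n | ∃ z : T, ∀ k ∈ {k | (w.1 k).1 = true},
        r ≤ dist (p ^ k • q ^ n • w.2.1 + (w.1 k).2) z} N := by
      unfold cnt
      refine Finset.card_le_card fun n hn => Finset.mem_filter.2 ⟨hg hn, w.2.2 n, fun k hk => ?_⟩
      have h3 := (hw (k + 1)).2.2 n hn k (by omega)
      have hk' : (w.1 k).1 = true := hk
      rcases h3 with h3 | h3
      · rw [hk'] at h3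
        exact absurd h3 (by decide)
      · exact h3
    have h3 : (g.card : ℝ) ≤ (cnt {n | ∃ z : T, ∀ k ∈ {k | (w.1 k).1 = true},
        r ≤ dist (p ^ k • q ^ n • w.2.1 + (w.1 k).2) z} N : ℝ) := by exact_mod_cast h2
    linarith
  choose! Kg hKg using key
  refine ⟨(Finset.range N).powerset.sup Kg + 1, by omega, fun y hy A hA c => ?_⟩
  by_contra hcon
  push Not at hcon
  set K := (Finset.range N).powerset.sup Kg + 1 with hK
  set g : Finset ℕ := (Finset.range N).filter fun n => n ∈ {n | ∃ z : T, ∀ k < K, k ∈ A →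
    r ≤ dist (p ^ k • q ^ n • y + c k) z} with hg
  have hsub : g ⊆ Finset.range N := Finset.filter_subset _ _
  have hcard : ε * N < g.card := by
    have : cnt {n | ∃ z : T, ∀ k < K, k ∈ A → r ≤ dist (p ^ k • q ^ n • y + c k) z} N = g.card := by
      unfold cnt
      rw [hg]
    rw [this] at hcon
    exact hcon
  obtain ⟨n, hn, hz⟩ := hKg g hsub hcard y hy A hA c
  obtain ⟨z, hz'⟩ := (Finset.mem_filter.1 hn).2
  obtain ⟨k, hk, hkA, hd⟩ := hz z
  have hle : Kg g ≤ (Finset.range N).powerset.sup Kg := Finset.le_sup (f := Kg) (Finset.mem_powerset.2 hsub)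
  have := hz' k (by omega) hkA
  linarith

/-- **Moving targets, positive density.** -/
theorem mov_dens {p q : ℕ} (h : MI p q) (L : ℕ) {r ε : ℝ} (hr : 0 < r) (hε : 0 < ε) :
    ∃ N m : ℕ, 0 < N ∧ 0 < m ∧ ∀ κ : ℝ, 0 < κ → ∃ (S₀ : ℕ) (τ : ℝ), 0 < S₀ ∧ 0 < τ ∧ ∀ S : ℕ, S₀ ≤ S → ∀ y : T,
      ∀ A : Set ℕ, Syn A L → ∀ c : ℕ → T,
        (cnt {n | ∃ z : T, (cnt {k | k ∈ A ∧ dist (p ^ k • q ^ n • y + c k) z < r} S : ℝ) < τ * S} N : ℝ) ≤
          ε * N + 2 * N * (cnt {s | ‖m • p ^ s • y‖ < κ} S / S) := by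
  classical
  obtain ⟨N, m, hN, hm, hwin⟩ := mov_win h L hr (half_pos hε)
  refine ⟨N, m, hN, hm, fun κ hκ => ?_⟩
  obtain ⟨K, hK, hw⟩ := hwin κ hκ
  have hK' : (0 : ℝ) < K := by exact_mod_cast hK
  refine ⟨4 * (K * K), 1 / (4 * K), by positivity, by positivity, fun S hS y A hA c => ?_⟩
  have hS' : 4 * ((K : ℝ) * K) ≤ S := by exact_mod_cast hS
  have hS0 : (0 : ℝ) < S := lt_of_lt_of_le (by positivity) hS'
  set B : ℕ → ℕ → Prop := fun n s => ∃ z : T, ∀ k < K, s + k ∈ A →
    r ≤ dist (p ^ (s + k) • q ^ n • y + c (s + k)) z with hB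
  set bad : Set ℕ := {n | ∃ z : T, (cnt {k | k ∈ A ∧ dist (p ^ k • q ^ n • y + c k) z < r} S : ℝ) <
    1 / (4 * K) * S} with hbad
  have h1 : ∀ s, κ ≤ ‖m • p ^ s • y‖ → (cnt {n | B n s} N : ℝ) ≤ ε / 2 * N := by
    intro s hs
    have hA' : Syn {k | s + k ∈ A} L := by
      intro j
      obtain ⟨k, hk, h1, h2⟩ := hA (s + j)
      exact ⟨k - s, by show s + (k - s) ∈ A; rwa [Nat.add_sub_cancel' (by omega)], by omega, by omega⟩
    have h2 := hw (p ^ s • y) hs {k | s + k ∈ A} hA' (fun k => c (s + k))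
    have e1 : {n | B n s} = {n | ∃ z : T, ∀ k < K, k ∈ {k | s + k ∈ A} →
        r ≤ dist (p ^ k • q ^ n • p ^ s • y + c (s + k)) z} := by
      ext n
      have e2 : ∀ k, p ^ k • q ^ n • p ^ s • y = p ^ (s + k) • q ^ n • y := by
        intro k
        rw [smul_comm (q ^ n) (p ^ s) y, smul_smul, ← pow_add, add_comm k s]
      simp only [hB, mem_ofPred_eq, e2]
    rw [e1]
    exact h2
  have h2 : ∀ n ∈ bad, (S : ℝ) / 2 ≤ cnt {s | B n s} S := by
    intro n hn
    obtain ⟨z, hz⟩ := hn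
    set H : Set ℕ := {k | k ∈ A ∧ dist (p ^ k • q ^ n • y + c k) z < r} with hH
    have h3 : cnt ({s | B n s}ᶜ) S ≤ cnt {s | ∃ k < K, s + k ∈ H} S := by
      refine cnt_mono (fun s hs => ?_) S
      have hs2 : ¬ B n s := hs
      by_contra hcon
      refine hs2 ⟨z, fun k hk hkA => ?_⟩
      by_contra hlt
      exact hcon ⟨k, hk, hkA, not_le.1 hlt⟩
    have h4 := h3.trans (win_le H K S)
    have h5 : (cnt ({s | B n s}ᶜ) S : ℝ) ≤ K * cnt H S + K * K := by exact_mod_cast h4
    have h6 : (K : ℝ) * cnt H S ≤ K * (1 / (4 * K) * S) := mul_le_mul_of_nonneg_left hz.le hK'.le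
    have h7 : (K : ℝ) * (1 / (4 * K) * S) = S / 4 := by field_simp
    have h8 : ((cnt {s | B n s} S : ℕ) : ℝ) + (cnt ({s | B n s}ᶜ) S : ℕ) = S := by exact_mod_cast cnt_compl {s | B n s} S
    linarith
  have h3 : ∑ n ∈ Finset.range N, (cnt {s | B n s} S : ℝ) = ∑ s ∈ Finset.range S, (cnt {n | B n s} N : ℝ) := by
    have h4 : ∑ n ∈ Finset.range N, cnt {s | B n s} S = ∑ s ∈ Finset.range S, cnt {n | B n s} N := by
      simp only [cnt_eq_sum]
      rw [Finset.sum_comm]
      rfl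
    exact_mod_cast h4
  have h4 : (cnt bad N : ℝ) * (S / 2) ≤ ∑ n ∈ Finset.range N, (cnt {s | B n s} S : ℝ) := by
    have h5 : (cnt bad N : ℝ) * (S / 2) = ∑ n ∈ Finset.range N, (if n ∈ bad then (S : ℝ) / 2 else 0) := by
      rw [cnt_eq_sum]
      push_cast
      rw [Finset.sum_mul]
      refine Finset.sum_congr rfl fun n _ => ?_
      split_ifs <;> simp
    rw [h5]
    refine Finset.sum_le_sum fun n _ => ?_
    split_ifs with hn
    · exact h2 n hn
    · positivity
  have h5 : ∑ s ∈ Finset.range S, (cnt {n | B n s} N : ℝ) ≤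
      ε / 2 * N * S + N * cnt {s | ‖m • p ^ s • y‖ < κ} S := by
    have h6 : ∀ s ∈ Finset.range S, (cnt {n | B n s} N : ℝ) ≤
        ε / 2 * N + N * (if s ∈ {s | ‖m • p ^ s • y‖ < κ} then 1 else 0) := by
      intro s _
      split_ifs with hs
      · have h7 : (cnt {n | B n s} N : ℝ) ≤ N := by
          have : cnt {n | B n s} N ≤ N := by
            have := cnt_compl {n | B n s} N
            omega
          exact_mod_cast this
        have h8 : 0 ≤ ε / 2 * N := by positivity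
        linarith
      · have h7 := h1 s (not_lt.1 hs)
        linarith
    refine (Finset.sum_le_sum h6).trans (le_of_eq ?_)
    rw [Finset.sum_add_distrib, Finset.sum_const, Finset.card_range, nsmul_eq_mul, ← Finset.mul_sum, cnt_eq_sum]
    push_cast
    ring
  have h6 : (cnt bad N : ℝ) * (S / 2) ≤ ε / 2 * N * S + N * cnt {s | ‖m • p ^ s • y‖ < κ} S := by
    rw [h3] at h4
    exact h4.trans h5
  have h7 : (cnt bad N : ℝ) * (S / 2) ≤ (ε * N + 2 * N * (cnt {s | ‖m • p ^ s • y‖ < κ} S / S)) * (S / 2) := by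
    refine h6.trans (le_of_eq ?_)
    field_simp
  exact le_of_mul_le_mul_right h7 (by positivity)

end Pool.Agent.RSet
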