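import Pool.Agent.RSet.WeakX

/-!
# Measures invariant under both maps: sets of times of positive density
-/

set_option autoImplicit false

open MeasureTheory Filter Topology Set
open scoped ENNReal

namespace Pool.Agent.RSet

open Pool.Agent.NSet

/-- the space of pairs (set of times, sequence of translations) -/
abbrev Sq (d : ℕ) : Type := ℕ → Bool × (Fin d → T)

instance borelSq (d : ℕ) : BorelSpace (Sq d) := by
  have h1 : ∀ _ : ℕ, BorelSpace (Bool × (Fin d → T)) := fun _ => inferInstance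
  have h2 : ∀ _ : ℕ, SecondCountableTopology (Bool × (Fin d → T)) := fun _ => inferInstance
  exact @Pi.borelSpace ℕ (fun _ => Bool × (Fin d → T)) _ _ _ h2 h1

/-- the shift -/
def sh {d : ℕ} (ω : Sq d) : Sq d := fun k => ω (k + 1)

theorem cont_sh {d : ℕ} : Continuous (sh (d := d)) := continuous_pi fun k => continuous_apply (k + 1)

theorem sh_iter {d : ℕ} (n : ℕ) (ω : Sq d) : sh^[n] ω = fun k => ω (n + k) := by
  induction n generalizing ω with
  | zero =>
    funext k
    simp
  | succ n ih =>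
    rw [Function.iterate_succ_apply, ih]
    funext k
    show ω (n + k + 1) = ω (n + 1 + k)
    congr 1
    omega

/-- level sets are closed, with a general space of parameters -/
theorem closed_level' {M : Type} [MeasurableSpace M] (κ : Measure M) [IsFiniteMeasure κ] {Y : Type}
    [TopologicalSpace Y] [SequentialSpace Y] {E : Set (M × Y)} (hE : ∀ y, MeasurableSet {x | (x, y) ∈ E})
    (hcl : ∀ x, IsClosed {y | (x, y) ∈ E}) (c : ℝ≥0∞) : IsClosed {y : Y | c ≤ κ {x | (x, y) ∈ E}} := by
  apply IsSeqClosed.isClosed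
  intro u t hu hut
  set A : ℕ → Set M := fun k => ⋃ j : ℕ, {x | (x, u (k + j)) ∈ E} with hA
  have hAm : ∀ k, MeasurableSet (A k) := fun k => MeasurableSet.iUnion fun j => hE _
  have hanti : Antitone A := by
    intro k l hkl x hx
    obtain ⟨j, hj⟩ := mem_iUnion.1 hx
    refine mem_iUnion.2 ⟨l - k + j, ?_⟩
    have h1 : k + (l - k + j) = l + j := by omega
    show (x, u (k + (l - k + j))) ∈ E
    rw [h1]
    exact hj
  have hlim := tendsto_measure_iInter_atTop (μ := κ) (fun k => (hAm k).nullMeasurableSet) hanti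
    ⟨0, measure_ne_top κ _⟩
  have hge : ∀ k, c ≤ κ (A k) := fun k => (hu k).trans (measure_mono fun x hx => mem_iUnion.2 ⟨0, hx⟩)
  have h2 : c ≤ κ (⋂ k, A k) := ge_of_tendsto' hlim hge
  refine h2.trans (measure_mono fun x hx => ?_)
  have h3 : ∃ᶠ n in atTop, u n ∈ {t | (x, t) ∈ E} := by
    rw [frequently_atTop]
    intro k
    obtain ⟨j, hj⟩ := mem_iUnion.1 (mem_iInter.1 hx k)
    exact ⟨k + j, by omega, hj⟩
  exact (hcl x).mem_of_frequently_of_tendsto h3 hut

/-- the pairs (point, sequence) without a hit -/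
def Ms (p : ℕ) {d : ℕ} (z : Fin d → T) (r : ℝ) : Set ((Fin d → T) × Sq d) :=
  {w | ∀ k : ℕ, (w.2 k).1 = true → r ≤ dist (pt p (fun k => (w.2 k).2) k w.1) z}

theorem Ms_meas (p : ℕ) {d : ℕ} (z : Fin d → T) (r : ℝ) (ω : Sq d) : MeasurableSet {x | (x, ω) ∈ Ms p z r} := by
  have e1 : {x | (x, ω) ∈ Ms p z r} = ⋂ k : ℕ, ⋂ (_ : (ω k).1 = true), {x | r ≤ dist (pt p (fun k => (ω k).2) k x) z} := by
    ext x
    simp only [Ms, mem_ofPred_eq, mem_iInter]
  rw [e1]
  exact (isClosed_iInter fun k => isClosed_iInter fun _ =>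
    isClosed_le continuous_const ((cont_pt p _ k).dist continuous_const)).measurableSet

theorem Ms_closed (p : ℕ) {d : ℕ} (z : Fin d → T) (r : ℝ) (x : Fin d → T) : IsClosed {ω | (x, ω) ∈ Ms p z r} := by
  have e1 : {ω | (x, ω) ∈ Ms p z r} = ⋂ k : ℕ, ({ω : Sq d | (ω k).1 = false} ∪
      {ω : Sq d | r ≤ dist (pt p (fun k => (ω k).2) k x) z}) := by
    ext ω
    simp only [Ms, mem_ofPred_eq, mem_iInter, mem_union]
    refine forall_congr' fun k => ?_
    cases h : (ω k).1 <;> simp
  rw [e1]
  refine isClosed_iInter fun k => IsClosed.union ?_ ?_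
  · exact isClosed_singleton.preimage (continuous_fst.comp (continuous_apply k))
  · refine isClosed_le continuous_const (Continuous.dist ?_ continuous_const)
    refine continuous_pi fun i => ?_
    show Continuous fun ω : Sq d => p ^ k • x i + (ω k).2 i
    exact continuous_const.add ((continuous_apply i).comp (continuous_snd.comp (continuous_apply k)))

theorem cnt_congr {D D' : Set ℕ} {N : ℕ} (h : ∀ n < N, (n ∈ D ↔ n ∈ D')) : cnt D N = cnt D' N := by
  classical
  unfold cnt
  congr 1
  refine Finset.filter_congr fun n hn => ?_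
  exact h n (Finset.mem_range.1 hn)

/-- **Positive density, uniform form.** For every `δ`, `η`, `r` there is `M` such that for all sets `A` of at least `δ M` times
below `M` and all translations `c` all points outside a set of measure `η` hit the ball at a time in `A`. -/
theorem unif_dens {p q : ℕ} (h : MI p q) {d : ℕ} (ρ : Fin (d + 1) → Measure T) [∀ i, IsProbabilityMeasure (ρ i)]
    (hp : ∀ i, MeasurePreserving (fun x : T => p • x) (ρ i) (ρ i))
    (hq : ∀ i, MeasurePreserving (fun x : T => q • x) (ρ i) (ρ i)) (hat : ∀ i x, ρ i {x} = 0)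
    (z : Fin (d + 1) → T) {r δ η : ℝ} (hr : 0 < r) (hδ : 0 < δ) (hη : 0 < η) :
    ∃ M : ℕ, 0 < M ∧ ∀ A : Set ℕ, δ * M ≤ cnt A M → ∀ c : ℕ → Fin (d + 1) → T,
      (Measure.pi ρ).real {x | ∀ k ∈ A, k < M → r ≤ dist (pt p c k x) z} ≤ η := by
  classical
  by_contra hcon
  push Not at hcon
  set κ := Measure.pi ρ with hκ
  have hP : MeasurePreserving (fun x : Fin (d + 1) → T => fun i => p • x i) κ κ :=
    measurePreserving_pi _ _ fun j => hp j
  have hex : ∀ i : ℕ, ∃ (A : Set ℕ) (c : ℕ → Fin (d + 1) → T), 0 < i → δ * i ≤ cnt A i ∧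
      η < κ.real {x | ∀ k ∈ A, k < i → r ≤ dist (pt p c k x) z} := by
    intro i
    by_cases hi : 0 < i
    · obtain ⟨A, hA, c, hc⟩ := hcon i hi
      exact ⟨A, c, fun _ => ⟨hA, hc⟩⟩
    · exact ⟨∅, 0, fun h0 => absurd h0 hi⟩
  choose A c hAc using hex
  set y : ℕ → Sq (d + 1) := fun i k => (decide (k ∈ A i ∧ k < i), c i k) with hy
  set U := Ultrafilter.of (atTop : Filter ℕ) with hUdef
  have hU : (U : Filter ℕ) ≤ atTop := Ultrafilter.of_le _
  obtain ⟨μ, hμ1, hμ2, hμ3⟩ := weakX (σ := sh (d := d + 1)) cont_sh y U hU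
  have hev : ∀ᶠ i in (U : Filter ℕ), 0 < i := hU (eventually_gt_atTop 0)
  set C1 : Set (Sq (d + 1)) := {ω | (ω 0).1 = true} with hC1
  have hC1c : IsClosed C1 := isClosed_singleton.preimage (continuous_fst.comp (continuous_apply 0))
  have h1 : δ ≤ μ.real C1 := by
    refine hμ3 C1 hC1c δ ?_
    filter_upwards [hev] with i hi
    refine (hAc i hi).1.trans ?_
    have e1 : cnt (A i) i = cnt {b | sh^[b] (y i) ∈ C1} i := by
      refine cnt_congr fun b hb => ?_
      have e2 : sh^[b] (y i) ∈ C1 ↔ (y i (b + 0)).1 = true := by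
        rw [sh_iter]
        exact Iff.rfl
      show b ∈ A i ↔ sh^[b] (y i) ∈ C1
      rw [e2]
      simp [hy, hb]
    rw [e1]
  set C2 : Set (Sq (d + 1)) := {ω | ENNReal.ofReal η ≤ κ {x | (x, ω) ∈ Ms p z r}} with hC2
  have hC2c : IsClosed C2 := closed_level' κ (fun ω => Ms_meas p z r ω) (fun x => Ms_closed p z r x) _
  have h2 : 1 ≤ μ.real C2 := by
    refine hμ3 C2 hC2c 1 ?_
    filter_upwards [hev] with i hi
    have hall : ∀ b : ℕ, sh^[b] (y i) ∈ C2 := by
      intro b
      have h3 := (hAc i hi).2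
      have h4 : ENNReal.ofReal η ≤ κ {x | ∀ k ∈ A i, k < i → r ≤ dist (pt p (c i) k x) z} :=
        (ENNReal.ofReal_lt_iff_lt_toReal hη.le (measure_ne_top _ _)).2 h3 |>.le
      refine h4.trans ?_
      rw [← (mp_pow hP b).measure_preimage (Ms_meas p z r _).nullMeasurableSet]
      refine measure_mono fun x hx k hk => ?_
      have e1 : sh^[b] (y i) = fun k => y i (b + k) := sh_iter b (y i)
      rw [e1] at hk ⊢
      have hk' : b + k ∈ A i ∧ b + k < i := by simpa [hy] using hk
      have h5 := hx (b + k) hk'.1 hk'.2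
      have e2 : pt p (fun k => ((fun k => y i (b + k)) k).2) k (fun j => p ^ b • x j) = pt p (c i) (b + k) x := by
        funext j
        show p ^ k • p ^ b • x j + c i (b + k) j = p ^ (b + k) • x j + c i (b + k) j
        rw [smul_smul, ← pow_add, add_comm k b]
      show r ≤ dist (pt p (fun k => ((fun k => y i (b + k)) k).2) k (fun j => p ^ b • x j)) z
      rw [e2]
      exact h5
    have e1 : {b | sh^[b] (y i) ∈ C2} = univ := eq_univ_of_forall hall
    rw [e1]
    unfold cnt
    simp
  -- apply the theorem on return times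
  have h3 := rel_pi h μ hμ2 hC1c.measurableSet ρ (fun i _ => hp i) hq hat (fun k ω => (ω k).2)
    (fun k => (continuous_snd.comp (continuous_apply k)).measurable)
  have h4 := Measure.ae_ae_of_ae_prod h3
  have h5 : μ C2ᶜ = 0 := by
    have h6 : μ.real C2 = 1 := le_antisymm measureReal_le_one h2
    have h7 : μ C2 = 1 := by
      rw [← ofReal_measureReal, h6, ENNReal.ofReal_one]
    rw [prob_compl_eq_zero_iff hC2c.measurableSet]
    exact h7
  have h6 : μ C1 = 0 := by
    rw [measure_eq_zero_iff_ae_notMem]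
    filter_upwards [h4, measure_eq_zero_iff_ae_notMem.1 h5] with ω hω1 hω2 hωC1
    have hω2' : ω ∈ C2 := by
      by_contra h0
      exact hω2 h0
    have h7 : κ {x | (x, ω) ∈ Ms p z r} = 0 := by
      rw [measure_eq_zero_iff_ae_notMem]
      filter_upwards [hω1] with x hx hxM
      obtain ⟨_, hyb, k, hk, rfl⟩ := (hx ⟨0, hωC1⟩).inter_open_nonempty (Metric.ball z r) Metric.isOpen_ball
        ⟨z, Metric.mem_ball_self hr⟩
      have h8 : (ω k).1 = true := by
        have h9 : sh^[k] ω ∈ C1 := hk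
        rw [sh_iter] at h9
        simpa [hC1] using h9
      have h9 := hxM k h8
      exact absurd (Metric.mem_ball.1 hyb) (not_lt.2 h9)
    have h8 : ENNReal.ofReal η ≤ κ {x | (x, ω) ∈ Ms p z r} := hω2'
    rw [h7] at h8
    exact absurd (ENNReal.ofReal_pos.2 hη) (not_lt.2 h8)
  have h7 : μ.real C1 = 0 := by
    rw [Measure.real, h6, ENNReal.toReal_zero]
  linarith

end Pool.Agent.RSet
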