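import Pool.Agent.RSet.PiMov
import Pool.Agent.RSet.MovD

/-!
# Moving targets in the torus: syndetic sets of times, positive upper density
-/

set_option autoImplicit false

open MeasureTheory Filter Topology Set
open scoped ENNReal

namespace Pool.Agent.RSet

open Pool.Agent.NSet

/-- All factors except the one with index `0` are invariant under both maps. -/
theorem pi_dense_zero {p q : ℕ} (h : MI p q) (d : ℕ) (ρ : Fin (d + 1) → Measure T) [∀ i, IsFiniteMeasure (ρ i)]
    (hp : ∀ i, i ≠ 0 → MeasurePreserving (fun x : T => p • x) (ρ i) (ρ i))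
    (hq : ∀ i, MeasurePreserving (fun x : T => q • x) (ρ i) (ρ i)) (hat : ∀ i x, ρ i {x} = 0) :
    ∀ᵐ x ∂(Measure.pi ρ), Dense (range fun n : ℕ => (fun i => p ^ n • x i : Fin (d + 1) → T)) := by
  have hp' : ∀ j : Fin d, MeasurePreserving (fun x : T => p • x) (ρ (Fin.succAbove 0 j)) (ρ (Fin.succAbove 0 j)) :=
    fun j => hp _ (Fin.succAbove_ne 0 j)
  have h1 := pi_dense h d (fun j => ρ (Fin.succAbove 0 j)) hp' (fun j => hq _) (fun j => hat _)
  have hS : MeasurePreserving (fun (x : Fin d → T) => fun i => p • x i)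
      (Measure.pi fun j => ρ (Fin.succAbove 0 j)) (Measure.pi fun j => ρ (Fin.succAbove 0 j)) :=
    measurePreserving_pi _ _ fun j => hp' _
  have hit : ∀ (n : ℕ) (x : Fin d → T), (fun (x : Fin d → T) => fun i => p • x i)^[n] x =
      fun i => p ^ n • x i := by
    intro n x
    have e1 : (fun (x : Fin d → T) => fun i => p • x i) = fun x : Fin d → T => p • x := rfl
    rw [e1, smul_iterate]
    rfl
  have h2 := prod_dense h (Measure.pi fun j => ρ (Fin.succAbove 0 j)) hS (by
    filter_upwards [h1] with x hx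
    simpa only [hit] using hx) (ρ 0) (hq 0) (hat 0)
  have h3 := measurePreserving_piFinSuccAbove ρ 0
  have h4 : MeasurePreserving (Prod.swap : T × (Fin d → T) → (Fin d → T) × T)
      ((ρ 0).prod (Measure.pi fun j => ρ (Fin.succAbove 0 j)))
      ((Measure.pi fun j => ρ (Fin.succAbove 0 j)).prod (ρ 0)) := Measure.measurePreserving_swap
  have h5 := (h4.comp h3).quasiMeasurePreserving.ae h2
  filter_upwards [h5] with x hx
  have hg : Continuous fun z : (Fin d → T) × T => (Fin.cons z.2 z.1 : Fin (d + 1) → T) := by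
    refine continuous_pi fun i => ?_
    refine Fin.cases ?_ (fun j => ?_) i
    · simp only [Fin.cons_zero]
      exact continuous_snd
    · simp only [Fin.cons_succ]
      exact (continuous_apply j).comp continuous_fst
  have hsur : Function.Surjective fun z : (Fin d → T) × T => (Fin.cons z.2 z.1 : Fin (d + 1) → T) := by
    intro y
    exact ⟨(Fin.tail y, y 0), Fin.cons_self_tail y⟩
  have h6 := hsur.denseRange.dense_image hg hx
  have h7 : ((fun z : (Fin d → T) × T => (Fin.cons z.2 z.1 : Fin (d + 1) → T)) ''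
      (range fun n : ℕ => ((fun (x : Fin d → T) => fun i => p • x i)^[n]
        ((Prod.swap ∘ (MeasurableEquiv.piFinSuccAbove (fun _ => T) 0)) x).1,
        p ^ n • ((Prod.swap ∘ (MeasurableEquiv.piFinSuccAbove (fun _ => T) 0)) x).2))) ⊆
      range fun n : ℕ => (fun i => p ^ n • x i : Fin (d + 1) → T) := by
    rintro _ ⟨_, ⟨n, rfl⟩, rfl⟩
    refine ⟨n, ?_⟩
    funext i
    refine Fin.cases ?_ (fun j => ?_) i
    · simp only [Fin.cons_zero]
      rfl
    · simp only [Fin.cons_succ, hit]
      rfl
  exact h6.mono h7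

/-- from all times to syndetic sets of times -/
theorem syn_of_all {p : ℕ} (hp : 2 ≤ p) {d : ℕ} (κ : Measure (Fin d → T))
    (H : ∀ c : ℕ → Fin d → T, ∀ᵐ x ∂κ, Dense (range fun k : ℕ => (fun i => p ^ k • x i + c k i : Fin d → T)))
    (A : Set ℕ) (L : ℕ) (hA : Syn A L) (c : ℕ → Fin d → T) :
    ∀ᵐ x ∂κ, Dense {y : Fin d → T | ∃ k ∈ A, y = fun i => p ^ k • x i + c k i} := by
  have hp0 : (0 : ℝ) < p := by exact_mod_cast (by omega : 0 < p)
  choose f hfA hf1 hf2 using hA
  have hex : ∀ (z : Fin d → T) (k : ℕ) (i : Fin d), ∃ x : T, p ^ (f k - k) • x = z i - c (f k) i := fun z k i => by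
    obtain ⟨x, hx, -⟩ := ex_near (M := p ^ (f k - k)) (by positivity) (z i - c (f k) i) 0
    exact ⟨x, hx⟩
  choose w hw using hex
  have key : ∀ (z : Fin d → T) (r : ℝ), 0 < r → ∀ᵐ x ∂κ, ∃ k ∈ A,
      dist (fun i => p ^ k • x i + c k i : Fin d → T) z < r := by
    intro z r hr
    have hr' : 0 < r / (p : ℝ) ^ L := by positivity
    filter_upwards [H fun k i => -(w z k i)] with x hx
    obtain ⟨_, hy, k, rfl⟩ := hx.inter_open_nonempty (Metric.ball 0 (r / (p : ℝ) ^ L)) Metric.isOpen_ball
      ⟨0, Metric.mem_ball_self hr'⟩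
    refine ⟨f k, hfA k, ?_⟩
    rw [Metric.mem_ball, dist_pi_lt_iff hr'] at hy
    rw [dist_pi_lt_iff hr]
    intro i
    have h1 := hy i
    rw [dist_eq_norm] at h1 ⊢
    have h2 : ‖p ^ k • x i - w z k i‖ < r / (p : ℝ) ^ L := by
      simpa [sub_eq_add_neg] using h1
    have h5 : p ^ f k • x i + c (f k) i - z i = p ^ (f k - k) • (p ^ k • x i - w z k i) := by
      rw [smul_sub, hw, smul_smul, ← pow_add, Nat.sub_add_cancel (hf1 k)]
      abel
    rw [h5]
    have h6 : ‖p ^ (f k - k) • (p ^ k • x i - w z k i)‖ ≤ ((p ^ (f k - k) : ℕ) : ℝ) * ‖p ^ k • x i - w z k i‖ :=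
      norm_nsmul_le
    have h7 : ((p ^ (f k - k) : ℕ) : ℝ) ≤ (p : ℝ) ^ L := by
      push_cast
      exact pow_le_pow_right₀ (by exact_mod_cast (by omega : 1 ≤ p)) (by have := hf2 k; omega)
    have h8 : ((p ^ (f k - k) : ℕ) : ℝ) * ‖p ^ k • x i - w z k i‖ ≤ (p : ℝ) ^ L * ‖p ^ k • x i - w z k i‖ :=
      mul_le_mul_of_nonneg_right h7 (norm_nonneg _)
    have h9 : (p : ℝ) ^ L * ‖p ^ k • x i - w z k i‖ < r := by
      rw [lt_div_iff₀ (by positivity)] at h2
      linarith [mul_comm ‖p ^ k • x i - w z k i‖ ((p : ℝ) ^ L)]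
    exact lt_of_le_of_lt (h6.trans h8) h9
  have h1 : ∀ᵐ x ∂κ, ∀ i j : ℕ, ∃ k ∈ A,
      dist (fun i => p ^ k • x i + c k i : Fin d → T) (TopologicalSpace.denseSeq (Fin d → T) i) < 1 / ((j : ℝ) + 1) :=
    ae_all_iff.2 fun i => ae_all_iff.2 fun j => key _ _ (by positivity)
  filter_upwards [h1] with x hx
  refine dense_of_balls' fun i j => ?_
  obtain ⟨k, hk, hd⟩ := hx i j
  exact ⟨_, ⟨k, hk, rfl⟩, hd⟩

/-- the point `p ^ k x + c k` -/
def pt {d : ℕ} (p : ℕ) (c : ℕ → Fin d → T) (k : ℕ) (x : Fin d → T) : Fin d → T := fun i => p ^ k • x i + c k i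

theorem cont_pt {d : ℕ} (p : ℕ) (c : ℕ → Fin d → T) (k : ℕ) : Continuous (pt p c k) :=
  continuous_pi fun i => by
    show Continuous fun x : Fin d → T => p ^ k • x i + c k i
    fun_prop

/-- uniformly over all sequences `c` most points hit the target before time `K` -/
theorem unif_K {p : ℕ} {d : ℕ} (κ : Measure (Fin d → T)) [IsProbabilityMeasure κ]
    (H : ∀ c : ℕ → Fin d → T, ∀ᵐ x ∂κ, Dense (range fun k : ℕ => (fun i => p ^ k • x i + c k i : Fin d → T)))
    (z : Fin d → T) {r : ℝ} (hr : 0 < r) {η : ℝ≥0∞} (hη : η ≠ 0) :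
    ∃ K : ℕ, ∀ c : ℕ → Fin d → T, κ {x | ∀ k < K, r ≤ dist (pt p c k x) z} ≤ η := by
  by_contra hcon
  push Not at hcon
  choose c hc using hcon
  obtain ⟨b, φ, hφ, hlim⟩ := CompactSpace.tendsto_subseq c
  set Y : ℕ → Set (Fin d → T) := fun K => {x | ∀ k < K, r / 2 ≤ dist (pt p b k x) z} with hY
  have hYm : ∀ K, MeasurableSet (Y K) := by
    intro K
    have e1 : Y K = ⋂ k, ⋂ (_ : k < K), {x | r / 2 ≤ dist (pt p b k x) z} := by
      ext x
      simp only [hY, mem_ofPred_eq, mem_iInter]
    rw [e1]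
    exact (isClosed_iInter fun k => isClosed_iInter fun _ =>
      isClosed_le continuous_const ((cont_pt p b k).dist continuous_const)).measurableSet
  have hYa : Antitone Y := fun K K' hKK' x hx k hk => hx k (by omega)
  have hYη : ∀ K, η ≤ κ (Y K) := by
    intro K
    have h1 : ∀ k : ℕ, Tendsto (fun j => c (φ j) k) atTop (𝓝 (b k)) := fun k => (tendsto_pi_nhds.1 hlim) k
    have h2 : ∀ᶠ j in atTop, ∀ k < K, dist (c (φ j) k) (b k) < r / 2 := by
      exact (eventually_all_finite (finite_lt_nat K)).2 fun k _ => (Metric.tendsto_nhds.1 (h1 k)) (r / 2) (by positivity)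
    obtain ⟨j, hj1, hj2⟩ := (h2.and (hφ.tendsto_atTop.eventually_ge_atTop K)).exists
    refine (hc (φ j)).le.trans (measure_mono fun x hx k hk => ?_)
    have h3 := hx k (lt_of_lt_of_le hk hj2)
    have h4 : dist (pt p (c (φ j)) k x) (pt p b k x) ≤ dist (c (φ j) k) (b k) := by
      refine (dist_pi_le_iff dist_nonneg).2 fun i => ?_
      show dist (p ^ k • x i + c (φ j) k i) (p ^ k • x i + b k i) ≤ _
      rw [dist_add_left]
      exact dist_le_pi_dist _ _ i
    have h5 := dist_triangle (pt p (c (φ j)) k x) (pt p b k x) z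
    have h6 := hj1 k hk
    linarith
  have hYlim := tendsto_measure_iInter_atTop (μ := κ) (fun K => (hYm K).nullMeasurableSet) hYa ⟨0, measure_ne_top κ _⟩
  have h1 : η ≤ κ (⋂ K, Y K) := ge_of_tendsto' hYlim hYη
  have h2 : κ (⋂ K, Y K) = 0 := by
    rw [measure_eq_zero_iff_ae_notMem]
    filter_upwards [H b] with x hx hxY
    obtain ⟨_, hy, k, rfl⟩ := hx.inter_open_nonempty (Metric.ball z (r / 2)) Metric.isOpen_ball
      ⟨z, Metric.mem_ball_self (by positivity)⟩
    have h3 := (mem_iInter.1 hxY (k + 1)) k (Nat.lt_succ_self k)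
    exact absurd (Metric.mem_ball.1 hy) (not_lt.2 h3)
  rw [h2] at h1
  exact hη (le_antisymm h1 bot_le)

theorem mp_pow {p : ℕ} {d : ℕ} {κ : Measure (Fin d → T)}
    (hκ : MeasurePreserving (fun x : Fin d → T => fun i => p • x i) κ κ) (n : ℕ) :
    MeasurePreserving (fun x : Fin d → T => fun i => p ^ n • x i) κ κ := by
  have e1 : (fun x : Fin d → T => fun i => p ^ n • x i) = (fun x : Fin d → T => fun i => p • x i)^[n] := by
    have e2 : (fun x : Fin d → T => fun i => p • x i) = fun x : Fin d → T => p • x := rfl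
    rw [e2, smul_iterate]
    rfl
  rw [e1]
  exact hκ.iterate n

/-- **Positive upper density.** -/
theorem dens_one {p : ℕ} {d : ℕ} (κ : Measure (Fin d → T)) [IsProbabilityMeasure κ]
    (hκ : MeasurePreserving (fun x : Fin d → T => fun i => p • x i) κ κ)
    (H : ∀ c : ℕ → Fin d → T, ∀ᵐ x ∂κ, Dense (range fun k : ℕ => (fun i => p ^ k • x i + c k i : Fin d → T)))
    (c : ℕ → Fin d → T) (z : Fin d → T) {r : ℝ} (hr : 0 < r) :
    ∀ᵐ x ∂κ, ¬ Tendsto (fun N : ℕ => (cnt {k | dist (pt p c k x) z < r} N : ℝ) / N) atTop (𝓝 0) := by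
  classical
  set D : (Fin d → T) → Set ℕ := fun x => {k | dist (pt p c k x) z < r} with hD
  have hhm : ∀ k, MeasurableSet {x : Fin d → T | dist (pt p c k x) z < r} := fun k =>
    (isOpen_lt ((cont_pt p c k).dist continuous_const) continuous_const).measurableSet
  have hcm : ∀ N : ℕ, Measurable fun x => (cnt (D x) N : ℝ) := by
    intro N
    have e1 : (fun x => (cnt (D x) N : ℝ)) =
        fun x => ∑ k ∈ Finset.range N, ({x : Fin d → T | dist (pt p c k x) z < r}.indicator (fun _ => (1 : ℝ))) x := by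
      funext x
      rw [cnt_eq_sum]
      push_cast
      refine Finset.sum_congr rfl fun k _ => ?_
      by_cases hx : dist (pt p c k x) z < r
      · have h1 : k ∈ D x := hx
        have h2 : x ∈ {x : Fin d → T | dist (pt p c k x) z < r} := hx
        simp only [h1, if_true, indicator_of_mem h2]
      · have h1 : k ∉ D x := hx
        have h2 : x ∉ {x : Fin d → T | dist (pt p c k x) z < r} := hx
        simp only [h1, if_false, indicator_of_notMem h2]
    rw [e1]
    exact Finset.measurable_fun_sum _ fun k _ => measurable_const.indicator (hhm k)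
  set Z : Set (Fin d → T) := {x | Tendsto (fun N : ℕ => (cnt (D x) N : ℝ) / N) atTop (𝓝 0)} with hZ
  have hZm : MeasurableSet Z := measurableSet_tendsto (𝓝 0) fun N => (hcm N).div_const _
  have hle : ∀ η : ℝ, 0 < η → κ.real Z ≤ η := by
    intro η hη
    obtain ⟨K, hK⟩ := unif_K κ H z hr (η := ENNReal.ofReal η) (ENNReal.ofReal_pos.2 hη).ne'
    -- the points which do not hit between the times `k` and `k + K`
    set C : ℕ → Set (Fin d → T) := fun k => {x | ∀ j < K, r ≤ dist (pt p c (k + j) x) z} with hC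
    have hCm : ∀ k, MeasurableSet (C k) := by
      intro k
      have e1 : C k = ⋂ j, ⋂ (_ : j < K), {x | r ≤ dist (pt p c (k + j) x) z} := by
        ext x
        simp only [hC, mem_ofPred_eq, mem_iInter]
      rw [e1]
      exact (isClosed_iInter fun j => isClosed_iInter fun _ =>
        isClosed_le continuous_const ((cont_pt p c (k + j)).dist continuous_const)).measurableSet
    have hCη : ∀ k, κ.real (C k) ≤ η := by
      intro k
      have h1 := hK fun j => c (k + j)
      have h2 : κ (C k) = κ {x | ∀ j < K, r ≤ dist (pt p (fun j => c (k + j)) j x) z} := by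
        have hm : MeasurableSet {x | ∀ j < K, r ≤ dist (pt p (fun j => c (k + j)) j x) z} := by
          have e1 : {x | ∀ j < K, r ≤ dist (pt p (fun j => c (k + j)) j x) z} =
              ⋂ j, ⋂ (_ : j < K), {x | r ≤ dist (pt p (fun j => c (k + j)) j x) z} := by
            ext x
            simp only [mem_ofPred_eq, mem_iInter]
          rw [e1]
          exact (isClosed_iInter fun j => isClosed_iInter fun _ =>
            isClosed_le continuous_const ((cont_pt p _ j).dist continuous_const)).measurableSet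
        rw [← (mp_pow hκ k).measure_preimage hm.nullMeasurableSet]
        congr 1
        ext x
        have e2 : ∀ j, pt p (fun j => c (k + j)) j (fun i => p ^ k • x i) = pt p c (k + j) x := by
          intro j
          funext i
          show p ^ j • p ^ k • x i + c (k + j) i = p ^ (k + j) • x i + c (k + j) i
          rw [smul_smul, ← pow_add, add_comm j k]
        simp only [hC, mem_ofPred_eq, mem_preimage, e2]
      rw [← h2] at h1
      exact ENNReal.toReal_le_of_le_ofReal hη.le h1
    set u : ℕ → (Fin d → T) → ℝ := fun N x => (∑ k ∈ Finset.range N, ((C k)ᶜ.indicator (fun _ => (1 : ℝ)) x)) / N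
      with hu
    have hum : ∀ N, Measurable (u N) := fun N =>
      (Finset.measurable_fun_sum _ fun k _ => measurable_const.indicator (hCm k).compl).div_const _
    have hind : ∀ k x, (C k)ᶜ.indicator (fun _ => (1 : ℝ)) x ≤ 1 := fun k x => by
      by_cases hx : x ∈ (C k)ᶜ
      · rw [indicator_of_mem hx]
      · rw [indicator_of_notMem hx]
        exact zero_le_one
    have hind0 : ∀ k x, 0 ≤ (C k)ᶜ.indicator (fun _ => (1 : ℝ)) x := fun k x =>
      indicator_nonneg (fun _ _ => zero_le_one) x
    have hu1 : ∀ N x, ‖u N x‖ ≤ 1 := by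
      intro N x
      rw [Real.norm_eq_abs, abs_of_nonneg (by
        show 0 ≤ (∑ k ∈ Finset.range N, ((C k)ᶜ.indicator (fun _ => (1 : ℝ)) x)) / N
        exact div_nonneg (Finset.sum_nonneg fun k _ => hind0 k x) (by positivity))]
      rcases Nat.eq_zero_or_pos N with h0 | h0
      · subst h0
        simp [hu]
      · have hN : (0 : ℝ) < N := by exact_mod_cast h0
        show (∑ k ∈ Finset.range N, ((C k)ᶜ.indicator (fun _ => (1 : ℝ)) x)) / N ≤ 1
        rw [div_le_one hN]
        refine (Finset.sum_le_sum fun k _ => hind k x).trans ?_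
        simp
    -- the integral over `Z` is large
    have hlow : ∀ N : ℕ, 0 < N → κ.real Z - η ≤ ∫ x in Z, u N x ∂κ := by
      intro N hN
      have hN' : (0 : ℝ) < N := by exact_mod_cast hN
      have h1 : ∫ x in Z, u N x ∂κ = (∑ k ∈ Finset.range N, κ.real (Z ∩ (C k)ᶜ)) / N := by
        show ∫ x in Z, (∑ k ∈ Finset.range N, ((C k)ᶜ.indicator (fun _ => (1 : ℝ)) x)) / N ∂κ = _
        rw [integral_div, integral_finsetSum _ fun k _ => (integrable_const (1 : ℝ)).indicator (hCm k).compl]
        congr 1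
        refine Finset.sum_congr rfl fun k _ => ?_
        rw [integral_indicator_const _ (hCm k).compl, smul_eq_mul, mul_one, measureReal_restrict_apply (hCm k).compl,
          inter_comm]
      rw [h1, le_div_iff₀ hN']
      have h2 : ∀ k ∈ Finset.range N, κ.real Z - η ≤ κ.real (Z ∩ (C k)ᶜ) := by
        intro k _
        have h3 : κ.real Z ≤ κ.real (Z ∩ (C k)ᶜ) + κ.real (C k) := by
          refine le_trans ?_ (measureReal_union_le _ _)
          refine measureReal_mono (fun x hx => ?_) (measure_ne_top _ _)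
          by_cases hxC : x ∈ C k
          · exact Or.inr hxC
          · exact Or.inl ⟨hx, hxC⟩
        have h4 := hCη k
        linarith
      have h5 := Finset.sum_le_sum h2
      rw [Finset.sum_const, Finset.card_range, nsmul_eq_mul] at h5
      linarith [mul_comm (κ.real Z - η) (N : ℝ)]
    -- and tends to zero
    have hlim : Tendsto (fun N : ℕ => ∫ x in Z, u N x ∂κ) atTop (𝓝 (∫ _x in Z, (0 : ℝ) ∂κ)) := by
      refine tendsto_integral_of_dominated_convergence (fun _ => (1 : ℝ)) (fun N => (hum N).aestronglyMeasurable)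
        (integrable_const _) (fun N => Eventually.of_forall fun x => hu1 N x) ?_
      filter_upwards [ae_restrict_mem hZm] with x hx
      have hbound : ∀ N : ℕ, u N x ≤ K * ((cnt (D x) (N + K) : ℝ) / ((N + K : ℕ) : ℝ)) * (((N + K : ℕ) : ℝ) / N) := by
        intro N
        rcases Nat.eq_zero_or_pos N with h0 | h0
        · subst h0
          simp [hu]
        · have hN : (0 : ℝ) < N := by exact_mod_cast h0
          have hNK : (0 : ℝ) < ((N + K : ℕ) : ℝ) := by positivity
          have e1 : (K : ℝ) * ((cnt (D x) (N + K) : ℝ) / ((N + K : ℕ) : ℝ)) * (((N + K : ℕ) : ℝ) / N) =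
              K * (cnt (D x) (N + K) : ℝ) / N := by
            field_simp
          rw [e1]
          show (∑ k ∈ Finset.range N, ((C k)ᶜ.indicator (fun _ => (1 : ℝ)) x)) / N ≤ _
          gcongr
          have h1 : ∀ k ∈ Finset.range N, (C k)ᶜ.indicator (fun _ => (1 : ℝ)) x ≤
              ∑ j ∈ Finset.range K, (if k + j ∈ D x then 1 else 0 : ℝ) := by
            intro k _
            by_cases hxk : x ∈ (C k)ᶜ
            · rw [indicator_of_mem hxk]
              have h2 : ∃ j < K, k + j ∈ D x := by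
                by_contra hcon
                push Not at hcon
                exact hxk fun j hj => not_lt.1 (hcon j hj)
              obtain ⟨j, hj, hjD⟩ := h2
              refine le_trans ?_ (Finset.single_le_sum (f := fun j => (if k + j ∈ D x then 1 else 0 : ℝ))
                (fun j _ => by split_ifs <;> norm_num) (Finset.mem_range.2 hj))
              simp only [hjD, if_true, le_refl]
            · rw [indicator_of_notMem hxk]
              exact Finset.sum_nonneg fun j _ => by split_ifs <;> norm_num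
          refine (Finset.sum_le_sum h1).trans ?_
          rw [Finset.sum_comm]
          have h2 : ∀ j ∈ Finset.range K, ∑ k ∈ Finset.range N, (if k + j ∈ D x then 1 else 0 : ℝ) ≤
              (cnt (D x) (N + K) : ℝ) := by
            intro j hj
            rw [cnt_eq_sum]
            push_cast
            have h3 : ∑ k ∈ Finset.range N, (if k + j ∈ D x then 1 else 0 : ℝ) =
                ∑ l ∈ (Finset.range N).image (fun k => k + j), (if l ∈ D x then 1 else 0 : ℝ) := by
              rw [Finset.sum_image fun a _ b _ hab => by simpa using hab]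
            rw [h3]
            refine Finset.sum_le_sum_of_subset_of_nonneg ?_ fun l _ _ => by split_ifs <;> norm_num
            intro l hl
            obtain ⟨k, hk, rfl⟩ := Finset.mem_image.1 hl
            rw [Finset.mem_range] at hk hj ⊢
            omega
          refine (Finset.sum_le_sum h2).trans ?_
          rw [Finset.sum_const, Finset.card_range, nsmul_eq_mul]
      have hx' : Tendsto (fun N : ℕ => (cnt (D x) (N + K) : ℝ) / ((N + K : ℕ) : ℝ)) atTop (𝓝 0) :=
        (show Tendsto (fun N : ℕ => (cnt (D x) N : ℝ) / N) atTop (𝓝 0) from hx).comp (tendsto_add_atTop_nat K)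
      have hr1 : Tendsto (fun N : ℕ => ((N + K : ℕ) : ℝ) / N) atTop (𝓝 1) := by
        have h1 : Tendsto (fun N : ℕ => 1 + (K : ℝ) / N) atTop (𝓝 (1 + 0)) :=
          tendsto_const_nhds.add (tendsto_const_div_atTop_nhds_zero_nat (K : ℝ))
        rw [add_zero] at h1
        refine h1.congr' ?_
        filter_upwards [eventually_gt_atTop 0] with N hN
        have hN' : (0 : ℝ) < N := by exact_mod_cast hN
        push_cast
        field_simp
      have hprod := ((hx'.const_mul (K : ℝ)).mul hr1)
      rw [mul_zero, zero_mul] at hprod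
      exact squeeze_zero (fun N => div_nonneg (Finset.sum_nonneg fun k _ => hind0 k x) (by positivity)) hbound hprod
    rw [integral_zero] at hlim
    have h1 : κ.real Z - η ≤ 0 := ge_of_tendsto hlim (by
      filter_upwards [eventually_gt_atTop 0] with N hN
      exact hlow N hN)
    linarith
  have h0 : κ.real Z ≤ 0 := le_of_forall_pos_le_add fun η hη => by
    rw [zero_add]
    exact hle η hη
  have h1 : κ Z = 0 := by
    have h2 : κ.real Z = 0 := le_antisymm h0 measureReal_nonneg
    rwa [measureReal_eq_zero_iff] at h2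
  exact measure_eq_zero_iff_ae_notMem.1 h1

theorem cnt_mono {D D' : Set ℕ} (h : D ⊆ D') (N : ℕ) : cnt D N ≤ cnt D' N := by
  classical
  unfold cnt
  refine Finset.card_le_card fun n hn => ?_
  rw [Finset.mem_filter] at hn ⊢
  exact ⟨hn.1, h hn.2⟩

/-- Almost every point hits every open set at a set of times which does not have density zero. -/
theorem dens_all {p q : ℕ} (h : MI p q) {d : ℕ} (ρ : Fin d → Measure T) [∀ i, IsProbabilityMeasure (ρ i)]
    (hp : ∀ i, MeasurePreserving (fun x : T => p • x) (ρ i) (ρ i))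
    (hq : ∀ i, MeasurePreserving (fun x : T => q • x) (ρ i) (ρ i)) (hat : ∀ i x, ρ i {x} = 0)
    (c : ℕ → Fin d → T) :
    ∀ᵐ x ∂(Measure.pi ρ), ∀ J : Set (Fin d → T), IsOpen J → J.Nonempty →
      ¬ Tendsto (fun N : ℕ => (cnt {k | pt p c k x ∈ J} N : ℝ) / N) atTop (𝓝 0) := by
  have hκ : MeasurePreserving (fun x : Fin d → T => fun i => p • x i) (Measure.pi ρ) (Measure.pi ρ) :=
    measurePreserving_pi _ _ fun j => hp j
  have H : ∀ c : ℕ → Fin d → T, ∀ᵐ x ∂(Measure.pi ρ),
      Dense (range fun k : ℕ => (fun i => p ^ k • x i + c k i : Fin d → T)) := fun c =>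
    pi_moving h.2.1 ρ hq (pi_dense h d ρ hp hq hat) c
  have h1 : ∀ᵐ x ∂(Measure.pi ρ), ∀ i j : ℕ, ¬ Tendsto (fun N : ℕ => (cnt {k | dist (pt p c k x)
      (TopologicalSpace.denseSeq (Fin d → T) i) < 1 / ((j : ℝ) + 1)} N : ℝ) / N) atTop (𝓝 0) :=
    ae_all_iff.2 fun i => ae_all_iff.2 fun j => dens_one (Measure.pi ρ) hκ H c _ (by positivity)
  filter_upwards [h1] with x hx J hJ hJ0 hlim
  obtain ⟨w, hw⟩ := hJ0
  obtain ⟨r, hr, hball⟩ := Metric.isOpen_iff.1 hJ w hw
  obtain ⟨_, hz, i, rfl⟩ := (TopologicalSpace.denseRange_denseSeq (Fin d → T)).inter_open_nonempty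
    (Metric.ball w (r / 2)) Metric.isOpen_ball ⟨w, Metric.mem_ball_self (by positivity)⟩
  obtain ⟨j, hj⟩ := exists_nat_one_div_lt (show (0 : ℝ) < r / 2 by positivity)
  refine hx i j (squeeze_zero (fun N => by positivity) (fun N => ?_) hlim)
  have h2 : cnt {k | dist (pt p c k x) (TopologicalSpace.denseSeq (Fin d → T) i) < 1 / ((j : ℝ) + 1)} N ≤
      cnt {k | pt p c k x ∈ J} N := by
    refine cnt_mono (fun k hk => hball ?_) N
    rw [Metric.mem_ball] at hz ⊢
    have h3 : dist (pt p c k x) (TopologicalSpace.denseSeq (Fin d → T) i) < 1 / ((j : ℝ) + 1) := hk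
    have h4 := dist_triangle (pt p c k x) (TopologicalSpace.denseSeq (Fin d → T) i) w
    linarith
  have h3 : (cnt {k | dist (pt p c k x) (TopologicalSpace.denseSeq (Fin d → T) i) < 1 / ((j : ℝ) + 1)} N : ℝ) ≤
      (cnt {k | pt p c k x ∈ J} N : ℝ) := by exact_mod_cast h2
  gcongr

end Pool.Agent.RSet
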