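import Pool.Agent.RSet.Pi
import Pool.Agent.RSet.MovA

/-!
# Moving targets in the torus `T ^ d`

The measure is a product of measures invariant under `×q`, so multiplication by `q` in ONE coordinate preserves it. By
recurrence in every coordinate almost every point `x` of a set `Z` has a large product pattern: finite sets `g i` such that
`(q ^ e i • x i) ∈ Z` whenever `e i ∈ g i`.
-/

set_option autoImplicit false

open MeasureTheory Filter Topology Set
open scoped ENNReal

namespace Pool.Agent.RSet

open Pool.Agent.NSet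

/-- multiplication by `q` in the coordinate `i` -/
def Qi {d : ℕ} (q : ℕ) (i : Fin d) (x : Fin d → T) : Fin d → T := fun j => if j = i then q • x j else x j

theorem Qi_iter {d : ℕ} (q : ℕ) (i : Fin d) (n : ℕ) (x : Fin d → T) :
    (Qi q i)^[n] x = fun j => if j = i then q ^ n • x j else x j := by
  induction n with
  | zero =>
    funext j
    simp
  | succ n ih =>
    rw [Function.iterate_succ_apply', ih]
    funext j
    unfold Qi
    by_cases hj : j = i
    · simp only [hj, if_true]
      rw [← mul_smul, ← pow_succ']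
    · simp only [hj, if_false]

theorem mp_Qi {d : ℕ} {q : ℕ} (ρ : Fin d → Measure T) [∀ i, IsFiniteMeasure (ρ i)]
    (hq : ∀ i, MeasurePreserving (fun x : T => q • x) (ρ i) (ρ i)) (i : Fin d) :
    MeasurePreserving (Qi q i) (Measure.pi ρ) (Measure.pi ρ) := by
  have h1 : ∀ j, MeasurePreserving (fun t : T => if j = i then q • t else t) (ρ j) (ρ j) := by
    intro j
    by_cases hj : j = i
    · simp only [hj, if_true]
      exact hq i
    · simp only [hj, if_false]
      exact MeasurePreserving.id _
  exact measurePreserving_pi ρ ρ h1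

/-- product patterns -/
theorem ae_pattern {d : ℕ} {q : ℕ} (ρ : Fin d → Measure T) [∀ i, IsFiniteMeasure (ρ i)]
    (hq : ∀ i, MeasurePreserving (fun x : T => q • x) (ρ i) (ρ i)) (m : ℕ) (s : Finset (Fin d)) :
    ∀ Z : Set (Fin d → T), MeasurableSet Z → ∀ᵐ x ∂(Measure.pi ρ), x ∈ Z → ∃ g : Fin d → Finset ℕ,
      (∀ i ∈ s, m ≤ (g i).card) ∧ ∀ e : Fin d → ℕ, (∀ i ∈ s, e i ∈ g i) → (∀ i, i ∉ s → e i = 0) →
        (fun i => q ^ e i • x i) ∈ Z := by
  classical
  induction s using Finset.induction_on with
  | empty =>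
    intro Z _
    refine Eventually.of_forall fun x hx => ⟨fun _ => ∅, fun i hi => absurd hi (Finset.notMem_empty i), ?_⟩
    intro e _ he
    have h1 : (fun i => q ^ e i • x i) = x := by
      funext i
      rw [he i (Finset.notMem_empty i), pow_zero, one_smul]
    rw [h1]
    exact hx
  | insert i s his ih =>
    intro Z hZ
    have hQ := mp_Qi ρ hq i
    set Zh : Finset ℕ → Set (Fin d → T) := fun h => {x | ∀ j ∈ h, (Qi q i)^[j] x ∈ Z} with hZh
    have hZm : ∀ h, MeasurableSet (Zh h) := by
      intro h
      have e1 : Zh h = ⋂ j ∈ h, ((Qi q i)^[j]) ⁻¹' Z := by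
        ext x
        simp only [hZh, mem_ofPred_eq, mem_iInter, mem_preimage]
      rw [e1]
      exact Finset.measurableSet_biInter _ fun j _ => (hQ.measurable.iterate j) hZ
    have h1 := hQ.conservative.ae_mem_imp_frequently_image_mem hZ.nullMeasurableSet
    have h2 : ∀ᵐ x ∂(Measure.pi ρ), ∀ h : Finset ℕ, x ∈ Zh h → ∃ g : Fin d → Finset ℕ,
        (∀ i ∈ s, m ≤ (g i).card) ∧ ∀ e : Fin d → ℕ, (∀ i ∈ s, e i ∈ g i) → (∀ i, i ∉ s → e i = 0) →
          (fun i => q ^ e i • x i) ∈ Zh h := ae_all_iff.2 fun h => ih (Zh h) (hZm h)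
    filter_upwards [h1, h2] with x hx1 hx2 hxZ
    have hinf : {n : ℕ | (Qi q i)^[n] x ∈ Z}.Infinite := Nat.frequently_atTop_iff_infinite.1 (hx1 hxZ)
    obtain ⟨h, hsub, hcard⟩ := hinf.exists_subset_card_eq m
    obtain ⟨g, hg1, hg2⟩ := hx2 h fun j hj => hsub hj
    refine ⟨Function.update g i h, ?_, ?_⟩
    · intro l hl
      by_cases hli : l = i
      · subst hli
        rw [Function.update_self, hcard]
      · rw [Function.update_of_ne hli]
        exact hg1 l (Finset.mem_of_mem_insert_of_ne hl hli)
    · intro e he1 he2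
      have h3 := hg2 (Function.update e i 0) (by
        intro l hl
        have hli : l ≠ i := fun h0 => his (h0 ▸ hl)
        have h4 := he1 l (Finset.mem_insert_of_mem hl)
        rw [Function.update_of_ne hli] at h4 ⊢
        exact h4) (by
        intro l hl
        by_cases hli : l = i
        · subst hli
          rw [Function.update_self]
        · rw [Function.update_of_ne hli]
          exact he2 l fun h0 => hl (Finset.mem_of_mem_insert_of_ne h0 hli))
      have h5 : e i ∈ h := by
        have h6 := he1 i (Finset.mem_insert_self i s)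
        rwa [Function.update_self] at h6
      have h7 : (Qi q i)^[e i] (fun l => q ^ (Function.update e i 0 l) • x l) ∈ Z := h3 (e i) h5
      have h8 : (Qi q i)^[e i] (fun l => q ^ (Function.update e i 0 l) • x l) = fun l => q ^ e l • x l := by
        rw [Qi_iter]
        funext l
        by_cases hli : l = i
        · subst hli
          simp only [if_true, Function.update_self, pow_zero, one_smul]
        · simp only [hli, if_false]
          rw [Function.update_of_ne hli]
      rwa [h8] at h7

/-- general form of `dense_of_balls` -/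
theorem dense_of_balls' {M : Type*} [PseudoMetricSpace M] [TopologicalSpace.SeparableSpace M] [Nonempty M] {s : Set M}
    (h : ∀ i j : ℕ, ∃ y ∈ s, dist y (TopologicalSpace.denseSeq M i) < 1 / ((j : ℝ) + 1)) : Dense s := by
  rw [Metric.dense_iff]
  intro w r hr
  obtain ⟨_, hz, i, rfl⟩ := (TopologicalSpace.denseRange_denseSeq M).inter_open_nonempty (Metric.ball w (r / 2))
    Metric.isOpen_ball ⟨w, Metric.mem_ball_self (by positivity)⟩
  obtain ⟨j, hj⟩ := exists_nat_one_div_lt (show (0 : ℝ) < r / 2 by positivity)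
  obtain ⟨y, hys, hy⟩ := h i j
  refine ⟨y, ?_, hys⟩
  rw [Metric.mem_ball] at hz ⊢
  have h1 := dist_triangle y (TopologicalSpace.denseSeq M i) w
  linarith

/-- **Moving targets in the torus.** If almost every orbit under `×p` is dense, then for every sequence `c` almost every
sequence `p ^ k x + c k` is dense. -/
theorem pi_moving {p q : ℕ} (hq2 : 2 ≤ q) {d : ℕ} (ρ : Fin d → Measure T) [∀ i, IsFiniteMeasure (ρ i)]
    (hq : ∀ i, MeasurePreserving (fun x : T => q • x) (ρ i) (ρ i))
    (hd : ∀ᵐ x ∂(Measure.pi ρ), Dense (range fun n : ℕ => (fun i => p ^ n • x i : Fin d → T)))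
    (c : ℕ → Fin d → T) :
    ∀ᵐ x ∂(Measure.pi ρ), Dense (range fun k : ℕ => (fun i => p ^ k • x i + c k i : Fin d → T)) := by
  classical
  have key : ∀ (z : Fin d → T) (r : ℝ), 0 < r → ∀ᵐ x ∂(Measure.pi ρ), ∃ k : ℕ,
      dist (fun i => p ^ k • x i + c k i : Fin d → T) z < r := by
    intro z r hr
    obtain ⟨m, hm⟩ := Vg_ne hq2 hr
    set Z : Set (Fin d → T) := {x | ∀ k : ℕ, r ≤ dist (fun i => p ^ k • x i + c k i : Fin d → T) z} with hZ
    have hZm : MeasurableSet Z := by
      have e1 : Z = ⋂ k : ℕ, {x | r ≤ dist (fun i => p ^ k • x i + c k i : Fin d → T) z} := by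
        ext x
        simp only [hZ, mem_ofPred_eq, mem_iInter]
      rw [e1]
      refine (isClosed_iInter fun k => isClosed_le continuous_const ?_).measurableSet
      refine Continuous.dist ?_ continuous_const
      exact continuous_pi fun i => by fun_prop
    filter_upwards [ae_pattern ρ hq m Finset.univ Z hZm, hd] with x hx1 hx2
    by_contra hcon
    push Not at hcon
    obtain ⟨g, hg1, hg2⟩ := hx1 hcon
    -- the orbit of `x` avoids a nonempty open set
    set O : Set (Fin d → T) := {y | ∀ i, y i ∈ (Vg q r (g i))ᶜ} with hO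
    have hOo : IsOpen O := by
      have e1 : O = ⋂ i, (fun y : Fin d → T => y i) ⁻¹' (Vg q r (g i))ᶜ := by
        ext y
        simp only [hO, mem_ofPred_eq, mem_iInter, mem_preimage]
      rw [e1]
      exact isOpen_iInter_of_finite fun i => (closed_Vg q r (g i)).isOpen_compl.preimage (continuous_apply i)
    have hOne : O.Nonempty := by
      have h1 : ∀ i, ∃ w, w ∈ (Vg q r (g i))ᶜ := fun i =>
        nonempty_compl.2 (hm (g i) (hg1 i (Finset.mem_univ i)))
      choose w hw using h1
      exact ⟨w, hw⟩
    obtain ⟨_, hy, k, rfl⟩ := hx2.inter_open_nonempty O hOo hOne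
    have h3 : ∀ i, ∃ j ∈ g i, dist (q ^ j • (p ^ k • x i)) (z i - c k i) < r := by
      intro i
      have h4 : p ^ k • x i ∉ Vg q r (g i) := hy i
      by_contra hcon2
      push Not at hcon2
      exact h4 ⟨z i - c k i, hcon2⟩
    choose e he1 he2 using h3
    have h5 := hg2 e (fun i _ => he1 i) (fun i hi => absurd (Finset.mem_univ i) hi) k
    have h6 : dist (fun i => p ^ k • q ^ e i • x i + c k i : Fin d → T) z < r := by
      rw [dist_pi_lt_iff hr]
      intro i
      have h7 := he2 i
      rw [dist_eq_norm] at h7 ⊢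
      have e1 : p ^ k • q ^ e i • x i + c k i - z i = q ^ e i • (p ^ k • x i) - (z i - c k i) := by
        rw [smul_smul, smul_smul, mul_comm (p ^ k)]
        abel
      rw [e1]
      exact h7
    exact absurd h5 (not_le.2 h6)
  have h1 : ∀ᵐ x ∂(Measure.pi ρ), ∀ i j : ℕ, ∃ k : ℕ,
      dist (fun i => p ^ k • x i + c k i : Fin d → T) (TopologicalSpace.denseSeq (Fin d → T) i) < 1 / ((j : ℝ) + 1) :=
    ae_all_iff.2 fun i => ae_all_iff.2 fun j => key _ _ (by positivity)
  filter_upwards [h1] with x hx
  refine dense_of_balls' fun i j => ?_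
  obtain ⟨k, hk⟩ := hx i j
  exact ⟨_, ⟨k, rfl⟩, hk⟩

end Pool.Agent.RSet
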