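import Pool.Agent.RSet.PiUpp

/-!
# Measures invariant under both maps: the uniform form for all balls at once
-/

set_option autoImplicit false

open MeasureTheory Filter Topology Set
open scoped ENNReal

namespace Pool.Agent.RSet

open Pool.Agent.NSet

/-- finite nets in `T ^ d` -/
theorem ex_net' {d : ℕ} {r : ℝ} (hr : 0 < r) : ∃ s : Finset (Fin d → T), ∀ w : Fin d → T, ∃ z ∈ s, dist w z < r := by
  obtain ⟨s, hs⟩ := isCompact_univ.elim_finite_subcover (fun z : Fin d → T => Metric.ball z r)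
    (fun z => Metric.isOpen_ball) (fun w _ => mem_iUnion.2 ⟨w, Metric.mem_ball_self hr⟩)
  refine ⟨s, fun w => ?_⟩
  obtain ⟨z, hz, hw⟩ := mem_iUnion₂.1 (hs (mem_univ w))
  exact ⟨z, hz, hw⟩

/-- the uniform form, all balls of radius `r` at once -/
theorem unif_net {p q : ℕ} (h : MI p q) {d : ℕ} (ρ : Fin (d + 1) → Measure T) [∀ i, IsProbabilityMeasure (ρ i)]
    (hp : ∀ i, MeasurePreserving (fun x : T => p • x) (ρ i) (ρ i))
    (hq : ∀ i, MeasurePreserving (fun x : T => q • x) (ρ i) (ρ i)) (hat : ∀ i x, ρ i {x} = 0)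
    {r δ η : ℝ} (hr : 0 < r) (hδ : 0 < δ) (hη : 0 < η) :
    ∃ M : ℕ, 0 < M ∧ ∀ (A : Set ℕ) (s : ℕ), δ * M ≤ cnt {n | s + n ∈ A} M → ∀ c : ℕ → Fin (d + 1) → T,
      (Measure.pi ρ).real {x | ∃ z, ∀ k < M, s + k ∈ A → r ≤ dist (pt p c (s + k) x) z} ≤ η := by
  classical
  obtain ⟨t, ht⟩ := ex_net' (d := d + 1) (half_pos hr)
  have hη' : 0 < η / ((t.card : ℝ) + 1) := by positivity
  have h1 := fun z : Fin (d + 1) → T => unif_shift h ρ hp hq hat z (half_pos hr) (half_pos hδ) hη'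
  choose Mz hMz hCs using h1
  set M0 : ℕ := t.sup Mz with hM0
  obtain ⟨M, hM⟩ := exists_nat_gt (2 * (M0 : ℝ) / δ)
  have hMpos : (0 : ℝ) < M := lt_of_le_of_lt (by positivity) hM
  have hM' : (M0 : ℝ) < δ / 2 * M := by
    rw [div_lt_iff₀ hδ] at hM
    linarith
  refine ⟨M, by exact_mod_cast hMpos, fun A s hA c => ?_⟩
  set A' : Set ℕ := {m | m ∈ A ∧ m < s + M} with hA'
  have hcnt : cnt {n | s + n ∈ A} M = cnt {n | s + n ∈ A'} M := cnt_congr fun n hn => by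
    simp only [hA', mem_ofPred_eq]
    exact ⟨fun h => ⟨h, by omega⟩, fun h => h.1⟩
  rw [hcnt] at hA
  have hwin : ∀ z ∈ t, ∃ s' : ℕ, δ / 2 * Mz z ≤ cnt {n | (s + s') + n ∈ A'} (Mz z) := by
    intro z hz
    have h2 := good_windows {n | s + n ∈ A'} hδ (hMz z) M hA
    have h3 : (Mz z : ℝ) ≤ M0 := by exact_mod_cast Finset.le_sup (f := Mz) hz
    have h4 : 0 < cnt {s' | δ / 2 * Mz z ≤ cnt {n | s' + n ∈ {n | s + n ∈ A'}} (Mz z)} M := by
      have : (0 : ℝ) < cnt {s' | δ / 2 * Mz z ≤ cnt {n | s' + n ∈ {n | s + n ∈ A'}} (Mz z)} M := by linarith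
      exact_mod_cast this
    unfold cnt at h4
    obtain ⟨s', hs'⟩ := Finset.card_pos.1 h4
    refine ⟨s', ?_⟩
    have h5 := (Finset.mem_filter.1 hs').2
    have h6 : δ / 2 * Mz z ≤ cnt {n | s' + n ∈ {n | s + n ∈ A'}} (Mz z) := h5
    refine h6.trans (le_of_eq ?_)
    congr 2
    ext n
    simp only [mem_ofPred_eq, add_assoc]
  choose! w hw using hwin
  have hsub : {x : Fin (d + 1) → T | ∃ z, ∀ k < M, s + k ∈ A → r ≤ dist (pt p c (s + k) x) z} ⊆
      ⋃ z ∈ t, Cs p c z (r / 2) A' (Mz z) (s + w z) := by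
    rintro x ⟨z', hz'⟩
    obtain ⟨z, hz, hzz⟩ := ht z'
    refine mem_iUnion₂.2 ⟨z, hz, fun k hk hkA => ?_⟩
    have h2 : s + w z + k ∈ A ∧ s + w z + k < s + M := hkA
    have h3 := hz' (w z + k) (by omega) (by rw [← add_assoc]; exact h2.1)
    rw [← add_assoc] at h3
    have h4 := dist_triangle (pt p c (s + w z + k) x) z z'
    rw [dist_comm z z'] at h4
    linarith
  have hfin : ∀ z ∈ t, (Measure.pi ρ).real (Cs p c z (r / 2) A' (Mz z) (s + w z)) ≤ η / ((t.card : ℝ) + 1) :=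
    fun z hz => hCs z A' (s + w z) (hw z hz) c
  calc (Measure.pi ρ).real {x : Fin (d + 1) → T | ∃ z, ∀ k < M, s + k ∈ A → r ≤ dist (pt p c (s + k) x) z}
      ≤ (Measure.pi ρ).real (⋃ z ∈ t, Cs p c z (r / 2) A' (Mz z) (s + w z)) :=
        measureReal_mono hsub (measure_ne_top _ _)
    _ ≤ ∑ z ∈ t, (Measure.pi ρ).real (Cs p c z (r / 2) A' (Mz z) (s + w z)) := measureReal_biUnion_finset_le _ _
    _ ≤ ∑ _z ∈ t, η / ((t.card : ℝ) + 1) := Finset.sum_le_sum hfin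
    _ ≤ η := by
      rw [Finset.sum_const, nsmul_eq_mul, mul_div_assoc', div_le_iff₀ (by positivity)]
      nlinarith [hη.le]

/-- the uniform form for finite sets of times -/
theorem unif_fin {p q : ℕ} (h : MI p q) {d : ℕ} (ρ : Fin (d + 1) → Measure T) [∀ i, IsProbabilityMeasure (ρ i)]
    (hp : ∀ i, MeasurePreserving (fun x : T => p • x) (ρ i) (ρ i))
    (hq : ∀ i, MeasurePreserving (fun x : T => q • x) (ρ i) (ρ i)) (hat : ∀ i x, ρ i {x} = 0)
    {r δ η : ℝ} (hr : 0 < r) (hδ : 0 < δ) (hη : 0 < η) :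
    ∃ M : ℕ, 0 < M ∧ ∀ (s : ℕ) (F : Finset ℕ), (∀ k ∈ F, s ≤ k ∧ k < s + M) → δ * M ≤ F.card →
      ∀ c : ℕ → Fin (d + 1) → T,
        (Measure.pi ρ).real {x | ∃ z, ∀ k ∈ F, r ≤ dist (fun i => p ^ k • x i + c k i) z} ≤ η := by
  classical
  obtain ⟨M, hM, hA⟩ := unif_net h ρ hp hq hat hr hδ hη
  refine ⟨M, hM, fun s F hF hcard c => ?_⟩
  have h1 : F.card ≤ cnt {n | s + n ∈ (F : Set ℕ)} M := by
    unfold cnt
    refine Finset.card_le_card_of_injOn (fun k => k - s) (fun k hk => ?_) (fun k hk k' hk' hkk => ?_)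
    · have h2 := hF k hk
      have h3 : s + (k - s) = k := by omega
      simp only [Finset.coe_filter, Finset.mem_range, mem_ofPred_eq, h3, Finset.mem_coe]
      exact ⟨by omega, hk⟩
    · have h2 := hF k hk
      have h3 := hF k' hk'
      simp only at hkk
      omega
  have h2 : δ * M ≤ cnt {n | s + n ∈ (F : Set ℕ)} M := hcard.trans (by exact_mod_cast h1)
  refine (measureReal_mono ?_ (measure_ne_top _ _)).trans (hA (F : Set ℕ) s h2 c)
  rintro x ⟨z, hz⟩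
  exact ⟨z, fun k _ hk => hz (s + k) hk⟩

end Pool.Agent.RSet
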