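import Pool.Agent.RSet.PiNet
import Pool.Agent.RSet.MovW

/-!
# Measures invariant under both maps: a positive proportion of hits
-/

set_option autoImplicit false

open MeasureTheory Filter Topology Set
open scoped ENNReal

namespace Pool.Agent.RSet

open Pool.Agent.NSet

/-- a positive proportion of hits, one ball -/
theorem pro_one {p q : ℕ} (h : MI p q) {d : ℕ} (ρ : Fin (d + 1) → Measure T) [∀ i, IsProbabilityMeasure (ρ i)]
    (hp : ∀ i, MeasurePreserving (fun x : T => p • x) (ρ i) (ρ i))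
    (hq : ∀ i, MeasurePreserving (fun x : T => q • x) (ρ i) (ρ i)) (hat : ∀ i x, ρ i {x} = 0)
    (z : Fin (d + 1) → T) {r δ η : ℝ} (hr : 0 < r) (hδ : 0 < δ) (hη : 0 < η) :
    ∃ (M : ℕ) (κ : ℝ), 0 < M ∧ 0 < κ ∧ ∀ (S s : ℕ) (A : Set ℕ), M ≤ S → δ * S ≤ cnt {n | s + n ∈ A} S →
      ∀ c : ℕ → Fin (d + 1) → T, (Measure.pi ρ).real
        {x | (cnt {n | s + n ∈ A ∧ dist (pt p c (s + n) x) z < r} S : ℝ) < κ * S} ≤ η := by
  classical
  obtain ⟨M1, hM1, hCs⟩ := unif_shift h ρ hp hq hat z hr (half_pos hδ) (half_pos hη)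
  have hM1' : (0 : ℝ) < M1 := by exact_mod_cast hM1
  obtain ⟨M, hM⟩ := exists_nat_gt (16 * ((M1 : ℝ) * M1) / δ + 4 * M1 / δ)
  have hM0 : (0 : ℝ) < M := lt_trans (by positivity) hM
  refine ⟨M, δ / (16 * M1), by exact_mod_cast hM0, by positivity, fun S s A hS hA c => ?_⟩
  have hSM : (M : ℝ) ≤ S := by exact_mod_cast hS
  have hS0 : (0 : ℝ) < S := hM0.trans_le hSM
  have hS1 : 16 * ((M1 : ℝ) * M1) ≤ δ * S := by
    have h1 : 16 * ((M1 : ℝ) * M1) / δ ≤ S := by
      have : 0 ≤ 4 * (M1 : ℝ) / δ := by positivity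
      linarith
    rw [div_le_iff₀ hδ] at h1
    linarith
  have hS2 : 4 * (M1 : ℝ) ≤ δ * S := by
    have h1 : 4 * (M1 : ℝ) / δ ≤ S := by
      have : 0 ≤ 16 * ((M1 : ℝ) * M1) / δ := by positivity
      linarith
    rw [div_le_iff₀ hδ] at h1
    linarith
  set A' : Set ℕ := {m | m ∈ A ∧ m < s + S} with hA'
  have hcnt : cnt {n | s + n ∈ A} S = cnt {n | s + n ∈ A'} S := cnt_congr fun n hn => by
    simp only [hA', mem_ofPred_eq]
    exact ⟨fun h => ⟨h, by omega⟩, fun h => h.1⟩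
  rw [hcnt] at hA
  have hgw := good_windows {n | s + n ∈ A'} hδ hM1 S hA
  set G : Set ℕ := {t | δ / 2 * M1 ≤ cnt {n | t + n ∈ {n | s + n ∈ A'}} M1} with hG
  set GF : Finset ℕ := (Finset.range S).filter fun t => t ∈ G with hGF
  have hGc : (GF.card : ℝ) = cnt G S := by
    unfold cnt
    rfl
  have hGpos : δ / 4 * S ≤ GF.card := by
    rw [hGc]
    linarith
  have hGp : (0 : ℝ) < GF.card := lt_of_lt_of_le (by positivity) hGpos
  set C : ℕ → Set (Fin (d + 1) → T) := fun t => Cs p c z r A' M1 (s + t) with hC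
  have hCm : ∀ t, MeasurableSet (C t) := fun t => Cs_meas p c z r A' M1 (s + t)
  have hCη : ∀ t ∈ GF, (Measure.pi ρ).real (C t) ≤ η / 2 := by
    intro t ht
    have h1 : t ∈ G := (Finset.mem_filter.1 ht).2
    have h2 : δ / 2 * M1 ≤ cnt {n | t + n ∈ {n | s + n ∈ A'}} M1 := h1
    refine hCs A' (s + t) (h2.trans (le_of_eq ?_)) c
    congr 2
    ext n
    simp only [mem_ofPred_eq, add_assoc]
  set f : (Fin (d + 1) → T) → ℝ := fun x => ∑ t ∈ GF, (C t).indicator (fun _ => (1 : ℝ)) x with hf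
  have hf0 : ∀ x, 0 ≤ f x := fun x => Finset.sum_nonneg fun t _ => indicator_nonneg (fun _ _ => zero_le_one) x
  have hfi : Integrable f (Measure.pi ρ) :=
    integrable_finsetSum _ fun t _ => (integrable_const (1 : ℝ)).indicator (hCm t)
  have hfint : ∫ x, f x ∂(Measure.pi ρ) ≤ GF.card * (η / 2) := by
    have h1 : ∫ x, f x ∂(Measure.pi ρ) = ∑ t ∈ GF, (Measure.pi ρ).real (C t) := by
      show ∫ x, (∑ t ∈ GF, (C t).indicator (fun _ => (1 : ℝ)) x) ∂(Measure.pi ρ) = _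
      rw [integral_finsetSum _ fun t _ => (integrable_const (1 : ℝ)).indicator (hCm t)]
      refine Finset.sum_congr rfl fun t _ => ?_
      rw [integral_indicator_const _ (hCm t), smul_eq_mul, mul_one]
    rw [h1]
    refine (Finset.sum_le_sum hCη).trans (le_of_eq ?_)
    rw [Finset.sum_const, nsmul_eq_mul]
  have hsub : {x : Fin (d + 1) → T | (cnt {n | s + n ∈ A ∧ dist (pt p c (s + n) x) z < r} S : ℝ) <
      δ / (16 * M1) * S} ⊆ {x | (GF.card : ℝ) / 2 ≤ f x} := by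
    intro x hx
    have hx' : (cnt {n | s + n ∈ A ∧ dist (pt p c (s + n) x) z < r} S : ℝ) < δ / (16 * M1) * S := hx
    show (GF.card : ℝ) / 2 ≤ f x
    set H : Set ℕ := {n | s + n ∈ A ∧ dist (pt p c (s + n) x) z < r} with hH
    have h1 : (GF.card : ℝ) - f x ≤ cnt {t | ∃ k < M1, t + k ∈ H} S := by
      have h2 : (GF.card : ℝ) - f x = ∑ t ∈ GF, (1 - (C t).indicator (fun _ => (1 : ℝ)) x) := by
        rw [Finset.sum_sub_distrib, Finset.sum_const, nsmul_eq_mul, mul_one]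
      have h3 : ∑ t ∈ GF, (1 - (C t).indicator (fun _ => (1 : ℝ)) x) ≤
          ∑ t ∈ Finset.range S, (if t ∈ {t | ∃ k < M1, t + k ∈ H} then (1 : ℝ) else 0) := by
        refine le_trans ?_ (Finset.sum_le_sum_of_subset_of_nonneg (Finset.filter_subset (fun t => t ∈ G) _)
          fun t _ _ => by split_ifs <;> norm_num)
        refine Finset.sum_le_sum fun t _ => ?_
        by_cases hxt : x ∈ C t
        · rw [indicator_of_mem hxt, sub_self]
          split_ifs <;> norm_num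
        · rw [indicator_of_notMem hxt, sub_zero]
          have h4 : t ∈ {t | ∃ k < M1, t + k ∈ H} := by
            by_contra hcon
            refine hxt fun k hk hkA => ?_
            by_contra hlt
            have hk2 : s + t + k ∈ A ∧ s + t + k < s + S := hkA
            refine hcon ⟨k, hk, ?_⟩
            show s + (t + k) ∈ A ∧ dist (pt p c (s + (t + k)) x) z < r
            rw [← add_assoc]
            exact ⟨hk2.1, not_le.1 hlt⟩
          rw [if_pos h4]
      have h5 : (cnt {t | ∃ k < M1, t + k ∈ H} S : ℝ) =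
          ∑ t ∈ Finset.range S, (if t ∈ {t | ∃ k < M1, t + k ∈ H} then (1 : ℝ) else 0) := by
        rw [cnt_eq_sum]
        push_cast
        rfl
      rw [h2, h5]
      exact h3
    have h2 : (cnt {t | ∃ k < M1, t + k ∈ H} S : ℝ) ≤ M1 * cnt H S + M1 * M1 := by
      exact_mod_cast win_le H M1 S
    have h3 : (M1 : ℝ) * cnt H S ≤ M1 * (δ / (16 * M1) * S) := mul_le_mul_of_nonneg_left hx'.le hM1'.le
    have h4 : (M1 : ℝ) * (δ / (16 * M1) * S) = δ / 16 * S := by field_simp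
    linarith
  have h1 := mul_meas_ge_le_integral_of_nonneg (Eventually.of_forall hf0) hfi ((GF.card : ℝ) / 2)
  have h2 : (Measure.pi ρ).real {x : Fin (d + 1) → T | (cnt {n | s + n ∈ A ∧ dist (pt p c (s + n) x) z < r} S : ℝ) <
      δ / (16 * M1) * S} ≤ (Measure.pi ρ).real {x | (GF.card : ℝ) / 2 ≤ f x} :=
    measureReal_mono hsub (measure_ne_top _ _)
  have h3 : (GF.card : ℝ) / 2 * (Measure.pi ρ).real {x | (GF.card : ℝ) / 2 ≤ f x} ≤ (GF.card : ℝ) / 2 * η := by
    refine h1.trans (hfint.trans (le_of_eq ?_))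
    ring
  exact h2.trans (le_of_mul_le_mul_left h3 (by positivity))

theorem cnt_le_ncard (D E : Set ℕ) (s S : ℕ) (hE : E.Finite) (h : ∀ n ∈ D, s + n ∈ E) : cnt D S ≤ E.ncard := by
  classical
  unfold cnt
  rw [← Set.ncard_coe_finset]
  exact Set.ncard_le_ncard_of_injOn (fun n => s + n) (fun n hn => h n (Finset.mem_filter.1 (Finset.mem_coe.1 hn)).2)
    (fun a _ b _ hab => by simpa using hab) hE

/-- **A positive proportion of hits**, all balls at once, finite sets of times. -/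
theorem pro_all {p q : ℕ} (h : MI p q) {d : ℕ} (ρ : Fin (d + 1) → Measure T) [∀ i, IsProbabilityMeasure (ρ i)]
    (hp : ∀ i, MeasurePreserving (fun x : T => p • x) (ρ i) (ρ i))
    (hq : ∀ i, MeasurePreserving (fun x : T => q • x) (ρ i) (ρ i)) (hat : ∀ i x, ρ i {x} = 0)
    {r δ η : ℝ} (hr : 0 < r) (hδ : 0 < δ) (hη : 0 < η) :
    ∃ (M : ℕ) (κ : ℝ), 0 < M ∧ 0 < κ ∧ ∀ (S s : ℕ) (F : Finset ℕ), M ≤ S → (∀ k ∈ F, s ≤ k ∧ k < s + S) →
      δ * S ≤ F.card → ∀ c : ℕ → Fin (d + 1) → T, (Measure.pi ρ).real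
        {x | ∃ z, ({k : ℕ | k ∈ F ∧ dist (fun i => p ^ k • x i + c k i) z < r}.ncard : ℝ) < κ * F.card} ≤ η := by
  classical
  obtain ⟨t, ht⟩ := ex_net' (d := d + 1) (half_pos hr)
  have hη' : 0 < η / ((t.card : ℝ) + 1) := by positivity
  have h1 := fun z : Fin (d + 1) → T => pro_one h ρ hp hq hat z (half_pos hr) hδ hη'
  choose Mz κz hMz hκz hpro using h1
  have hsum : 0 ≤ ∑ z ∈ t, (κz z)⁻¹ := Finset.sum_nonneg fun z _ => (inv_pos.2 (hκz z)).le
  set κ : ℝ := (∑ z ∈ t, (κz z)⁻¹ + 1)⁻¹ with hκ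
  have hκ0 : 0 < κ := inv_pos.2 (by linarith)
  have hκle : ∀ z ∈ t, κ ≤ κz z := by
    intro z hz
    have h2 : (κz z)⁻¹ ≤ ∑ z ∈ t, (κz z)⁻¹ :=
      Finset.single_le_sum (f := fun z => (κz z)⁻¹) (fun z _ => (inv_pos.2 (hκz z)).le) hz
    rw [hκ, inv_le_comm₀ (by linarith) (hκz z)]
    linarith
  refine ⟨t.sup Mz + 1, κ, by omega, hκ0, fun S s F hS hF hcard c => ?_⟩
  have hinj : F.card ≤ cnt {n | s + n ∈ (F : Set ℕ)} S := by
    unfold cnt
    refine Finset.card_le_card_of_injOn (fun k => k - s) (fun k hk => ?_) (fun k hk k' hk' hkk => ?_)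
    · have h2 := hF k hk
      have h3 : s + (k - s) = k := by omega
      simp only [Finset.coe_filter, Finset.mem_range, mem_ofPred_eq, h3, Finset.mem_coe]
      exact ⟨by omega, hk⟩
    · have h2 := hF k hk
      have h3 := hF k' hk'
      simp only at hkk
      omega
  have hA : δ * S ≤ cnt {n | s + n ∈ (F : Set ℕ)} S := hcard.trans (by exact_mod_cast hinj)
  have hFS : (F.card : ℝ) ≤ S := by exact_mod_cast hinj.trans (cnt_le _ _)
  have hsub : {x : Fin (d + 1) → T | ∃ z, ({k : ℕ | k ∈ F ∧ dist (fun i => p ^ k • x i + c k i) z < r}.ncard : ℝ) <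
      κ * F.card} ⊆ ⋃ z ∈ t, {x | (cnt {n | s + n ∈ (F : Set ℕ) ∧ dist (pt p c (s + n) x) z < r / 2} S : ℝ) <
        κz z * S} := by
    rintro x ⟨z', hz'⟩
    obtain ⟨z, hz, hzz⟩ := ht z'
    refine mem_iUnion₂.2 ⟨z, hz, ?_⟩
    show (cnt {n | s + n ∈ (F : Set ℕ) ∧ dist (pt p c (s + n) x) z < r / 2} S : ℝ) < κz z * S
    have h2 : cnt {n | s + n ∈ (F : Set ℕ) ∧ dist (pt p c (s + n) x) z < r / 2} S ≤
        {k : ℕ | k ∈ F ∧ dist (fun i => p ^ k • x i + c k i) z' < r}.ncard := by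
      refine cnt_le_ncard _ _ s S ((Finset.finite_toSet F).subset fun k hk => hk.1) fun n hn => ?_
      obtain ⟨hn2, hn3⟩ := hn
      refine ⟨hn2, ?_⟩
      have h4 := dist_triangle (pt p c (s + n) x) z z'
      rw [dist_comm z z'] at h4
      show dist (pt p c (s + n) x) z' < r
      linarith
    have h3 : (cnt {n | s + n ∈ (F : Set ℕ) ∧ dist (pt p c (s + n) x) z < r / 2} S : ℝ) ≤
        ({k : ℕ | k ∈ F ∧ dist (fun i => p ^ k • x i + c k i) z' < r}.ncard : ℝ) := by exact_mod_cast h2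
    have h4 : κ * F.card ≤ κz z * S := mul_le_mul (hκle z hz) hFS (by positivity) (hκz z).le
    linarith
  have hfin : ∀ z ∈ t, (Measure.pi ρ).real {x | (cnt {n | s + n ∈ (F : Set ℕ) ∧ dist (pt p c (s + n) x) z < r / 2} S : ℝ) <
      κz z * S} ≤ η / ((t.card : ℝ) + 1) := fun z hz => by
    have h2 : Mz z ≤ t.sup Mz := Finset.le_sup (f := Mz) hz
    exact hpro z S s (F : Set ℕ) (by omega) hA c
  calc (Measure.pi ρ).real {x : Fin (d + 1) → T | ∃ z,
        ({k : ℕ | k ∈ F ∧ dist (fun i => p ^ k • x i + c k i) z < r}.ncard : ℝ) < κ * F.card}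
      ≤ (Measure.pi ρ).real (⋃ z ∈ t, {x | (cnt {n | s + n ∈ (F : Set ℕ) ∧
          dist (pt p c (s + n) x) z < r / 2} S : ℝ) < κz z * S}) := measureReal_mono hsub (measure_ne_top _ _)
    _ ≤ ∑ z ∈ t, (Measure.pi ρ).real {x | (cnt {n | s + n ∈ (F : Set ℕ) ∧
          dist (pt p c (s + n) x) z < r / 2} S : ℝ) < κz z * S} := measureReal_biUnion_finset_le _ _
    _ ≤ ∑ _z ∈ t, η / ((t.card : ℝ) + 1) := Finset.sum_le_sum hfin
    _ ≤ η := by
      rw [Finset.sum_const, nsmul_eq_mul, mul_div_assoc', div_le_iff₀ (by positivity)]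
      nlinarith [hη.le]

end Pool.Agent.RSet
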