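import Pool.Agent.RSet.PiMov
import Pool.Agent.RSet.MovD

/-!
# Moving targets in the torus at the visits of a point to a set
-/

set_option autoImplicit false

open MeasureTheory Filter Topology Set
open scoped ENNReal

namespace Pool.Agent.RSet

open Pool.Agent.NSet

variable {X : Type} [MeasurableSpace X]

theorem mp_tail (μ : Measure X) [IsProbabilityMeasure μ] {d : ℕ} (ρ : Fin (d + 1) → Measure T)
    [∀ i, IsProbabilityMeasure (ρ i)] :
    MeasurePreserving (fun z : X × (Fin (d + 1) → T) => ((z.1, fun j : Fin d => z.2 (Fin.succAbove 0 j)), z.2 0))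
      (μ.prod (Measure.pi ρ)) ((μ.prod (Measure.pi fun j => ρ (Fin.succAbove 0 j))).prod (ρ 0)) := by
  have h3 := measurePreserving_piFinSuccAbove ρ 0
  have h4 : MeasurePreserving (Prod.swap : T × (Fin d → T) → (Fin d → T) × T)
      ((ρ 0).prod (Measure.pi fun j => ρ (Fin.succAbove 0 j)))
      ((Measure.pi fun j => ρ (Fin.succAbove 0 j)).prod (ρ 0)) := Measure.measurePreserving_swap
  have h5 : MeasurePreserving (Prod.map (id : X → X) (Prod.swap ∘ (MeasurableEquiv.piFinSuccAbove (fun _ => T) 0)))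
      (μ.prod (Measure.pi ρ)) (μ.prod ((Measure.pi fun j => ρ (Fin.succAbove 0 j)).prod (ρ 0))) :=
    (MeasurePreserving.id μ).prod (h4.comp h3)
  have h6 := (measurePreserving_prodAssoc μ (Measure.pi fun j => ρ (Fin.succAbove 0 j)) (ρ 0)).symm
  exact h6.comp h5

/-- one more coordinate -/
theorem dense_step {p q : ℕ} (h : MI p q) (μ : Measure X) [IsProbabilityMeasure μ] {S : X → X}
    (hS : MeasurePreserving S μ μ) {B : Set X} (hB : MeasurableSet B) {d : ℕ} (ρ : Fin (d + 1) → Measure T)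
    [∀ i, IsProbabilityMeasure (ρ i)]
    (hp : ∀ i, i ≠ 0 → MeasurePreserving (fun x : T => p • x) (ρ i) (ρ i))
    (hq : MeasurePreserving (fun x : T => q • x) (ρ 0) (ρ 0)) (hat : ∀ x, ρ 0 {x} = 0)
    (hd : ∀ᵐ z ∂(μ.prod (Measure.pi fun j : Fin d => ρ (Fin.succAbove 0 j))), (∃ k : ℕ, S^[k] z.1 ∈ B) →
      Dense {y : Fin d → T | ∃ k : ℕ, S^[k] z.1 ∈ B ∧ y = fun i => p ^ k • z.2 i}) :
    ∀ᵐ z ∂(μ.prod (Measure.pi ρ)), (∃ k : ℕ, S^[k] z.1 ∈ B) →
      Dense {y : Fin (d + 1) → T | ∃ k : ℕ, S^[k] z.1 ∈ B ∧ y = fun i => p ^ k • z.2 i} := by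
  set κ := Measure.pi fun j : Fin d => ρ (Fin.succAbove 0 j) with hκ
  have hP : MeasurePreserving (fun x : Fin d → T => fun i => p • x i) κ κ :=
    measurePreserving_pi _ _ fun j => hp _ (Fin.succAbove_ne 0 j)
  have hS' : MeasurePreserving (fun z : X × (Fin d → T) => (S z.1, fun i => p • z.2 i)) (μ.prod κ) (μ.prod κ) :=
    hS.prod hP
  have hit : ∀ (n : ℕ) (z : X × (Fin d → T)), (fun z : X × (Fin d → T) => (S z.1, fun i => p • z.2 i))^[n] z =
      (S^[n] z.1, fun i => p ^ n • z.2 i) := by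
    intro n z
    induction n with
    | zero => simp
    | succ n ih =>
      rw [Function.iterate_succ_apply', ih, Function.iterate_succ_apply']
      refine Prod.ext rfl ?_
      funext i
      show p • p ^ n • z.2 i = p ^ (n + 1) • z.2 i
      rw [← mul_smul, ← pow_succ']
  have h1 : ∀ᵐ w ∂((μ.prod κ).prod (ρ 0)), ∀ U ∈ TopologicalSpace.countableBasis (Fin d → T),
      (∃ k : ℕ, (fun z : X × (Fin d → T) => (S z.1, fun i => p • z.2 i))^[k] w.1 ∈ B ×ˢ U) →
      Dense {y : T | ∃ n : ℕ, (fun z : X × (Fin d → T) => (S z.1, fun i => p • z.2 i))^[n] w.1 ∈ B ×ˢ U ∧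
        y = p ^ n • w.2} :=
    (ae_ball_iff (TopologicalSpace.countable_countableBasis (Fin d → T))).2 fun U hU =>
      return_dense h (μ.prod κ) hS' (ρ 0) hq hat
        (hB.prod (TopologicalSpace.isOpen_of_mem_countableBasis hU).measurableSet)
  have h2 : ∀ᵐ w ∂((μ.prod κ).prod (ρ 0)), (∃ k : ℕ, S^[k] w.1.1 ∈ B) →
      Dense {y : Fin d → T | ∃ k : ℕ, S^[k] w.1.1 ∈ B ∧ y = fun i => p ^ k • w.1.2 i} :=
    Measure.quasiMeasurePreserving_fst.ae hd
  have h3 := (mp_tail μ ρ).quasiMeasurePreserving.ae (h1.and h2)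
  filter_upwards [h3] with z hz hk
  obtain ⟨hz1, hz2⟩ := hz
  simp only [hit] at hz1
  have hz2' := hz2 hk
  rw [dense_iff_inter_open]
  intro O hO hO0
  obtain ⟨w, hw⟩ := hO0
  obtain ⟨r, hr, hball⟩ := Metric.isOpen_iff.1 hO w hw
  -- a basic open set around the tail of `w`
  obtain ⟨U, hU, hwU, hUb⟩ := (TopologicalSpace.isBasis_countableBasis (Fin d → T)).exists_subset_of_mem_open
    (Metric.mem_ball_self hr : (fun j : Fin d => w (Fin.succAbove 0 j)) ∈ Metric.ball _ r) Metric.isOpen_ball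
  obtain ⟨_, hyU, k, hkB, rfl⟩ := hz2'.inter_open_nonempty U (TopologicalSpace.isOpen_of_mem_countableBasis hU) ⟨_, hwU⟩
  have h4 := hz1 U hU ⟨k, hkB, hyU⟩
  obtain ⟨_, hyJ, n, hn, rfl⟩ := h4.inter_open_nonempty (Metric.ball (w 0) r) Metric.isOpen_ball
    ⟨w 0, Metric.mem_ball_self hr⟩
  refine ⟨fun i => p ^ n • z.2 i, hball ?_, n, hn.1, rfl⟩
  rw [Metric.mem_ball, dist_pi_lt_iff hr]
  have h5 := hUb hn.2
  rw [Metric.mem_ball, dist_pi_lt_iff hr] at h5
  intro i
  refine Fin.cases ?_ (fun j => ?_) i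
  · exact Metric.mem_ball.1 hyJ
  · exact h5 j

theorem dense_all {p q : ℕ} (h : MI p q) (μ : Measure X) [IsProbabilityMeasure μ] {S : X → X}
    (hS : MeasurePreserving S μ μ) {B : Set X} (hB : MeasurableSet B) (d : ℕ) : ∀ (ρ : Fin d → Measure T)
    [∀ i, IsProbabilityMeasure (ρ i)], (∀ i, MeasurePreserving (fun x : T => p • x) (ρ i) (ρ i)) →
    (∀ i, MeasurePreserving (fun x : T => q • x) (ρ i) (ρ i)) → (∀ i x, ρ i {x} = 0) →
    ∀ᵐ z ∂(μ.prod (Measure.pi ρ)), (∃ k : ℕ, S^[k] z.1 ∈ B) →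
      Dense {y : Fin d → T | ∃ k : ℕ, S^[k] z.1 ∈ B ∧ y = fun i => p ^ k • z.2 i} := by
  induction d with
  | zero =>
    intro ρ _ _ _ _
    refine Eventually.of_forall fun z hk => ?_
    obtain ⟨k, hk⟩ := hk
    have h1 : {y : Fin 0 → T | ∃ k : ℕ, S^[k] z.1 ∈ B ∧ y = fun i => p ^ k • z.2 i} = univ := by
      refine eq_univ_of_forall fun y => ⟨k, hk, Subsingleton.elim _ _⟩
    rw [h1]
    exact dense_univ
  | succ d ih =>
    intro ρ _ hp hq hat
    exact dense_step h μ hS hB ρ (fun i _ => hp i) (hq 0) (hat 0)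
      (ih (fun j => ρ (Fin.succAbove 0 j)) (fun j => hp _) (fun j => hq _) fun j => hat _)

/-- **Moving targets in the torus at return times.** -/
theorem rel_pi {p q : ℕ} (h : MI p q) (μ : Measure X) [IsProbabilityMeasure μ] {S : X → X}
    (hS : MeasurePreserving S μ μ) {B : Set X} (hB : MeasurableSet B) {d : ℕ} (ρ : Fin (d + 1) → Measure T)
    [∀ i, IsProbabilityMeasure (ρ i)]
    (hp : ∀ i, i ≠ 0 → MeasurePreserving (fun x : T => p • x) (ρ i) (ρ i))
    (hq : ∀ i, MeasurePreserving (fun x : T => q • x) (ρ i) (ρ i)) (hat : ∀ i x, ρ i {x} = 0)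
    (c : ℕ → X → Fin (d + 1) → T) (hc : ∀ k, Measurable (c k)) :
    ∀ᵐ z ∂(μ.prod (Measure.pi ρ)), (∃ k : ℕ, S^[k] z.1 ∈ B) →
      Dense {y : Fin (d + 1) → T | ∃ k : ℕ, S^[k] z.1 ∈ B ∧ y = fun i => p ^ k • z.2 i + c k z.1 i} := by
  classical
  have hdn := dense_step h μ hS hB ρ hp (hq 0) (hat 0)
    (dense_all h μ hS hB d (fun j => ρ (Fin.succAbove 0 j)) (fun j => hp _ (Fin.succAbove_ne 0 j)) (fun j => hq _)
      fun j => hat _)
  have key : ∀ (w : Fin (d + 1) → T) (r : ℝ), 0 < r → ∀ᵐ z ∂(μ.prod (Measure.pi ρ)), (∃ k : ℕ, S^[k] z.1 ∈ B) →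
      ∃ k : ℕ, S^[k] z.1 ∈ B ∧ dist (fun i => p ^ k • z.2 i + c k z.1 i : Fin (d + 1) → T) w < r := by
    intro w r hr
    obtain ⟨m, hm⟩ := Vg_ne h.2.1 hr
    set Z : Set (X × (Fin (d + 1) → T)) := {z | ∀ k : ℕ, S^[k] z.1 ∈ B →
      r ≤ dist (fun i => p ^ k • z.2 i + c k z.1 i : Fin (d + 1) → T) w} with hZ
    have hZm : MeasurableSet Z := by
      have e1 : Z = ⋂ k : ℕ, ((Prod.fst ⁻¹' ((S^[k]) ⁻¹' B))ᶜ ∪
          {z : X × (Fin (d + 1) → T) | r ≤ dist (fun i => p ^ k • z.2 i + c k z.1 i : Fin (d + 1) → T) w}) := by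
        ext z
        simp only [hZ, mem_ofPred_eq, mem_iInter, mem_union, mem_compl_iff, mem_preimage, imp_iff_not_or]
      rw [e1]
      refine MeasurableSet.iInter fun k => (measurable_fst ((hS.measurable.iterate k) hB)).compl.union ?_
      refine measurableSet_le measurable_const (Measurable.dist ?_ measurable_const)
      refine measurable_pi_lambda _ fun i => ?_
      have h1 : Measurable fun z : X × (Fin (d + 1) → T) => p ^ k • z.2 i :=
        (continuous_const_smul (p ^ k)).measurable.comp ((measurable_pi_apply i).comp measurable_snd)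
      exact h1.add ((measurable_pi_apply i).comp ((hc k).comp measurable_fst))
    -- the points of `Z` without a large product pattern
    set G : Set (Fin (d + 1) → Finset ℕ) := {g | ∀ i, m ≤ (g i).card} with hG
    set Z' : (Fin (d + 1) → ℕ) → Set (X × (Fin (d + 1) → T)) := fun e =>
      {z | (z.1, fun i => q ^ e i • z.2 i) ∈ Z} with hZ'
    have hZ'm : ∀ e, MeasurableSet (Z' e) := by
      intro e
      refine (measurable_fst.prodMk (measurable_pi_lambda _ fun i => ?_)) hZm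
      exact (continuous_const_smul (q ^ e i)).measurable.comp ((measurable_pi_apply i).comp measurable_snd)
    set Nn : Set (X × (Fin (d + 1) → T)) := Z ∩ ⋂ g ∈ G, ⋃ e ∈ {e : Fin (d + 1) → ℕ | ∀ i, e i ∈ g i}, (Z' e)ᶜ with hN
    have hNm : MeasurableSet Nn :=
      hZm.inter (MeasurableSet.biInter (Set.to_countable G) fun g _ =>
        MeasurableSet.biUnion (Set.to_countable _) fun e _ => (hZ'm e).compl)
    have hN0 : (μ.prod (Measure.pi ρ)) Nn = 0 := by
      rw [Measure.measure_prod_null hNm]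
      refine Eventually.of_forall fun x => ?_
      have hZx : MeasurableSet {y | (x, y) ∈ Z} := measurable_prodMk_left hZm
      have h1 := ae_pattern ρ hq m Finset.univ {y | (x, y) ∈ Z} hZx
      refine measure_eq_zero_iff_ae_notMem.2 ?_
      filter_upwards [h1] with y hy hyN
      obtain ⟨g, hg1, hg2⟩ := hy hyN.1
      have h2 := mem_iInter₂.1 hyN.2 g fun i => hg1 i (Finset.mem_univ i)
      obtain ⟨e, he, hne⟩ := mem_iUnion₂.1 h2
      exact hne (hg2 e (fun i _ => he i) fun i hi => absurd (Finset.mem_univ i) hi)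
    filter_upwards [measure_eq_zero_iff_ae_notMem.1 hN0, hdn] with z hz1 hz2 hk
    by_contra hcon
    push Not at hcon
    have hzZ : z ∈ Z := hcon
    have h1 : ∃ g ∈ G, ∀ e : Fin (d + 1) → ℕ, (∀ i, e i ∈ g i) → z ∈ Z' e := by
      by_contra hcon2
      push Not at hcon2
      refine hz1 ⟨hzZ, mem_iInter₂.2 fun g hg => ?_⟩
      obtain ⟨e, he, hne⟩ := hcon2 g hg
      exact mem_iUnion₂.2 ⟨e, he, hne⟩
    obtain ⟨g, hg, hge⟩ := h1
    set O : Set (Fin (d + 1) → T) := {y | ∀ i, y i ∈ (Vg q r (g i))ᶜ} with hO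
    have hOo : IsOpen O := by
      have e1 : O = ⋂ i, (fun y : Fin (d + 1) → T => y i) ⁻¹' (Vg q r (g i))ᶜ := by
        ext y
        simp only [hO, mem_ofPred_eq, mem_iInter, mem_preimage]
      rw [e1]
      exact isOpen_iInter_of_finite fun i => (closed_Vg q r (g i)).isOpen_compl.preimage (continuous_apply i)
    have hOne : O.Nonempty := by
      have h1 : ∀ i, ∃ w, w ∈ (Vg q r (g i))ᶜ := fun i => nonempty_compl.2 (hm (g i) (hg i))
      choose w hw using h1
      exact ⟨w, hw⟩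
    obtain ⟨_, hy, k, hkB, rfl⟩ := (hz2 hk).inter_open_nonempty O hOo hOne
    have h3 : ∀ i, ∃ j ∈ g i, dist (q ^ j • (p ^ k • z.2 i)) (w i - c k z.1 i) < r := by
      intro i
      have h4 : p ^ k • z.2 i ∉ Vg q r (g i) := hy i
      by_contra hcon2
      push Not at hcon2
      exact h4 ⟨w i - c k z.1 i, hcon2⟩
    choose e he1 he2 using h3
    have h5 : r ≤ dist (fun i => p ^ k • q ^ e i • z.2 i + c k z.1 i : Fin (d + 1) → T) w :=
      hge e he1 k hkB
    have h6 : dist (fun i => p ^ k • q ^ e i • z.2 i + c k z.1 i : Fin (d + 1) → T) w < r := by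
      rw [dist_pi_lt_iff hr]
      intro i
      have h7 := he2 i
      rw [dist_eq_norm] at h7 ⊢
      have e1 : p ^ k • q ^ e i • z.2 i + c k z.1 i - w i = q ^ e i • (p ^ k • z.2 i) - (w i - c k z.1 i) := by
        rw [smul_smul, smul_smul, mul_comm (p ^ k)]
        abel
      rw [e1]
      exact h7
    exact absurd h5 (not_le.2 h6)
  have h1 : ∀ᵐ z ∂(μ.prod (Measure.pi ρ)), ∀ i j : ℕ, (∃ k : ℕ, S^[k] z.1 ∈ B) →
      ∃ k : ℕ, S^[k] z.1 ∈ B ∧ dist (fun i => p ^ k • z.2 i + c k z.1 i : Fin (d + 1) → T)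
        (TopologicalSpace.denseSeq (Fin (d + 1) → T) i) < 1 / ((j : ℝ) + 1) :=
    ae_all_iff.2 fun i => ae_all_iff.2 fun j => key _ _ (by positivity)
  filter_upwards [h1] with z hz hk
  refine dense_of_balls' fun i j => ?_
  obtain ⟨k, hkB, hd⟩ := hz i j hk
  exact ⟨_, ⟨k, hkB, rfl⟩, hd⟩

end Pool.Agent.RSet
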