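import Pool.Agent.RSet.PiBan

/-!
# Measures invariant under both maps: consequences of the uniform form
-/

set_option autoImplicit false

open MeasureTheory Filter Topology Set
open scoped ENNReal

namespace Pool.Agent.RSet

open Pool.Agent.NSet

/-- the points without a hit at the times in `A` between `s` and `s + M` -/
def Cs (p : ℕ) {d : ℕ} (c : ℕ → Fin d → T) (z : Fin d → T) (r : ℝ) (A : Set ℕ) (M s : ℕ) : Set (Fin d → T) :=
  {x | ∀ k < M, s + k ∈ A → r ≤ dist (pt p c (s + k) x) z}

theorem Cs_meas (p : ℕ) {d : ℕ} (c : ℕ → Fin d → T) (z : Fin d → T) (r : ℝ) (A : Set ℕ) (M s : ℕ) :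
    MeasurableSet (Cs p c z r A M s) := by
  have e1 : Cs p c z r A M s = ⋂ k, ⋂ (_ : k < M), ⋂ (_ : s + k ∈ A), {x | r ≤ dist (pt p c (s + k) x) z} := by
    ext x
    simp only [Cs, mem_ofPred_eq, mem_iInter]
  rw [e1]
  exact (isClosed_iInter fun k => isClosed_iInter fun _ => isClosed_iInter fun _ =>
    isClosed_le continuous_const ((cont_pt p c (s + k)).dist continuous_const)).measurableSet

/-- the uniform form at all positions -/
theorem unif_shift {p q : ℕ} (h : MI p q) {d : ℕ} (ρ : Fin (d + 1) → Measure T) [∀ i, IsProbabilityMeasure (ρ i)]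
    (hp : ∀ i, MeasurePreserving (fun x : T => p • x) (ρ i) (ρ i))
    (hq : ∀ i, MeasurePreserving (fun x : T => q • x) (ρ i) (ρ i)) (hat : ∀ i x, ρ i {x} = 0)
    (z : Fin (d + 1) → T) {r δ η : ℝ} (hr : 0 < r) (hδ : 0 < δ) (hη : 0 < η) :
    ∃ M : ℕ, 0 < M ∧ ∀ (A : Set ℕ) (s : ℕ), δ * M ≤ cnt {n | s + n ∈ A} M → ∀ c : ℕ → Fin (d + 1) → T,
      (Measure.pi ρ).real (Cs p c z r A M s) ≤ η := by
  obtain ⟨M, hM, hA⟩ := unif_dens h ρ hp hq hat z hr hδ hη
  refine ⟨M, hM, fun A s hs c => ?_⟩
  have hP : MeasurePreserving (fun x : Fin (d + 1) → T => fun i => p • x i) (Measure.pi ρ) (Measure.pi ρ) :=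
    measurePreserving_pi _ _ fun j => hp j
  have h1 := hA {n | s + n ∈ A} hs fun k => c (s + k)
  refine le_trans ?_ h1
  have hm : MeasurableSet {x | ∀ k ∈ {n | s + n ∈ A}, k < M → r ≤ dist (pt p (fun k => c (s + k)) k x) z} := by
    have e1 : {x | ∀ k ∈ {n | s + n ∈ A}, k < M → r ≤ dist (pt p (fun k => c (s + k)) k x) z} =
        ⋂ k, ⋂ (_ : k ∈ {n | s + n ∈ A}), ⋂ (_ : k < M), {x | r ≤ dist (pt p (fun k => c (s + k)) k x) z} := by
      ext x
      simp only [mem_ofPred_eq, mem_iInter]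
    rw [e1]
    exact (isClosed_iInter fun k => isClosed_iInter fun _ => isClosed_iInter fun _ =>
      isClosed_le continuous_const ((cont_pt p _ k).dist continuous_const)).measurableSet
  have e2 : Cs p c z r A M s = (fun x : Fin (d + 1) → T => fun i => p ^ s • x i) ⁻¹'
      {x | ∀ k ∈ {n | s + n ∈ A}, k < M → r ≤ dist (pt p (fun k => c (s + k)) k x) z} := by
    ext x
    have e3 : ∀ j, pt p (fun j => c (s + j)) j (fun i => p ^ s • x i) = pt p c (s + j) x := by
      intro j
      funext i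
      show p ^ j • p ^ s • x i + c (s + j) i = p ^ (s + j) • x i + c (s + j) i
      rw [smul_smul, ← pow_add, add_comm j s]
    simp only [Cs, mem_ofPred_eq, mem_preimage, e3]
    exact ⟨fun h k hk hkM => h k hkM hk, fun h k hkM hk => h k hk hkM⟩
  rw [e2, measureReal_def, measureReal_def, (mp_pow hP s).measure_preimage hm.nullMeasurableSet]

/-- **Sets of times of positive upper Banach density.** -/
theorem ban_dense {p q : ℕ} (h : MI p q) {d : ℕ} (ρ : Fin (d + 1) → Measure T) [∀ i, IsProbabilityMeasure (ρ i)]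
    (hp : ∀ i, MeasurePreserving (fun x : T => p • x) (ρ i) (ρ i))
    (hq : ∀ i, MeasurePreserving (fun x : T => q • x) (ρ i) (ρ i)) (hat : ∀ i x, ρ i {x} = 0)
    (A : Set ℕ) {δ : ℝ} (hδ : 0 < δ) (hA : ∀ M : ℕ, ∃ s : ℕ, δ * M ≤ cnt {n | s + n ∈ A} M)
    (c : ℕ → Fin (d + 1) → T) :
    ∀ᵐ x ∂(Measure.pi ρ), Dense {y : Fin (d + 1) → T | ∃ k ∈ A, y = fun i => p ^ k • x i + c k i} := by
  have key : ∀ (z : Fin (d + 1) → T) (r : ℝ), 0 < r → ∀ᵐ x ∂(Measure.pi ρ), ∃ k ∈ A, dist (pt p c k x) z < r := by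
    intro z r hr
    have hle : ∀ η : ℝ, 0 < η → (Measure.pi ρ).real {x | ∀ k ∈ A, r ≤ dist (pt p c k x) z} ≤ η := by
      intro η hη
      obtain ⟨M, -, hM⟩ := unif_shift h ρ hp hq hat z hr hδ hη
      obtain ⟨s, hs⟩ := hA M
      have hsub : {x | ∀ k ∈ A, r ≤ dist (pt p c k x) z} ⊆ Cs p c z r A M s := fun x hx k _ hk => hx (s + k) hk
      exact (measureReal_mono hsub (measure_ne_top _ _)).trans (hM A s hs c)
    have h0 : (Measure.pi ρ).real {x | ∀ k ∈ A, r ≤ dist (pt p c k x) z} = 0 :=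
      le_antisymm (le_of_forall_pos_le_add fun η hη => by
        rw [zero_add]
        exact hle η hη) measureReal_nonneg
    rw [measureReal_eq_zero_iff] at h0
    filter_upwards [measure_eq_zero_iff_ae_notMem.1 h0] with x hx
    by_contra hcon
    push Not at hcon
    exact hx fun k hk => hcon k hk
  have h1 : ∀ᵐ x ∂(Measure.pi ρ), ∀ i j : ℕ, ∃ k ∈ A,
      dist (pt p c k x) (TopologicalSpace.denseSeq (Fin (d + 1) → T) i) < 1 / ((j : ℝ) + 1) :=
    ae_all_iff.2 fun i => ae_all_iff.2 fun j => key _ _ (by positivity)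
  filter_upwards [h1] with x hx
  refine dense_of_balls' fun i j => ?_
  obtain ⟨k, hk, hd⟩ := hx i j
  exact ⟨_, ⟨k, hk, rfl⟩, hd⟩

theorem cnt_le (D : Set ℕ) (N : ℕ) : cnt D N ≤ N := by
  classical
  unfold cnt
  exact (Finset.card_filter_le _ _).trans (by rw [Finset.card_range])

/-- many windows contain many elements of `A` -/
theorem good_windows (A : Set ℕ) {δ : ℝ} (hδ : 0 < δ) {M : ℕ} (hM : 0 < M) (N : ℕ) (hN : δ * N ≤ cnt A N) :
    δ / 2 * N - M ≤ (cnt {s | δ / 2 * M ≤ cnt {n | s + n ∈ A} M} N : ℝ) := by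
  classical
  have hM0 : (0 : ℝ) < M := by exact_mod_cast hM
  set Gd : Set ℕ := {s | δ / 2 * M ≤ cnt {n | s + n ∈ A} M} with hGd
  have h1 : M * cnt A N ≤ ∑ i ∈ Finset.range M, cnt {n | n + i ∈ A} N + M * M := by
    calc M * cnt A N = ∑ _i ∈ Finset.range M, cnt A N := by rw [Finset.sum_const, Finset.card_range, smul_eq_mul]
      _ ≤ ∑ i ∈ Finset.range M, (cnt {n | n + i ∈ A} N + M) := by
        refine Finset.sum_le_sum fun i hi => (cnt_shift A i N).trans ?_
        rw [Finset.mem_range] at hi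
        omega
      _ = ∑ i ∈ Finset.range M, cnt {n | n + i ∈ A} N + M * M := by
        rw [Finset.sum_add_distrib, Finset.sum_const, Finset.card_range, smul_eq_mul]
  have h2 : ∑ i ∈ Finset.range M, cnt {n | n + i ∈ A} N = ∑ s ∈ Finset.range N, cnt {n | s + n ∈ A} M := by
    simp only [cnt_eq_sum]
    rw [Finset.sum_comm]
    rfl
  have h3 : (∑ s ∈ Finset.range N, (cnt {n | s + n ∈ A} M : ℝ)) ≤ M * cnt Gd N + δ / 2 * M * N := by
    have h4 : ∀ s ∈ Finset.range N, (cnt {n | s + n ∈ A} M : ℝ) ≤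
        M * ((if s ∈ Gd then 1 else 0 : ℕ) : ℝ) + δ / 2 * M := by
      intro s _
      by_cases hs : s ∈ Gd
      · rw [if_pos hs]
        have h5 : (cnt {n | s + n ∈ A} M : ℝ) ≤ M := by exact_mod_cast cnt_le _ M
        have h6 : 0 ≤ δ / 2 * (M : ℝ) := by positivity
        push_cast
        linarith
      · rw [if_neg hs]
        have h5 : (cnt {n | s + n ∈ A} M : ℝ) < δ / 2 * M := not_le.1 hs
        push_cast
        linarith
    refine (Finset.sum_le_sum h4).trans ?_
    rw [Finset.sum_add_distrib, ← Finset.mul_sum, Finset.sum_const, Finset.card_range, nsmul_eq_mul, cnt_eq_sum Gd N]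
    push_cast
    linarith
  have h4 : (M : ℝ) * cnt A N ≤ (∑ s ∈ Finset.range N, (cnt {n | s + n ∈ A} M : ℝ)) + M * M := by
    rw [h2] at h1
    exact_mod_cast h1
  have h5 : (M : ℝ) * (δ * N) ≤ M * cnt A N := mul_le_mul_of_nonneg_left hN hM0.le
  have h6 : (M : ℝ) * (δ / 2 * N - M) ≤ M * cnt Gd N := by
    have : (M : ℝ) * (δ / 2 * N - M) = M * (δ * N) - δ / 2 * M * N - M * M := by ring
    linarith
  exact le_of_mul_le_mul_left h6 hM0

/-- The hits at the times in `A` do not have density zero if `A` does not have density zero: one ball. -/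
theorem upp_one {p q : ℕ} (h : MI p q) {d : ℕ} (ρ : Fin (d + 1) → Measure T) [∀ i, IsProbabilityMeasure (ρ i)]
    (hp : ∀ i, MeasurePreserving (fun x : T => p • x) (ρ i) (ρ i))
    (hq : ∀ i, MeasurePreserving (fun x : T => q • x) (ρ i) (ρ i)) (hat : ∀ i x, ρ i {x} = 0)
    (A : Set ℕ) (hA : ¬ Tendsto (fun N : ℕ => (cnt A N : ℝ) / N) atTop (𝓝 0))
    (c : ℕ → Fin (d + 1) → T) (z : Fin (d + 1) → T) {r : ℝ} (hr : 0 < r) :
    ∀ᵐ x ∂(Measure.pi ρ),
      ¬ Tendsto (fun N : ℕ => (cnt {k | k ∈ A ∧ dist (pt p c k x) z < r} N : ℝ) / N) atTop (𝓝 0) := by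
  classical
  set κ := Measure.pi ρ with hκ
  -- the upper density of `A` is positive
  obtain ⟨δ, hδ, hfreq⟩ : ∃ δ : ℝ, 0 < δ ∧ ∃ᶠ N : ℕ in atTop, δ * N ≤ cnt A N := by
    by_contra hcon
    push Not at hcon
    apply hA
    rw [Metric.tendsto_nhds]
    intro ε hε
    have h1 := hcon ε hε
    filter_upwards [h1, eventually_gt_atTop 0] with N hN hN0
    have hN0' : (0 : ℝ) < N := by exact_mod_cast hN0
    rw [dist_zero_right, Real.norm_eq_abs, abs_of_nonneg (by positivity), div_lt_iff₀ hN0']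
    exact hN
  set D : (Fin (d + 1) → T) → Set ℕ := fun x => {k | k ∈ A ∧ dist (pt p c k x) z < r} with hD
  have hhm : ∀ k, MeasurableSet {x : Fin (d + 1) → T | k ∈ A ∧ dist (pt p c k x) z < r} := fun k => by
    by_cases hk : k ∈ A
    · simp only [hk, true_and]
      exact (isOpen_lt ((cont_pt p c k).dist continuous_const) continuous_const).measurableSet
    · simp only [hk, false_and]
      exact MeasurableSet.const False
  have hcm : ∀ N : ℕ, Measurable fun x => (cnt (D x) N : ℝ) := by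
    intro N
    have e1 : (fun x => (cnt (D x) N : ℝ)) = fun x => ∑ k ∈ Finset.range N,
        ({x : Fin (d + 1) → T | k ∈ A ∧ dist (pt p c k x) z < r}.indicator (fun _ => (1 : ℝ))) x := by
      funext x
      rw [cnt_eq_sum]
      push_cast
      refine Finset.sum_congr rfl fun k _ => ?_
      by_cases hx : k ∈ A ∧ dist (pt p c k x) z < r
      · have h1 : k ∈ D x := hx
        have h2 : x ∈ {x : Fin (d + 1) → T | k ∈ A ∧ dist (pt p c k x) z < r} := hx
        simp only [h1, if_true, indicator_of_mem h2]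
      · have h1 : k ∉ D x := hx
        have h2 : x ∉ {x : Fin (d + 1) → T | k ∈ A ∧ dist (pt p c k x) z < r} := hx
        simp only [h1, if_false, indicator_of_notMem h2]
    rw [e1]
    exact Finset.measurable_fun_sum _ fun k _ => measurable_const.indicator (hhm k)
  set Z : Set (Fin (d + 1) → T) := {x | Tendsto (fun N : ℕ => (cnt (D x) N : ℝ) / N) atTop (𝓝 0)} with hZ
  have hZm : MeasurableSet Z := measurableSet_tendsto (𝓝 0) fun N => (hcm N).div_const _
  have hle : ∀ η : ℝ, 0 < η → κ.real Z ≤ η := by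
    intro η hη
    obtain ⟨M, hM, hMA⟩ := unif_shift h ρ hp hq hat z hr (δ := δ / 2) (by positivity) hη
    have hM0 : (0 : ℝ) < M := by exact_mod_cast hM
    set Gd : Set ℕ := {s | δ / 2 * M ≤ cnt {n | s + n ∈ A} M} with hGd
    have hCm : ∀ s, MeasurableSet (Cs p c z r A M s) := fun s => Cs_meas p c z r A M s
    have hCη : ∀ s ∈ Gd, κ.real (Cs p c z r A M s) ≤ η := fun s hs => hMA A s hs c
    set u : ℕ → (Fin (d + 1) → T) → ℝ := fun N x =>
      (∑ s ∈ Finset.range N, ((Cs p c z r A M s)ᶜ.indicator (fun _ => (1 : ℝ)) x)) / N with hu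
    have hum : ∀ N, Measurable (u N) := fun N =>
      (Finset.measurable_fun_sum _ fun k _ => measurable_const.indicator (hCm k).compl).div_const _
    have hind : ∀ s x, (Cs p c z r A M s)ᶜ.indicator (fun _ => (1 : ℝ)) x ≤ 1 := fun s x => by
      by_cases hx : x ∈ (Cs p c z r A M s)ᶜ
      · rw [indicator_of_mem hx]
      · rw [indicator_of_notMem hx]
        exact zero_le_one
    have hind0 : ∀ s x, 0 ≤ (Cs p c z r A M s)ᶜ.indicator (fun _ => (1 : ℝ)) x := fun s x =>
      indicator_nonneg (fun _ _ => zero_le_one) x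
    have hu1 : ∀ N x, ‖u N x‖ ≤ 1 := by
      intro N x
      rw [Real.norm_eq_abs, abs_of_nonneg (by
        show 0 ≤ (∑ s ∈ Finset.range N, ((Cs p c z r A M s)ᶜ.indicator (fun _ => (1 : ℝ)) x)) / N
        exact div_nonneg (Finset.sum_nonneg fun s _ => hind0 s x) (by positivity))]
      rcases Nat.eq_zero_or_pos N with h0 | h0
      · subst h0
        simp [hu]
      · have hN : (0 : ℝ) < N := by exact_mod_cast h0
        show (∑ s ∈ Finset.range N, ((Cs p c z r A M s)ᶜ.indicator (fun _ => (1 : ℝ)) x)) / N ≤ 1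
        rw [div_le_one hN]
        refine (Finset.sum_le_sum fun s _ => hind s x).trans ?_
        simp
    -- the integral over `Z` is large for infinitely many `N`
    have hlow : ∀ N : ℕ, 0 < N → δ * N ≤ cnt A N → η ≤ κ.real Z →
        (δ / 2 - M / N) * (κ.real Z - η) ≤ ∫ x in Z, u N x ∂κ := by
      intro N hN hNA hZη
      have hN' : (0 : ℝ) < N := by exact_mod_cast hN
      have h1 : ∫ x in Z, u N x ∂κ = (∑ s ∈ Finset.range N, κ.real (Z ∩ (Cs p c z r A M s)ᶜ)) / N := by
        show ∫ x in Z, (∑ s ∈ Finset.range N, ((Cs p c z r A M s)ᶜ.indicator (fun _ => (1 : ℝ)) x)) / N ∂κ = _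
        rw [integral_div, integral_finsetSum _ fun s _ => (integrable_const (1 : ℝ)).indicator (hCm s).compl]
        congr 1
        refine Finset.sum_congr rfl fun s _ => ?_
        rw [integral_indicator_const _ (hCm s).compl, smul_eq_mul, mul_one, measureReal_restrict_apply (hCm s).compl,
          inter_comm]
      rw [h1, le_div_iff₀ hN']
      have h2 : ∀ s ∈ Finset.range N, ((if s ∈ Gd then 1 else 0 : ℕ) : ℝ) * (κ.real Z - η) ≤
          κ.real (Z ∩ (Cs p c z r A M s)ᶜ) := by
        intro s _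
        by_cases hs : s ∈ Gd
        · rw [if_pos hs]
          have h3 : κ.real Z ≤ κ.real (Z ∩ (Cs p c z r A M s)ᶜ) + κ.real (Cs p c z r A M s) := by
            refine le_trans ?_ (measureReal_union_le _ _)
            refine measureReal_mono (fun x hx => ?_) (measure_ne_top _ _)
            by_cases hxC : x ∈ Cs p c z r A M s
            · exact Or.inr hxC
            · exact Or.inl ⟨hx, hxC⟩
          have h4 := hCη s hs
          push_cast
          linarith
        · rw [if_neg hs]
          push_cast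
          rw [zero_mul]
          exact measureReal_nonneg
      have h5 := Finset.sum_le_sum h2
      rw [← Finset.sum_mul] at h5
      have h6 : (∑ s ∈ Finset.range N, ((if s ∈ Gd then 1 else 0 : ℕ) : ℝ)) = cnt Gd N := by
        rw [cnt_eq_sum Gd N]
        push_cast
        rfl
      rw [h6] at h5
      have h7 := good_windows A hδ hM N hNA
      have h8 : (δ / 2 * N - M) * (κ.real Z - η) ≤ (cnt Gd N : ℝ) * (κ.real Z - η) :=
        mul_le_mul_of_nonneg_right h7 (by linarith)
      have h9 : (δ / 2 - M / N) * (κ.real Z - η) * N = (δ / 2 * N - M) * (κ.real Z - η) := by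
        field_simp
      linarith
    -- and tends to zero
    have hlim : Tendsto (fun N : ℕ => ∫ x in Z, u N x ∂κ) atTop (𝓝 (∫ _x in Z, (0 : ℝ) ∂κ)) := by
      refine tendsto_integral_of_dominated_convergence (fun _ => (1 : ℝ)) (fun N => (hum N).aestronglyMeasurable)
        (integrable_const _) (fun N => Eventually.of_forall fun x => hu1 N x) ?_
      filter_upwards [ae_restrict_mem hZm] with x hx
      have hbound : ∀ N : ℕ, u N x ≤ M * ((cnt (D x) (N + M) : ℝ) / ((N + M : ℕ) : ℝ)) * (((N + M : ℕ) : ℝ) / N) := by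
        intro N
        rcases Nat.eq_zero_or_pos N with h0 | h0
        · subst h0
          simp [hu]
        · have hN : (0 : ℝ) < N := by exact_mod_cast h0
          have hNK : (0 : ℝ) < ((N + M : ℕ) : ℝ) := by positivity
          have e1 : (M : ℝ) * ((cnt (D x) (N + M) : ℝ) / ((N + M : ℕ) : ℝ)) * (((N + M : ℕ) : ℝ) / N) =
              M * (cnt (D x) (N + M) : ℝ) / N := by
            field_simp
          rw [e1]
          show (∑ s ∈ Finset.range N, ((Cs p c z r A M s)ᶜ.indicator (fun _ => (1 : ℝ)) x)) / N ≤ _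
          gcongr
          have h1 : ∀ s ∈ Finset.range N, (Cs p c z r A M s)ᶜ.indicator (fun _ => (1 : ℝ)) x ≤
              ∑ j ∈ Finset.range M, (if s + j ∈ D x then 1 else 0 : ℝ) := by
            intro s _
            by_cases hxk : x ∈ (Cs p c z r A M s)ᶜ
            · rw [indicator_of_mem hxk]
              have h2 : ∃ j < M, s + j ∈ D x := by
                by_contra hcon
                push Not at hcon
                refine hxk fun j hj hjA => ?_
                by_contra hlt
                exact hcon j hj ⟨hjA, not_le.1 hlt⟩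
              obtain ⟨j, hj, hjD⟩ := h2
              refine le_trans ?_ (Finset.single_le_sum (f := fun j => (if s + j ∈ D x then 1 else 0 : ℝ))
                (fun j _ => by split_ifs <;> norm_num) (Finset.mem_range.2 hj))
              simp only [hjD, if_true, le_refl]
            · rw [indicator_of_notMem hxk]
              exact Finset.sum_nonneg fun j _ => by split_ifs <;> norm_num
          refine (Finset.sum_le_sum h1).trans ?_
          rw [Finset.sum_comm]
          have h2 : ∀ j ∈ Finset.range M, ∑ s ∈ Finset.range N, (if s + j ∈ D x then 1 else 0 : ℝ) ≤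
              (cnt (D x) (N + M) : ℝ) := by
            intro j hj
            rw [cnt_eq_sum]
            push_cast
            have h3 : ∑ s ∈ Finset.range N, (if s + j ∈ D x then 1 else 0 : ℝ) =
                ∑ l ∈ (Finset.range N).image (fun s => s + j), (if l ∈ D x then 1 else 0 : ℝ) := by
              rw [Finset.sum_image fun a _ b _ hab => by simpa using hab]
            rw [h3]
            refine Finset.sum_le_sum_of_subset_of_nonneg ?_ fun l _ _ => by split_ifs <;> norm_num
            intro l hl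
            obtain ⟨s, hs, rfl⟩ := Finset.mem_image.1 hl
            rw [Finset.mem_range] at hs hj ⊢
            omega
          refine (Finset.sum_le_sum h2).trans ?_
          rw [Finset.sum_const, Finset.card_range, nsmul_eq_mul]
      have hx' : Tendsto (fun N : ℕ => (cnt (D x) (N + M) : ℝ) / ((N + M : ℕ) : ℝ)) atTop (𝓝 0) :=
        (show Tendsto (fun N : ℕ => (cnt (D x) N : ℝ) / N) atTop (𝓝 0) from hx).comp (tendsto_add_atTop_nat M)
      have hr1 : Tendsto (fun N : ℕ => ((N + M : ℕ) : ℝ) / N) atTop (𝓝 1) := by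
        have h1 : Tendsto (fun N : ℕ => 1 + (M : ℝ) / N) atTop (𝓝 (1 + 0)) :=
          tendsto_const_nhds.add (tendsto_const_div_atTop_nhds_zero_nat (M : ℝ))
        rw [add_zero] at h1
        refine h1.congr' ?_
        filter_upwards [eventually_gt_atTop 0] with N hN
        have hN' : (0 : ℝ) < N := by exact_mod_cast hN
        push_cast
        field_simp
      have hprod := ((hx'.const_mul (M : ℝ)).mul hr1)
      rw [mul_zero, zero_mul] at hprod
      exact squeeze_zero (fun N => div_nonneg (Finset.sum_nonneg fun s _ => hind0 s x) (by positivity)) hbound hprod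
    rw [integral_zero] at hlim
    by_contra hcon
    push Not at hcon
    -- compare along the frequent `N`
    have hlim2 : Tendsto (fun N : ℕ => (δ / 2 - M / N) * (κ.real Z - η)) atTop (𝓝 ((δ / 2 - 0) * (κ.real Z - η))) :=
      (tendsto_const_nhds.sub (tendsto_const_div_atTop_nhds_zero_nat (M : ℝ))).mul_const _
    have hpos : 0 < (δ / 2 - 0) * (κ.real Z - η) := by
      have : 0 < κ.real Z - η := by linarith
      rw [sub_zero]
      positivity
    have h1 : ∀ᶠ N : ℕ in atTop, ∫ x in Z, u N x ∂κ < (δ / 2 - M / N) * (κ.real Z - η) :=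
      hlim.eventually_lt hlim2 hpos
    obtain ⟨N, hN1, hN2, hN3⟩ := (hfreq.and_eventually (h1.and (eventually_gt_atTop 0))).exists
    have h2 := hlow N hN3 hN1 hcon.le
    linarith
  have h0 : κ.real Z ≤ 0 := le_of_forall_pos_le_add fun η hη => by
    rw [zero_add]
    exact hle η hη
  have h1 : κ Z = 0 := by
    have h2 : κ.real Z = 0 := le_antisymm h0 measureReal_nonneg
    rwa [measureReal_eq_zero_iff] at h2
  exact measure_eq_zero_iff_ae_notMem.1 h1

/-- **Sets of times of positive upper density.** -/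
theorem upp_all {p q : ℕ} (h : MI p q) {d : ℕ} (ρ : Fin (d + 1) → Measure T) [∀ i, IsProbabilityMeasure (ρ i)]
    (hp : ∀ i, MeasurePreserving (fun x : T => p • x) (ρ i) (ρ i))
    (hq : ∀ i, MeasurePreserving (fun x : T => q • x) (ρ i) (ρ i)) (hat : ∀ i x, ρ i {x} = 0)
    (A : Set ℕ) (hA : ¬ Tendsto (fun N : ℕ => (cnt A N : ℝ) / N) atTop (𝓝 0)) (c : ℕ → Fin (d + 1) → T) :
    ∀ᵐ x ∂(Measure.pi ρ), ∀ J : Set (Fin (d + 1) → T), IsOpen J → J.Nonempty →
      ¬ Tendsto (fun N : ℕ => (cnt {k | k ∈ A ∧ pt p c k x ∈ J} N : ℝ) / N) atTop (𝓝 0) := by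
  have h1 : ∀ᵐ x ∂(Measure.pi ρ), ∀ i j : ℕ, ¬ Tendsto (fun N : ℕ => (cnt {k | k ∈ A ∧ dist (pt p c k x)
      (TopologicalSpace.denseSeq (Fin (d + 1) → T) i) < 1 / ((j : ℝ) + 1)} N : ℝ) / N) atTop (𝓝 0) :=
    ae_all_iff.2 fun i => ae_all_iff.2 fun j => upp_one h ρ hp hq hat A hA c _ (by positivity)
  filter_upwards [h1] with x hx J hJ hJ0 hlim
  obtain ⟨w, hw⟩ := hJ0
  obtain ⟨r, hr, hball⟩ := Metric.isOpen_iff.1 hJ w hw
  obtain ⟨_, hz, i, rfl⟩ := (TopologicalSpace.denseRange_denseSeq (Fin (d + 1) → T)).inter_open_nonempty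
    (Metric.ball w (r / 2)) Metric.isOpen_ball ⟨w, Metric.mem_ball_self (by positivity)⟩
  obtain ⟨j, hj⟩ := exists_nat_one_div_lt (show (0 : ℝ) < r / 2 by positivity)
  refine hx i j (squeeze_zero (fun N => by positivity) (fun N => ?_) hlim)
  have h2 : cnt {k | k ∈ A ∧ dist (pt p c k x) (TopologicalSpace.denseSeq (Fin (d + 1) → T) i) < 1 / ((j : ℝ) + 1)} N ≤
      cnt {k | k ∈ A ∧ pt p c k x ∈ J} N := by
    refine cnt_mono (fun k hk => ?_) N
    have hk' : k ∈ A ∧ dist (pt p c k x) (TopologicalSpace.denseSeq (Fin (d + 1) → T) i) < 1 / ((j : ℝ) + 1) := hk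
    show k ∈ A ∧ pt p c k x ∈ J
    refine ⟨hk'.1, hball ?_⟩
    rw [Metric.mem_ball] at hz ⊢
    have h3 : dist (pt p c k x) (TopologicalSpace.denseSeq (Fin (d + 1) → T) i) < 1 / ((j : ℝ) + 1) := hk'.2
    have h4 := dist_triangle (pt p c k x) (TopologicalSpace.denseSeq (Fin (d + 1) → T) i) w
    linarith
  have h3 : (cnt {k | k ∈ A ∧ dist (pt p c k x) (TopologicalSpace.denseSeq (Fin (d + 1) → T) i) <
      1 / ((j : ℝ) + 1)} N : ℝ) ≤ (cnt {k | k ∈ A ∧ pt p c k x ∈ J} N : ℝ) := by exact_mod_cast h2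
  gcongr

end Pool.Agent.RSet
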