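import Pool.Agent.RSet.Level
import Pool.Agent.RSet.Mix

/-!
# Translates: the set of translations with a given overlap is closed and invariant
-/

set_option autoImplicit false

open MeasureTheory Filter Topology Set
open scoped ENNReal NNReal BoundedContinuousFunction

namespace Pool.Agent.RSet

open Pool.Agent.NSet

theorem le_of_test {α β : Measure T} [IsFiniteMeasure α] [IsFiniteMeasure β]
    (h : ∀ f : T →ᵇ ℝ≥0, ∫⁻ x, f x ∂α ≤ ∫⁻ x, f x ∂β) : α ≤ β := by
  have hcl : ∀ F : Set T, IsClosed F → α F ≤ β F := by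
    intro F hF
    exact le_of_tendsto_of_tendsto' (HasOuterApproxClosed.tendsto_lintegral_apprSeq hF α)
      (HasOuterApproxClosed.tendsto_lintegral_apprSeq hF β) fun n => h _
  refine Measure.le_iff.2 fun s hs => ?_
  rw [hs.measure_eq_iSup_isClosed_of_ne_top (measure_ne_top α s)]
  exact iSup₂_le fun F hFs => iSup_le fun hF => (hcl F hF).trans (measure_mono hFs)

theorem cont_test (f : T →ᵇ ℝ≥0) : Continuous fun κ : ProbabilityMeasure T => ∫⁻ x, f x ∂(κ : Measure T) := by
  have h1 : Continuous fun κ : ProbabilityMeasure T => ((κ.toFiniteMeasure.testAgainstNN f : ℝ≥0) : ℝ≥0∞) :=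
    ENNReal.continuous_coe.comp (ProbabilityMeasure.continuous_testAgainstNN_eval f)
  have h2 : (fun κ : ProbabilityMeasure T => ((κ.toFiniteMeasure.testAgainstNN f : ℝ≥0) : ℝ≥0∞)) =
      fun κ : ProbabilityMeasure T => ∫⁻ x, f x ∂(κ : Measure T) := by
    funext κ
    exact FiniteMeasure.testAgainstNN_coe_eq
  rw [← h2]
  exact h1

theorem cont_trans (μ : Measure T) [IsFiniteMeasure μ] (f : T →ᵇ ℝ≥0) :
    Continuous fun t : T => ∫⁻ x, f x ∂(μ.map (fun x => t + x)) := by
  have h1 : ∀ t : T, ∫⁻ x, f x ∂(μ.map (fun x => t + x)) = ∫⁻ x, f (t + x) ∂μ := fun t =>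
    lintegral_map (ENNReal.continuous_coe.comp f.continuous).measurable (by fun_prop)
  simp only [h1]
  rw [continuous_iff_continuousAt]
  intro t
  have h2 := tendsto_lintegral_nn_filter_of_le_const (L := 𝓝 t) μ
    (fs := fun s : T => f.compContinuous ⟨fun x => s + x, by fun_prop⟩) (c := nndist f 0)
    (Eventually.of_forall fun s => Eventually.of_forall fun x => BoundedContinuousFunction.NNReal.upper_bound f _)
    (f := fun x => f (t + x)) (Eventually.of_forall fun x => by
      have : Continuous fun s : T => f (s + x) := by fun_prop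
      exact this.tendsto t)
  exact h2

/-- the translations `t` for which the translate of `μ` and some element of `I` have overlap at least `c` -/
def Ov (μ : Measure T) (I : Set (ProbabilityMeasure T)) (c : ℝ≥0) : Set T :=
  {t | ∃ ν ∈ I, ∃ κ : ProbabilityMeasure T, c • (κ : Measure T) ≤ μ.map (fun x => t + x) ∧
    c • (κ : Measure T) ≤ (ν : Measure T)}

theorem closed_Ov (μ : Measure T) [IsFiniteMeasure μ] {I : Set (ProbabilityMeasure T)} (hI : IsClosed I)
    (c : ℝ≥0) : IsClosed (Ov μ I c) := by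
  set Z : Set (T × ProbabilityMeasure T × ProbabilityMeasure T) := {z | z.2.1 ∈ I ∧
    (∀ f : T →ᵇ ℝ≥0, (c : ℝ≥0∞) * ∫⁻ x, f x ∂(z.2.2 : Measure T) ≤ ∫⁻ x, f x ∂(μ.map (fun x => z.1 + x))) ∧
    ∀ f : T →ᵇ ℝ≥0, (c : ℝ≥0∞) * ∫⁻ x, f x ∂(z.2.2 : Measure T) ≤ ∫⁻ x, f x ∂(z.2.1 : Measure T)} with hZ
  have hZc : IsClosed Z := by
    have e1 : Z = (fun z : T × ProbabilityMeasure T × ProbabilityMeasure T => z.2.1) ⁻¹' I ∩
        ((⋂ f : T →ᵇ ℝ≥0, {z | (c : ℝ≥0∞) * ∫⁻ x, f x ∂(z.2.2 : Measure T) ≤
          ∫⁻ x, f x ∂(μ.map (fun x => z.1 + x))}) ∩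
        ⋂ f : T →ᵇ ℝ≥0, {z | (c : ℝ≥0∞) * ∫⁻ x, f x ∂(z.2.2 : Measure T) ≤
          ∫⁻ x, f x ∂(z.2.1 : Measure T)}) := by
      ext z
      simp only [hZ, mem_ofPred_eq, mem_inter_iff, mem_preimage, mem_iInter]
    rw [e1]
    have hκ : ∀ f : T →ᵇ ℝ≥0, Continuous fun z : T × ProbabilityMeasure T × ProbabilityMeasure T =>
        (c : ℝ≥0∞) * ∫⁻ x, f x ∂(z.2.2 : Measure T) := fun f =>
      (ENNReal.continuous_const_mul ENNReal.coe_ne_top).comp
        ((cont_test f).comp (continuous_snd.comp continuous_snd))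
    refine (hI.preimage (continuous_fst.comp continuous_snd)).inter ((isClosed_iInter fun f => ?_).inter
      (isClosed_iInter fun f => ?_))
    · exact isClosed_le (hκ f) ((cont_trans μ f).comp continuous_fst)
    · exact isClosed_le (hκ f) ((cont_test f).comp (continuous_fst.comp continuous_snd))
  have hle : ∀ {κ : ProbabilityMeasure T} {β : Measure T} [IsFiniteMeasure β],
      (∀ f : T →ᵇ ℝ≥0, (c : ℝ≥0∞) * ∫⁻ x, f x ∂(κ : Measure T) ≤ ∫⁻ x, f x ∂β) ↔
        c • (κ : Measure T) ≤ β := by
    intro κ β _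
    constructor
    · intro h
      refine le_of_test fun f => ?_
      rw [lintegral_smul_measure, ENNReal.smul_def, smul_eq_mul]
      exact h f
    · intro h f
      have h1 : ∫⁻ x, f x ∂(c • (κ : Measure T)) ≤ ∫⁻ x, f x ∂β := lintegral_mono' h le_rfl
      rwa [lintegral_smul_measure, ENNReal.smul_def, smul_eq_mul] at h1
  have e2 : Ov μ I c = Prod.fst '' Z := by
    ext t
    constructor
    · rintro ⟨ν, hν, κ, h1, h2⟩
      exact ⟨(t, ν, κ), ⟨hν, hle.2 h1, hle.2 h2⟩, rfl⟩
    · rintro ⟨⟨t', ν, κ⟩, ⟨hν, h1, h2⟩, rfl⟩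
      exact ⟨ν, hν, κ, hle.1 h1, hle.1 h2⟩
  rw [e2]
  exact (hZc.isCompact.image continuous_fst).isClosed

/-- the probability measures invariant under `×p` -/
def Inv (p : ℕ) : Set (ProbabilityMeasure T) :=
  {ν | MeasurePreserving (fun x : T => p • x) (ν : Measure T) (ν : Measure T)}

theorem closed_inv (p : ℕ) : IsClosed (Inv p) := by
  have hc : Continuous fun x : T => p • x := continuous_const_smul p
  have h1 : Continuous fun ν : ProbabilityMeasure T => ν.map hc.measurable.aemeasurable :=
    ProbabilityMeasure.continuous_map hc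
  have e1 : Inv p = {ν : ProbabilityMeasure T | ν.map hc.measurable.aemeasurable = ν} := by
    ext ν
    constructor
    · intro h
      exact Subtype.ext h.map_eq
    · intro h
      exact ⟨hc.measurable, congrArg Subtype.val h⟩
  rw [e1]
  exact isClosed_eq h1 continuous_id

/-- The image of a measure invariant under `×p` under any `×a` is invariant under `×p`. -/
theorem map_Inv {p : ℕ} (a : ℕ) {ν : ProbabilityMeasure T} (hν : ν ∈ Inv p) :
    ν.map (continuous_const_smul (T := T) a).measurable.aemeasurable ∈ Inv p := by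
  have ha : Continuous fun x : T => a • x := continuous_const_smul a
  have hp : Continuous fun x : T => p • x := continuous_const_smul p
  refine ⟨hp.measurable, ?_⟩
  show ((ν : Measure T).map (fun x : T => a • x)).map (fun x : T => p • x) = (ν : Measure T).map (fun x : T => a • x)
  have e1 : (fun x : T => p • x) ∘ (fun x : T => a • x) = (fun x : T => a • x) ∘ fun x : T => p • x := by
    funext x
    show p • a • x = a • p • x
    rw [← mul_smul, ← mul_smul, mul_comm]
  have h1 : (ν : Measure T).map (fun x : T => p • x) = ν := hν.map_eq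
  rw [Measure.map_map hp.measurable ha.measurable, e1, ← Measure.map_map ha.measurable hp.measurable, h1]

theorem inv_Ov {μ : Measure T} {a : ℕ} (hμ : MeasurePreserving (fun x : T => a • x) μ μ)
    {I : Set (ProbabilityMeasure T)}
    (hI : ∀ ν ∈ I, ν.map (continuous_const_smul (T := T) a).measurable.aemeasurable ∈ I) (c : ℝ≥0) :
    ∀ t ∈ Ov μ I c, a • t ∈ Ov μ I c := by
  rintro t ⟨ν, hν, κ, h1, h2⟩
  have hc : Continuous fun x : T => a • x := continuous_const_smul a
  refine ⟨ν.map hc.measurable.aemeasurable, hI ν hν, κ.map hc.measurable.aemeasurable, ?_, ?_⟩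
  · have h3 : (c • (κ : Measure T)).map (fun x : T => a • x) ≤ (μ.map (fun x => t + x)).map (fun x : T => a • x) :=
      Measure.map_mono h1 hc.measurable
    have h4 : (μ.map (fun x => t + x)).map (fun x : T => a • x) = μ.map (fun x => a • t + x) := by
      have e1 : (fun x : T => a • x) ∘ (fun x : T => t + x) = (fun x : T => a • t + x) ∘ fun x : T => a • x := by
        funext x
        show a • (t + x) = a • t + a • x
        rw [smul_add]
      rw [Measure.map_map hc.measurable (by fun_prop), e1, ← Measure.map_map (by fun_prop) hc.measurable, hμ.map_eq]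
    rw [h4, Measure.map_smul] at h3
    exact h3
  · have h3 : (c • (κ : Measure T)).map (fun x : T => a • x) ≤ (ν : Measure T).map (fun x : T => a • x) :=
      Measure.map_mono h2 hc.measurable
    rw [Measure.map_smul] at h3
    exact h3

end Pool.Agent.RSet
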